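import Pool.Agent.Helper70.Flat.Simplices

/-!
The fundamental cycle of a glued space and the evaluation of the square of the Euler class.
-/

open Set Topology

noncomputable section

namespace FlatCircle

variable {U : Type*}

/-- the simplices of the barycentric subdivision of the glued space -/
def cellSimplex (Φ : Fct → U → U) (x : U × Equiv.Perm (Fin 5) × Equiv.Perm (Fin 4)) :
    Sing 4 (Glued Φ) :=
  (⟨Glued.mk Φ x.1, Glued.continuous_mk Φ x.1⟩ : C(Permuto, Glued Φ)).comp
    (affineSimplex fun k : Fin 5 => facePt x.2.1 (stepSet x.2.2 k))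

theorem cellSimplex_sub (Φ : Fct → U → U) (x : U × Equiv.Perm (Fin 5) × Equiv.Perm (Fin 4))
    {m : ℕ} (f : Fin (m + 1) → Fin 5) :
    (cellSimplex Φ x).sub f =
      (⟨Glued.mk Φ x.1, Glued.continuous_mk Φ x.1⟩ : C(Permuto, Glued Φ)).comp
        (affineSimplex fun k => facePt x.2.1 (stepSet x.2.2 (f k))) := by
  have h := affineSimplex_sub (fun k : Fin 5 => facePt x.2.1 (stepSet x.2.2 k)) f
  have h2 : (fun k => facePt x.2.1 (stepSet x.2.2 (f k))) =
    (fun k : Fin 5 => facePt x.2.1 (stepSet x.2.2 k)) ∘ f := rfl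
  rw [h2, ← h]
  rfl

theorem cellSimplex_vert (Φ : Fct → U → U) (x : U × Equiv.Perm (Fin 5) × Equiv.Perm (Fin 4))
    (k : Fin 5) : cellSimplex Φ x (vert k) = Glued.mk Φ x.1 (facePt x.2.1 (stepSet x.2.2 k)) := by
  change Glued.mk Φ x.1 (affineSimplex _ (vert k)) = _
  rw [affineSimplex_vert]

/-- the involutions pairing the faces -/
def facePair (Φ : Fct → U → U) (m : Fin 5) (x : U × Equiv.Perm (Fin 5) × Equiv.Perm (Fin 4)) :
    U × Equiv.Perm (Fin 5) × Equiv.Perm (Fin 4) :=
  if m = 0 then (Φ (flag x.2.1 (x.2.2 0)) x.1, x.2.1, x.2.2)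
  else if m = 1 then (x.1, x.2.1, x.2.2 * Equiv.swap 0 1)
  else if m = 2 then (x.1, x.2.1, x.2.2 * Equiv.swap 1 2)
  else if m = 3 then (x.1, x.2.1, x.2.2 * Equiv.swap 2 3)
  else (x.1, x.2.1 * Equiv.swap (x.2.2 3).castSucc (x.2.2 3).succ, x.2.2)

theorem facePair_invol (D : GlueData U) (m : Fin 5)
    (x : U × Equiv.Perm (Fin 5) × Equiv.Perm (Fin 4)) :
    facePair D.Φ m (facePair D.Φ m x) = x := by
  obtain ⟨u, π, κ⟩ := x
  fin_cases m
  · simp [facePair, D.invol]
  · simp [facePair, mul_assoc]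
  · simp [facePair, mul_assoc]
  · simp [facePair, mul_assoc]
  · simp [facePair, mul_assoc]

/-- orientation signs of the simplices -/
def simplexSign (ε : U → ℤ) (x : U × Equiv.Perm (Fin 5) × Equiv.Perm (Fin 4)) : ℤ :=
  ε x.1 * (Equiv.Perm.sign x.2.1 : ℤ) * (Equiv.Perm.sign x.2.2 : ℤ)

theorem facePair_sign (D : GlueData U) {ε : U → ℤ} (hε : ∀ ω u, ε (D.Φ ω u) = - ε u) (m : Fin 5)
    (x : U × Equiv.Perm (Fin 5) × Equiv.Perm (Fin 4)) :
    simplexSign ε (facePair D.Φ m x) = - simplexSign ε x := by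
  obtain ⟨u, π, κ⟩ := x
  have h01 : Equiv.Perm.sign (Equiv.swap (0 : Fin 4) 1) = -1 :=
    Equiv.Perm.sign_swap (by decide)
  have h12 : Equiv.Perm.sign (Equiv.swap (1 : Fin 4) 2) = -1 :=
    Equiv.Perm.sign_swap (by decide)
  have h23 : Equiv.Perm.sign (Equiv.swap (2 : Fin 4) 3) = -1 :=
    Equiv.Perm.sign_swap (by decide)
  have hm : Equiv.Perm.sign (Equiv.swap (κ 3).castSucc (κ 3).succ) = -1 :=
    Equiv.Perm.sign_swap (by
      intro h
      have := congrArg Fin.val h
      simp at this)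
  fin_cases m
  · simp [facePair, simplexSign, hε]
  · simp [facePair, simplexSign, Equiv.Perm.sign_mul, h01]
  · simp [facePair, simplexSign, Equiv.Perm.sign_mul, h12]
  · simp [facePair, simplexSign, Equiv.Perm.sign_mul, h23]
  · simp [facePair, simplexSign, Equiv.Perm.sign_mul, hm]

theorem facePair_face (D : GlueData U) (m : Fin 5)
    (x : U × Equiv.Perm (Fin 5) × Equiv.Perm (Fin 4)) :
    (cellSimplex D.Φ (facePair D.Φ m x)).sub m.succAbove =
      (cellSimplex D.Φ x).sub m.succAbove := by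
  obtain ⟨u, π, κ⟩ := x
  rw [cellSimplex_sub, cellSimplex_sub]
  -- the case of equal copies and equal points
  have hsame : ∀ (π' : Equiv.Perm (Fin 5)) (κ' : Equiv.Perm (Fin 4)),
      (∀ k, facePt π' (stepSet κ' (m.succAbove k)) = facePt π (stepSet κ (m.succAbove k))) →
      (⟨Glued.mk D.Φ u, Glued.continuous_mk D.Φ u⟩ : C(Permuto, Glued D.Φ)).comp
        (affineSimplex fun k => facePt π' (stepSet κ' (m.succAbove k))) =
      (⟨Glued.mk D.Φ u, Glued.continuous_mk D.Φ u⟩ : C(Permuto, Glued D.Φ)).comp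
        (affineSimplex fun k => facePt π (stepSet κ (m.succAbove k))) := by
    intro π' κ' h
    congr 2
    funext k
    exact h k
  fin_cases m
  · -- crossing a facet
    simp only [facePair]
    ext t
    change Glued.mk D.Φ (D.Φ (flag π (κ 0)) u) _ = Glued.mk D.Φ u _
    apply Glued.sound
    change ell (flag π (κ 0)).1 (∑ k, t k • (facePt π (stepSet κ (Fin.succAbove 0 k)) :
      Fin 5 → ℝ)) = 0
    rw [ell_sum]
    refine Finset.sum_eq_zero fun k _ => ?_
    have hk : (Fin.succAbove 0 k : Fin 5) = k.succ := by simp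
    rw [hk, ell_facePt π (mem_stepSet_zero κ k), mul_zero]
  · apply hsame
    intro k
    have := stepSet_swap κ 0 (Fin.succAbove 1 k) (by fin_cases k <;> decide)
    change facePt π (stepSet (κ * Equiv.swap (Fin.castSucc 0) (Fin.succ 0)) (Fin.succAbove 1 k)) = _
    rw [this]
    rfl
  · apply hsame
    intro k
    have := stepSet_swap κ 1 (Fin.succAbove 2 k) (by fin_cases k <;> decide)
    change facePt π (stepSet (κ * Equiv.swap (Fin.castSucc 1) (Fin.succ 1)) (Fin.succAbove 2 k)) = _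
    rw [this]
    rfl
  · apply hsame
    intro k
    have := stepSet_swap κ 2 (Fin.succAbove 3 k) (by fin_cases k <;> decide)
    change facePt π (stepSet (κ * Equiv.swap (Fin.castSucc 2) (Fin.succ 2)) (Fin.succAbove 3 k)) = _
    rw [this]
    rfl
  · apply hsame
    intro k
    exact facePt_swap π (not_mem_stepSet_last κ _ (by fin_cases k <;> decide))

/-- the fundamental cycle -/
def fundCycle (D : GlueData U) (ε : U → ℤ) (hε : ∀ ω u, ε (D.Φ ω u) = - ε u) :
    PairedCycle (U × Equiv.Perm (Fin 5) × Equiv.Perm (Fin 4)) (Glued D.Φ) where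
  s := simplexSign ε
  τ := cellSimplex D.Φ
  ι := facePair D.Φ
  invol := facePair_invol D
  sgn := facePair_sign D hε
  face := facePair_face D

/-! ### The vertex map on the covering -/

/-- vertex data on gluing data with labels in the diffeomorphism group -/
structure VertexData (D : LabelData U CircleDiff) where
  ε : U → ℤ
  ε_Φ : ∀ ω u, ε (D.Φ ω u) = - ε u
  v : Fin 5 → U → Vtx
  v_pos : ∀ q u, 0 < (v q u).1
  v_Φ : ∀ (ω : Fct) (q : Fin 5) (u : U), q ∈ ω.1 → D.θ ω u • v q (D.Φ ω u) = v q u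

variable {D : LabelData U CircleDiff} (W : VertexData D)

/-- the vertex map on the covering space -/
def VertexData.map (x : Cover D.Φ D.θ) : Vtx :=
  Quot.lift (fun x : Σ _ : U × CircleDiff, Permuto =>
    x.1.2 • W.v (col (x.2 : Fin 5 → ℝ)) x.1.1) (by
    rintro ⟨⟨u, g⟩, p⟩ ⟨⟨v, h⟩, q⟩ ⟨h1, ω, h2, h3⟩
    simp only [coverΦ, Prod.mk.injEq] at h1 h2 h3 ⊢
    obtain ⟨h3, h4⟩ := h3
    subst h1 h3 h4
    rw [mul_smul, W.v_Φ ω _ u (col_mem ω.2.1 h2)]) x

theorem VertexData.map_mk (u : U) (g : CircleDiff) (p : Permuto) :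
    W.map (Glued.mk _ (u, g) p) = g • W.v (col (p : Fin 5 → ℝ)) u := rfl

theorem VertexData.map_smul (g : CircleDiff) (x : Cover D.Φ D.θ) : W.map (g • x) = g • W.map x := by
  revert x
  refine Glued.ind ?_
  rintro ⟨u, h⟩ p
  rw [smul_mk, VertexData.map_mk, VertexData.map_mk, mul_smul]

theorem VertexData.map_pos (x : Cover D.Φ D.θ) : 0 < (W.map x).1 := by
  revert x
  refine Glued.ind ?_
  rintro ⟨u, h⟩ p
  rw [VertexData.map_mk]
  exact W.v_pos _ u

/-- the local contribution of a copy of the permutohedron -/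
def VertexData.contrib (u : U) : ℝ :=
  cav (W.v 0 u) (W.v 1 u) (W.v 2 u) * cav (W.v 2 u) (W.v 3 u) (W.v 4 u)

theorem VertexData.sum_contrib [Fintype U] :
    ∑ x : U × Equiv.Perm (Fin 5) × Equiv.Perm (Fin 4), (simplexSign W.ε x : ℝ) *
      (cav (W.map (cellSimplex (coverΦ D.Φ D.θ) ((x.1, 1), x.2) (vert 0)))
        (W.map (cellSimplex (coverΦ D.Φ D.θ) ((x.1, 1), x.2) (vert 1)))
        (W.map (cellSimplex (coverΦ D.Φ D.θ) ((x.1, 1), x.2) (vert 2))) *
       cav (W.map (cellSimplex (coverΦ D.Φ D.θ) ((x.1, 1), x.2) (vert 2)))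
        (W.map (cellSimplex (coverΦ D.Φ D.θ) ((x.1, 1), x.2) (vert 3)))
        (W.map (cellSimplex (coverΦ D.Φ D.θ) ((x.1, 1), x.2) (vert 4)))) =
      ∑ u, (W.ε u : ℝ) * W.contrib u := by
  rw [Fintype.sum_prod_type]
  refine Finset.sum_congr rfl fun u _ => ?_
  have hval : ∀ (y : Equiv.Perm (Fin 5) × Equiv.Perm (Fin 4)) (k : Fin 5),
      W.map (cellSimplex (coverΦ D.Φ D.θ) ((u, 1), y) (vert k)) =
        W.v (colPi y.1 (blockEnd (stepSet y.2 k))) u := by
    intro y k
    rw [cellSimplex_vert, VertexData.map_mk, one_smul, col_facePt]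
  simp only [hval]
  rw [Finset.sum_eq_single (rev5, rev4)]
  · simp only [blockEnd_rev, colPi_rev]
    simp only [simplexSign, sign_rev5, sign_rev4, VertexData.contrib]
    push_cast
    ring
  · rintro ⟨π, κ⟩ - hne
    have hex : ∃ k : Fin 4, colPi π (blockEnd (stepSet κ k.castSucc)) =
        colPi π (blockEnd (stepSet κ k.succ)) := by
      by_cases hκ : κ = rev4
      · subst hκ
        have hπ : π ≠ rev5 := fun h => hne (by rw [h])
        obtain ⟨k, hk⟩ := colPi_eq π hπ
        refine ⟨k, ?_⟩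
        rw [blockEnd_rev, blockEnd_rev]
        exact hk
      · obtain ⟨k, hk⟩ := blockEnd_eq κ hκ
        exact ⟨k, by rw [hk]⟩
    obtain ⟨k, hk⟩ := hex
    fin_cases k
    · have : colPi π (blockEnd (stepSet κ 0)) = colPi π (blockEnd (stepSet κ 1)) := hk
      simp only [this, cav_self_left, zero_mul, mul_zero]
    · have : colPi π (blockEnd (stepSet κ 1)) = colPi π (blockEnd (stepSet κ 2)) := hk
      simp only [this, cav_self_right, zero_mul, mul_zero]
    · have : colPi π (blockEnd (stepSet κ 2)) = colPi π (blockEnd (stepSet κ 3)) := hk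
      simp only [this, cav_self_left, mul_zero]
    · have : colPi π (blockEnd (stepSet κ 3)) = colPi π (blockEnd (stepSet κ 4)) := hk
      simp only [this, cav_self_right, mul_zero]
  · intro h
    exact absurd (Finset.mem_univ _) h

/-- The main evaluation: if the signed sum of the local contributions does not vanish, the square
of the Euler class has infinite order. -/
theorem VertexData.infiniteOrder [Finite U] (u₀ : U)
    (hconn : ∀ u, Relation.ReflTransGen (fun u v => ∃ ω : Fct, v = D.Φ ω u) u₀ u)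
    (hne : ∀ [Fintype U], ∑ u, (W.ε u : ℝ) * W.contrib u ≠ 0)
    (hp : IsQuotientCoveringMap (coverProj D.Φ D.θ) CircleDiff)
    {x₀ : Glued D.Φ} (e₀ : coverProj D.Φ D.θ ⁻¹' {x₀}) :
    EulerSquareInfiniteOrder (holonomy hp e₀) := by
  have := Fintype.ofFinite U
  have := Glued.pathConnectedSpace D.Φ u₀ hconn
  refine ⟨exists_eulerCocycle _, ?_⟩
  rintro c hc k hk ⟨b, hb⟩
  let Z := fundCycle D.toGlueData W.ε W.ε_Φ
  have h1 := Z.sum_coboundary b
  have h2 := pairing_eq hp e₀ Z
    (fun x => cellSimplex (coverΦ D.Φ D.θ) ((x.1, 1), x.2)) (fun i => rfl)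
    W.map W.map_smul W.map_pos hc
  have h3 : ∑ i, (Z.s i : ℝ) * (cupSquare c (Z.τ i) : ℝ) = ∑ u, (W.ε u : ℝ) * W.contrib u :=
    h2.trans W.sum_contrib
  have h4 : ∑ i, (Z.s i : ℝ) * (coboundary b (Z.τ i) : ℝ) =
      (k : ℝ) * ∑ i, (Z.s i : ℝ) * (cupSquare c (Z.τ i) : ℝ) := by
    rw [Finset.mul_sum]
    refine Finset.sum_congr rfl fun i _ => ?_
    rw [hb]
    push_cast
    ring
  rw [h1, h3] at h4
  have hk' : (k : ℝ) ≠ 0 := by exact_mod_cast hk
  rcases mul_eq_zero.1 h4.symm with h | h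
  · exact hk' h
  · exact hne h

end FlatCircle
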