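import Pool.Agent.Helper70.Flat.Eval
import Pool.Agent.Helper70.Flat.Cycle

/-!
Assembly: the explicit four-manifold and its flat bundle.
-/

open Set Topology

noncomputable section

namespace FlatCircle

/-- the gluing data of the reachable states -/
def reachData : LabelData Reach CircleDiff where
  Φ := Reach.mutate
  t := fun u => u.1.2.2
  invol := fun ω u => Subtype.ext (mutate_mutate u.good ω)
  comm := fun _ _ u h => Subtype.ext (mutate_comm u.good h)
  t_Φ := fun _ _ _ => rfl
  θ := Reach.label
  θ_mul := fun ω u => label_mul u.good ω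
  θ_comm := fun _ _ u h => label_comm u.good h

theorem vtx_smul (q : Fin 5) (c : Cell) (g h : CircleDiff) : vtx q (c, g * h) = g • vtx q (c, h) := by
  unfold vtx
  simp only [mul_assoc]
  rfl

/-- the vertex data of the reachable states -/
def reachVertexData : VertexData reachData where
  ε := fun u => u.1.1.sgn
  ε_Φ := fun ω u => (u.good ω).sgn (u.1.1, 1)
  v := fun q u => vtx q (u.1.1, 1)
  v_pos := fun q u => by
    change 0 < bot u.1.1.1 + slot q u.1.1.1
    have := bot_ge u.1.1
    omega
  v_Φ := fun ω q u hq => by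
    have h1 := (u.good ω).vtx q hq (u.1.1, 1)
    change (u.1.2.1 ω (u.1.1, 1)).2 • vtx q ((u.1.2.1 ω (u.1.1, 1)).1, 1) = vtx q (u.1.1, 1)
    rw [← h1, ← vtx_smul, mul_one]

theorem reach_conn (u : Reach) :
    Relation.ReflTransGen (fun u v => ∃ ω : Fct, v = Reach.mutate ω u) Reach.start u := by
  obtain ⟨u, hu⟩ := u
  induction hu with
  | refl => exact Relation.ReflTransGen.refl
  | @tail v w hv h ih =>
    obtain ⟨ω, rfl⟩ := h
    exact ih.tail ⟨ω, rfl⟩

/-- the facet omitting the colour `j` -/
def omitFct (j : Fin 5) : Fct :=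
  ⟨{j}ᶜ, by fin_cases j <;> decide, by fin_cases j <;> decide⟩

theorem mutate_omit (j : Fin 5) (u : Reach) :
    (Reach.mutate (omitFct j) u).1.1 = u.1.1.partner j := by
  change ((u.1.2.1 (omitFct j)) (u.1.1, 1)).1 = _
  rw [(u.good (omitFct j)).facet j rfl]
  rfl

theorem card_fiber (j : Fin 5) [Fintype Reach] [DecidableEq Cell] (c : Cell) :
    (Finset.univ.filter fun u : Reach => u.1.1 = c.partner j).card =
      (Finset.univ.filter fun u : Reach => u.1.1 = c).card := by
  apply Finset.card_bij (fun u _ => Reach.mutate (omitFct j) u)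
  · intro u hu
    simp only [Finset.mem_filter, Finset.mem_univ, true_and] at hu ⊢
    rw [mutate_omit, hu, partner_partner]
  · intro u _ v _ h
    have := congrArg (Reach.mutate (omitFct j)) h
    have hi : ∀ u : Reach, Reach.mutate (omitFct j) (Reach.mutate (omitFct j) u) = u :=
      fun u => reachData.invol _ u
    rwa [hi, hi] at this
  · intro u hu
    simp only [Finset.mem_filter, Finset.mem_univ, true_and] at hu
    refine ⟨Reach.mutate (omitFct j) u, ?_, reachData.invol _ u⟩
    simp only [Finset.mem_filter, Finset.mem_univ, true_and]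
    rw [mutate_omit, hu]

theorem sum_reach_ne_zero [Fintype Reach] :
    ∑ u : Reach, (reachVertexData.ε u : ℝ) * reachVertexData.contrib u ≠ 0 := by
  classical
  have h1 : ∑ u : Reach, (reachVertexData.ε u : ℝ) * reachVertexData.contrib u =
      ∑ u : Reach, (fun c : Cell => (c.sgn : ℝ) * cellContrib c) u.1.1 := rfl
  have h2 : ∑ u : Reach, (fun c : Cell => (c.sgn : ℝ) * cellContrib c) u.1.1 =
      ∑ c : Cell, ((Finset.univ.filter fun u : Reach => u.1.1 = c).card : ℝ) *
        ((c.sgn : ℝ) * cellContrib c) := by
    rw [← Finset.sum_fiberwise Finset.univ (fun u : Reach => u.1.1)]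
    refine Finset.sum_congr rfl fun c _ => ?_
    rw [Finset.sum_congr rfl (g := fun _ => (c.sgn : ℝ) * cellContrib c)]
    · rw [Finset.sum_const, nsmul_eq_mul]
    · intro u hu
      simp only [Finset.mem_filter, Finset.mem_univ, true_and] at hu
      rw [hu]
  have h3 : ∀ c : Cell, (Finset.univ.filter fun u : Reach => u.1.1 = c).card =
      (Finset.univ.filter fun u : Reach => u.1.1 = ⟨5123, by decide +kernel⟩).card := by
    intro c
    exact const_of_partner (fun c : Cell => (Finset.univ.filter fun u : Reach => u.1.1 = c).card)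
      (fun j c => card_fiber j c) c
  have h4 : 0 < (Finset.univ.filter fun u : Reach => u.1.1 = ⟨5123, by decide +kernel⟩).card := by
    rw [Finset.card_pos]
    refine ⟨Reach.start, ?_⟩
    rw [Finset.mem_filter]
    exact ⟨Finset.mem_univ _, rfl⟩
  rw [h1, h2]
  simp only [h3]
  rw [← Finset.mul_sum, sum_cellContrib]
  generalize (Finset.univ.filter fun u : Reach => u.1.1 = ⟨5123, by decide +kernel⟩).card = n at h4
  have h4' : (0:ℝ) < (n : ℝ) := by exact_mod_cast h4
  have h5 : (0:ℝ) < 168 / (28 * 332640) := by norm_num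
  exact (mul_pos h4' h5).ne'

/-- The covering space of `M4` with group `Diff^∞_+(S¹)`. -/
abbrev M4Cover : Type := Cover Reach.mutate Reach.label

theorem main_result (hp : IsQuotientCoveringMap (coverProj Reach.mutate Reach.label) CircleDiff)
    {x₀ : M4} (e₀ : coverProj Reach.mutate Reach.label ⁻¹' {x₀}) :
    EulerSquareInfiniteOrder (holonomy hp e₀) :=
  reachVertexData.infiniteOrder Reach.start reach_conn sum_reach_ne_zero hp e₀

end FlatCircle
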