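import Pool.Agent.Helper70.Flat.States

/-!
The averaged orientation cocycle on the vertices.
-/

open Set Topology

noncomputable section

namespace FlatCircle

/-- the odd function with `hh (t+1) = hh t + 1` which is constant on the open intervals between
integers -/
def hh (t : ℝ) : ℝ := ((⌊t⌋ : ℝ) + ⌈t⌉) / 2

theorem hh_add_int (t : ℝ) (k : ℤ) : hh (t + k) = hh t + k := by
  unfold hh
  rw [Int.floor_add_intCast, Int.ceil_add_intCast]
  push_cast; ring

theorem hh_neg (t : ℝ) : hh (-t) = - hh t := by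
  unfold hh
  rw [Int.floor_neg, Int.ceil_neg]
  push_cast; ring

theorem hh_lift (g : DiffLift) (a b : ℝ) : hh (g b - g a) = hh (b - a) := by
  have hm := dl_strictMono g
  have h1 : ∀ n : ℤ, (n : ℝ) ≤ g b - g a ↔ (n : ℝ) ≤ b - a := by
    intro n
    rw [le_sub_iff_add_le, le_sub_iff_add_le, add_comm, add_comm (n:ℝ) a, ← dl_add_int,
      hm.le_iff_le]
  have h2 : ∀ n : ℤ, g b - g a ≤ (n : ℝ) ↔ b - a ≤ (n : ℝ) := by
    intro n
    rw [sub_le_iff_le_add, sub_le_iff_le_add, add_comm, add_comm (n:ℝ) a, ← dl_add_int,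
      hm.le_iff_le]
  have e1 : ⌊g b - g a⌋ = ⌊b - a⌋ := by
    apply le_antisymm
    · rw [Int.le_floor, ← h1, ← Int.le_floor]
    · rw [Int.le_floor, h1, ← Int.le_floor]
  have e2 : ⌈g b - g a⌉ = ⌈b - a⌉ := by
    apply le_antisymm
    · rw [Int.ceil_le, h2, ← Int.ceil_le]
    · rw [Int.ceil_le, ← h2, ← Int.ceil_le]
  unfold hh
  rw [e1, e2]

/-- twice this is the orientation cocycle of three points of the circle -/
def orr (a b c : ℝ) : ℝ := hh (b - a) + hh (c - b) - hh (c - a)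

theorem orr_lift (g : DiffLift) (a b c : ℝ) : orr (g a) (g b) (g c) = orr a b c := by
  simp only [orr, hh_lift]

theorem orr_add_left (a b c : ℝ) (k : ℤ) : orr (a + k) b c = orr a b c := by
  unfold orr
  have h1 : b - (a + k) = (b - a) + ((-k : ℤ) : ℝ) := by push_cast; ring
  have h2 : c - (a + k) = (c - a) + ((-k : ℤ) : ℝ) := by push_cast; ring
  rw [h1, h2, hh_add_int, hh_add_int]; ring

theorem orr_add_mid (a b c : ℝ) (k : ℤ) : orr a (b + k) c = orr a b c := by
  unfold orr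
  have h1 : b + k - a = (b - a) + (k : ℝ) := by ring
  have h2 : c - (b + k) = (c - b) + ((-k : ℤ) : ℝ) := by push_cast; ring
  rw [h1, h2, hh_add_int, hh_add_int]; push_cast; ring

theorem orr_add_right (a b c : ℝ) (k : ℤ) : orr a b (c + k) = orr a b c := by
  unfold orr
  have h1 : c + k - b = (c - b) + (k : ℝ) := by ring
  have h2 : c + k - a = (c - a) + (k : ℝ) := by ring
  rw [h1, h2, hh_add_int, hh_add_int]; ring

theorem orr_swap_left (a b c : ℝ) : orr b a c = - orr a b c := by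
  unfold orr
  have h1 : a - b = -(b - a) := by ring
  rw [h1, hh_neg]; ring

theorem orr_swap_right (a b c : ℝ) : orr a c b = - orr a b c := by
  unfold orr
  have h1 : b - c = -(c - b) := by ring
  rw [h1, hh_neg]; ring

theorem orr_cocycle (a b c d : ℝ) : orr b c d - orr a c d + orr a b d - orr a b c = 0 := by
  unfold orr; ring

/-! ### Averages -/

/-- average of a function over the `n` points `g (i/n)` -/
def avL (n : ℕ) (g : DiffLift) (F : ℝ → ℝ) : ℝ := (∑ i ∈ Finset.range n, F (g ((i : ℝ) / n))) / n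

theorem avL_congr {n : ℕ} {g : DiffLift} {F F' : ℝ → ℝ} (h : ∀ x, F x = F' x) :
    avL n g F = avL n g F' := by
  unfold avL; simp only [h]

theorem avL_const {n : ℕ} (hn : 0 < n) (g : DiffLift) (r : ℝ) : avL n g (fun _ => r) = r := by
  unfold avL
  have : (n:ℝ) ≠ 0 := by positivity
  simp only [Finset.sum_const, Finset.card_range, nsmul_eq_mul]
  field_simp

theorem avL_add (n : ℕ) (g : DiffLift) (F F' : ℝ → ℝ) :
    avL n g (fun x => F x + F' x) = avL n g F + avL n g F' := by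
  unfold avL; rw [Finset.sum_add_distrib, add_div]

theorem avL_sub (n : ℕ) (g : DiffLift) (F F' : ℝ → ℝ) :
    avL n g (fun x => F x - F' x) = avL n g F - avL n g F' := by
  unfold avL; rw [Finset.sum_sub_distrib, sub_div]

theorem avL_neg (n : ℕ) (g : DiffLift) (F : ℝ → ℝ) :
    avL n g (fun x => - F x) = - avL n g F := by
  unfold avL; rw [Finset.sum_neg_distrib, neg_div]

theorem avL_comm (n n' : ℕ) (g g' : DiffLift) (F : ℝ → ℝ → ℝ) :
    avL n g (fun x => avL n' g' fun y => F x y) = avL n' g' fun y => avL n g fun x => F x y := by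
  unfold avL
  rw [← Finset.sum_div, ← Finset.sum_div, Finset.sum_comm]
  ring

theorem avL_mul (n : ℕ) (h g : DiffLift) (F : ℝ → ℝ) :
    avL n (h * g) F = avL n g fun x => F (h x) := rfl

theorem sum_range_periodic {n : ℕ} (f : ℤ → ℝ) (hf : ∀ i, f (i + n) = f i) (k : ℤ) :
    ∑ i ∈ Finset.range n, f (i + k) = ∑ i ∈ Finset.range n, f i := by
  have step1 : ∀ g : ℤ → ℝ, (∀ i, g (i + n) = g i) →
      ∑ i ∈ Finset.range n, g (i + 1) = ∑ i ∈ Finset.range n, g i := by
    intro g hg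
    have h1 := Finset.sum_range_succ (fun i : ℕ => g i) n
    have h2 := Finset.sum_range_succ' (fun i : ℕ => g i) n
    have h3 : g (n : ℤ) = g 0 := by simpa using hg 0
    push_cast at h1 h2
    linarith
  induction k using Int.induction_on with
  | zero => simp
  | succ m ih =>
    rw [← ih, ← step1 (fun i => f (i + m)) (fun i => by rw [add_right_comm, hf])]
    refine Finset.sum_congr rfl fun i _ => ?_
    congr 1; ring
  | pred m ih =>
    rw [← ih, ← step1 (fun i => f (i + (-(m:ℤ) - 1))) (fun i => by rw [add_right_comm, hf])]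
    refine Finset.sum_congr rfl fun i _ => ?_
    congr 1; ring

/-- averages of periodic functions only depend on the vertex -/
theorem avL_coset {n : ℕ} (hn : 0 < n) {g g' : DiffLift}
    (h : (toCircle g)⁻¹ * toCircle g' ∈ RotGroup n) {F : ℝ → ℝ}
    (hF : ∀ x (k : ℤ), F (x + k) = F x) : avL n g F = avL n g' F := by
  obtain ⟨k, hk⟩ := mem_rotGroup.1 h
  have h1 : toCircle g' = toCircle (g * transl (k / n)) := by
    rw [map_mul]
    change _ = toCircle g * rot (k / n)
    rw [← hk]; group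
  obtain ⟨m, hm⟩ := toCircle_eq_iff.1 h1
  have hn' : (n:ℝ) ≠ 0 := by positivity
  unfold avL
  congr 1
  have e : ∀ i : ℕ, F (g' ((i:ℝ) / n)) = (fun i : ℤ => F (g ((i : ℝ) / n))) (i + k) := by
    intro i
    rw [hm]
    simp only [dl_mul_apply, transl_apply, hF]
    congr 2
    push_cast
    ring
  rw [Finset.sum_congr rfl fun i _ => e i]
  rw [sum_range_periodic (fun i : ℤ => F (g ((i : ℝ) / n))) (fun i => ?_) k]
  · simp
  · have : (((i + n : ℤ)) : ℝ) / n = (i : ℝ) / n + (1 : ℤ) := by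
      push_cast; field_simp
    rw [this, dl_add_int, hF]

/-! ### The cocycle on vertices -/

theorem exists_rep (v : Vtx) : ∃ g : DiffLift, v = ⟨v.1, (toCircle g : CircleDiff ⧸ RotGroup v.1)⟩ := by
  rcases v with ⟨n, w⟩
  obtain ⟨a, rfl⟩ := QuotientGroup.mk_surjective w
  obtain ⟨g, rfl⟩ := (QuotientGroup.mk'_surjective IntTransl) a
  exact ⟨g, rfl⟩

/-- a representing lift of a vertex -/
def rep (v : Vtx) : DiffLift := (exists_rep v).choose

theorem rep_spec (v : Vtx) : v = ⟨v.1, (toCircle (rep v) : CircleDiff ⧸ RotGroup v.1)⟩ :=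
  (exists_rep v).choose_spec

/-- average over the points of a vertex -/
def av (v : Vtx) (F : ℝ → ℝ) : ℝ := avL v.1 (rep v) F

theorem av_mk {n : ℕ} (hn : 0 < n) (g : DiffLift) {F : ℝ → ℝ}
    (hF : ∀ x (k : ℤ), F (x + k) = F x) :
    av ⟨n, (toCircle g : CircleDiff ⧸ RotGroup n)⟩ F = avL n g F := by
  unfold av
  have h := rep_spec ⟨n, (toCircle g : CircleDiff ⧸ RotGroup n)⟩
  exact avL_coset hn (vtx_mk_eq_iff.1 h.symm).2 hF

/-- the averaged orientation cocycle -/
def cav (v₀ v₁ v₂ : Vtx) : ℝ := av v₀ fun a => av v₁ fun b => av v₂ fun c => orr a b c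

theorem avL_periodic {n : ℕ} {g : DiffLift} {F : ℝ → ℝ → ℝ}
    (hF : ∀ x y (k : ℤ), F (x + k) y = F x y) (x : ℝ) (k : ℤ) :
    avL n g (fun y => F (x + k) y) = avL n g fun y => F x y := by
  simp only [hF]

theorem cav_mk {n₀ n₁ n₂ : ℕ} (h₀ : 0 < n₀) (h₁ : 0 < n₁) (h₂ : 0 < n₂) (g₀ g₁ g₂ : DiffLift) :
    cav ⟨n₀, (toCircle g₀ : CircleDiff ⧸ RotGroup n₀)⟩
      ⟨n₁, (toCircle g₁ : CircleDiff ⧸ RotGroup n₁)⟩
      ⟨n₂, (toCircle g₂ : CircleDiff ⧸ RotGroup n₂)⟩ =
    avL n₀ g₀ fun a => avL n₁ g₁ fun b => avL n₂ g₂ fun c => orr a b c := by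
  unfold cav
  have e1 : ∀ a b, av ⟨n₂, (toCircle g₂ : CircleDiff ⧸ RotGroup n₂)⟩ (fun c => orr a b c) =
      avL n₂ g₂ fun c => orr a b c :=
    fun a b => av_mk h₂ g₂ fun x k => orr_add_right _ _ _ _
  simp only [e1]
  have e2 : ∀ a, av ⟨n₁, (toCircle g₁ : CircleDiff ⧸ RotGroup n₁)⟩
      (fun b => avL n₂ g₂ fun c => orr a b c) = avL n₁ g₁ fun b => avL n₂ g₂ fun c => orr a b c :=
    fun a => av_mk h₁ g₁ fun x k => by simp only [orr_add_mid]
  simp only [e2]
  exact av_mk h₀ g₀ fun x k => by simp only [orr_add_left]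

theorem cav_smul (h : CircleDiff) {v₀ v₁ v₂ : Vtx} (h₀ : 0 < v₀.1) (h₁ : 0 < v₁.1)
    (h₂ : 0 < v₂.1) : cav (h • v₀) (h • v₁) (h • v₂) = cav v₀ v₁ v₂ := by
  obtain ⟨t, rfl⟩ := (QuotientGroup.mk'_surjective IntTransl) h
  obtain ⟨g₀, e₀⟩ := exists_rep v₀
  obtain ⟨g₁, e₁⟩ := exists_rep v₁
  obtain ⟨g₂, e₂⟩ := exists_rep v₂
  generalize hn₀ : v₀.1 = n₀ at *
  generalize hn₁ : v₁.1 = n₁ at *
  generalize hn₂ : v₂.1 = n₂ at *
  subst e₀ e₁ e₂
  have e : ∀ (n : ℕ) (g : DiffLift), (toCircle t) • (⟨n, (toCircle g : CircleDiff ⧸ RotGroup n)⟩ : Vtx) =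
    ⟨n, (toCircle (t * g) : CircleDiff ⧸ RotGroup n)⟩ := fun n g => rfl
  change cav (toCircle t • _) (toCircle t • _) (toCircle t • _) = _
  rw [e, e, e, cav_mk h₀ h₁ h₂, cav_mk h₀ h₁ h₂]
  simp only [avL_mul, orr_lift]

theorem av_comm (v v' : Vtx) (F : ℝ → ℝ → ℝ) :
    av v (fun x => av v' fun y => F x y) = av v' fun y => av v fun x => F x y :=
  avL_comm _ _ _ _ _

theorem cav_self_left (v w : Vtx) : cav v v w = 0 := by
  have h : cav v v w = - cav v v w := by
    conv_lhs => unfold cav; rw [av_comm]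
    unfold cav
    rw [← show av v (fun a => - av v fun b => av w fun c => orr a b c) =
      - av v (fun a => av v fun b => av w fun c => orr a b c) from avL_neg _ _ _]
    unfold av
    refine avL_congr fun a => ?_
    rw [← avL_neg]
    refine avL_congr fun b => ?_
    rw [← avL_neg]
    refine avL_congr fun c => ?_
    exact orr_swap_left _ _ _
  linarith

theorem cav_self_right (v w : Vtx) : cav v w w = 0 := by
  have h : cav v w w = - cav v w w := by
    conv_lhs => unfold cav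
    unfold cav
    rw [← show av v (fun a => - av w fun b => av w fun c => orr a b c) =
      - av v (fun a => av w fun b => av w fun c => orr a b c) from avL_neg _ _ _]
    unfold av
    refine avL_congr fun a => ?_
    conv_lhs => rw [avL_comm]
    rw [← avL_neg]
    refine avL_congr fun b => ?_
    rw [← avL_neg]
    refine avL_congr fun c => ?_
    exact orr_swap_right _ _ _
  linarith

theorem cav_cocycle {v₀ v₁ v₂ v₃ : Vtx} (h₀ : 0 < v₀.1) (h₁ : 0 < v₁.1)
    (h₂ : 0 < v₂.1) (h₃ : 0 < v₃.1) :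
    cav v₁ v₂ v₃ - cav v₀ v₂ v₃ + cav v₀ v₁ v₃ - cav v₀ v₁ v₂ = 0 := by
  have e1 : cav v₁ v₂ v₃ = av v₀ fun _ => av v₁ fun b => av v₂ fun c => av v₃ fun d => orr b c d := by
    unfold av; rw [avL_const h₀]; rfl
  have e2 : cav v₀ v₂ v₃ = av v₀ fun a => av v₁ fun _ => av v₂ fun c => av v₃ fun d => orr a c d := by
    unfold av
    simp only [avL_const h₁]; rfl
  have e3 : cav v₀ v₁ v₃ = av v₀ fun a => av v₁ fun b => av v₂ fun _ => av v₃ fun d => orr a b d := by
    unfold av
    simp only [avL_const h₂]; rfl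
  have e4 : cav v₀ v₁ v₂ = av v₀ fun a => av v₁ fun b => av v₂ fun c => av v₃ fun _ => orr a b c := by
    unfold av
    simp only [avL_const h₃]; rfl
  rw [e1, e2, e3, e4]
  unfold av
  simp only [← avL_sub, ← avL_add]
  simp only [orr_cocycle]
  unfold avL
  simp

end FlatCircle
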