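import Mathlib

/-!
Basic objects: the group `Diff^∞_+(S¹)` of `C^∞` orientation preserving diffeomorphisms of the
circle, as the group of lifts modulo the integral translations; a smooth periodic step; the
four-dimensional permutohedron.
-/

noncomputable section

namespace FlatCircle

open scoped ContDiff in
/-- The group of lifts to `ℝ` of the orientation preserving `C^∞` diffeomorphisms of the circle
`ℝ/ℤ`: increasing bijections of `ℝ`, smooth together with their inverse, which commute with the
translation by `1`. -/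
def DiffLift : Subgroup (Equiv.Perm ℝ) where
  carrier := {f | ContDiff ℝ ∞ (f : ℝ → ℝ) ∧ ContDiff ℝ ∞ (f.symm : ℝ → ℝ) ∧
    StrictMono (f : ℝ → ℝ) ∧ ∀ x, f (x + 1) = f x + 1}
  one_mem' := ⟨contDiff_id, contDiff_id, strictMono_id, fun _ => rfl⟩
  mul_mem' := by
    rintro f g ⟨hf1, hf2, hf3, hf4⟩ ⟨hg1, hg2, hg3, hg4⟩
    refine ⟨hf1.comp hg1, hg2.comp hf2, hf3.comp hg3, fun x => ?_⟩
    simp only [Equiv.Perm.coe_mul, Function.comp_apply, hg4, hf4]
  inv_mem' := by
    rintro f ⟨hf1, hf2, hf3, hf4⟩
    refine ⟨hf2, hf1, ?_, fun x => ?_⟩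
    · intro x y hxy
      have h1 : f (f⁻¹ x) = x := f.apply_symm_apply x
      have h2 : f (f⁻¹ y) = y := f.apply_symm_apply y
      exact hf3.lt_iff_lt.1 (by rw [h1, h2]; exact hxy)
    · apply f.injective
      have h1 : f (f⁻¹ x) = x := f.apply_symm_apply x
      have h2 : f (f⁻¹ (x+1)) = x+1 := f.apply_symm_apply _
      rw [hf4, h1, h2]

instance : CoeFun DiffLift (fun _ => ℝ → ℝ) := ⟨fun f => (f : Equiv.Perm ℝ)⟩

/-- the translation by `a` -/
def transl (a : ℝ) : DiffLift :=
  ⟨Equiv.addRight a, by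
    have : (Equiv.addRight a : ℝ → ℝ) = fun x => x + a := rfl
    rw [this]; fun_prop, by
    have : ((Equiv.addRight a).symm : ℝ → ℝ) = fun x => x + (-a) := by
      ext x; simp
    rw [this]; fun_prop, fun x y h => by simpa using h, fun x => by
      simp only [Equiv.coe_addRight]; ring⟩

/-- The subgroup of integral translations, the kernel of `DiffLift → CircleDiff`. -/
abbrev IntTransl : Subgroup DiffLift := Subgroup.zpowers (transl 1)

instance : IntTransl.Normal where
  conj_mem := by
    rintro _ ⟨k, rfl⟩ g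
    have h : Commute g (transl 1) := Subtype.ext (Equiv.ext fun x => g.2.2.2.2 x)
    refine ⟨k, ?_⟩
    change transl 1 ^ k = g * transl 1 ^ k * g⁻¹
    rw [(h.zpow_right k).eq, mul_inv_cancel_right]

/-- The group `Diff^∞_+(S¹)` of orientation preserving `C^∞` diffeomorphisms of the circle
`ℝ/ℤ`: lifts modulo integral translations. -/
abbrev CircleDiff : Type := DiffLift ⧸ IntTransl

/-- The class of a lift in `Diff^∞_+(S¹)`. -/
abbrev toCircle : DiffLift →* CircleDiff := QuotientGroup.mk' IntTransl

/-- rotation of the circle by `a` -/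
def rot (a : ℝ) : CircleDiff := toCircle (transl a)

/-- The smooth step with period `n`: it increases smoothly from `m` to `m+1` on
`[mn, mn+1]` and is constant on `[mn+1, (m+1)n]`. -/
def step (n : ℕ) (x : ℝ) : ℝ := ⌊x / n⌋ + Real.smoothTransition (x - n * ⌊x / n⌋)

/-- the affine function which vanishes on the facet `ω` of the permutohedron -/
def ell (ω : Finset (Fin 5)) (p : Fin 5 → ℝ) : ℝ :=
  ∑ i ∈ ω, p i - (ω.card : ℝ) * (ω.card - 1) / 2

/-- The permutohedron, the convex hull of the permutations of `(0,1,2,3,4)`. -/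
def Permuto : Set (Fin 5 → ℝ) := {p | ∑ i, p i = 10 ∧ ∀ ω : Finset (Fin 5), 0 ≤ ell ω p}

/-- The facets of the permutohedron: the proper nonempty sets of colours `0,…,4`. -/
abbrev Fct : Type := {ω : Finset (Fin 5) // ω.Nonempty ∧ ω ≠ Finset.univ}

/-- the centre of the facet `ω` -/
def facetCentre (ω : Fct) : Fin 5 → ℝ :=
  fun i => if i ∈ ω.1 then ((ω.1.card : ℝ) - 1) / 2 else ((ω.1.card : ℝ) + 4) / 2

end FlatCircle
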