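import Pool.Agent.Helper70.Flat.Basic

/-!
First properties of the four-dimensional permutohedron.
-/

noncomputable section

namespace FlatCircle

theorem continuous_ell (ω : Finset (Fin 5)) : Continuous (ell ω) := by
  unfold ell; fun_prop

theorem ell_singleton (i : Fin 5) (p : Fin 5 → ℝ) : ell {i} p = p i := by
  simp [ell]

theorem Permuto.nonneg {p : Fin 5 → ℝ} (hp : p ∈ Permuto) (i : Fin 5) : 0 ≤ p i := by
  rw [← ell_singleton i p]; exact hp.2 _

theorem Permuto.le {p : Fin 5 → ℝ} (hp : p ∈ Permuto) (i : Fin 5) : p i ≤ 10 := by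
  rw [← hp.1]
  exact Finset.single_le_sum (fun j _ => Permuto.nonneg hp j) (Finset.mem_univ i)

theorem isClosed_permuto : IsClosed Permuto := by
  have : Permuto = {p : Fin 5 → ℝ | ∑ i, p i = 10} ∩ ⋂ ω : Finset (Fin 5), {p | 0 ≤ ell ω p} := by
    ext p; simp [Permuto]
  rw [this]
  refine IsClosed.inter (isClosed_eq (by fun_prop) continuous_const) ?_
  exact isClosed_iInter fun ω => isClosed_le continuous_const (continuous_ell ω)

theorem isCompact_permuto : IsCompact Permuto :=
  (isCompact_Icc (a := fun _ : Fin 5 => (0:ℝ)) (b := fun _ => 10)).of_isClosed_subset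
    isClosed_permuto fun _ hp => ⟨fun i => Permuto.nonneg hp i, fun i => Permuto.le hp i⟩

instance : CompactSpace Permuto := isCompact_iff_compactSpace.1 isCompact_permuto

theorem ell_combo (ω : Finset (Fin 5)) (p q : Fin 5 → ℝ) {a b : ℝ} (hab : a + b = 1) :
    ell ω (a • p + b • q) = a * ell ω p + b * ell ω q := by
  simp only [ell, Pi.add_apply, Pi.smul_apply, smul_eq_mul, Finset.sum_add_distrib,
    ← Finset.mul_sum]
  linear_combination ((ω.card : ℝ) * (ω.card - 1) / 2) * hab

theorem convex_permuto : Convex ℝ Permuto := by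
  intro p hp q hq a b ha hb hab
  refine ⟨?_, fun ω => ?_⟩
  · simp only [Pi.add_apply, Pi.smul_apply, smul_eq_mul, Finset.sum_add_distrib,
      ← Finset.mul_sum, hp.1, hq.1]
    linear_combination 10 * hab
  · rw [ell_combo ω p q hab]
    have := hp.2 ω
    have := hq.2 ω
    positivity

theorem ell_facetCentre (ω : Fct) (σ : Finset (Fin 5)) :
    ell σ (facetCentre ω) = (((σ ∩ ω.1).card : ℝ) + (σ \ ω.1).card) *
      ((ω.1.card : ℝ) - (σ ∩ ω.1).card) / 2 +
      ((σ \ ω.1).card : ℝ) * (5 - ((σ ∩ ω.1).card : ℝ) - (σ \ ω.1).card) / 2 := by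
  have hs : ∑ i ∈ σ, facetCentre ω i = ((σ ∩ ω.1).card : ℝ) * (((ω.1.card : ℝ) - 1) / 2) +
      ((σ \ ω.1).card : ℝ) * (((ω.1.card : ℝ) + 4) / 2) := by
    unfold facetCentre
    rw [Finset.sum_ite, Finset.sum_const, Finset.sum_const, nsmul_eq_mul, nsmul_eq_mul]
    rw [Finset.filter_mem_eq_inter, Finset.filter_notMem_eq_sdiff]
  have hc : (σ.card : ℝ) = (σ ∩ ω.1).card + (σ \ ω.1).card := by
    exact_mod_cast (Finset.card_inter_add_card_sdiff σ ω.1).symm
  unfold ell
  rw [hs, hc]
  ring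

theorem facetCentre_mem_permuto (ω : Fct) : facetCentre ω ∈ Permuto := by
  have key : ∀ σ : Finset (Fin 5), 0 ≤ ell σ (facetCentre ω) := by
    intro σ
    rw [ell_facetCentre]
    have h1 : ((σ ∩ ω.1).card : ℝ) ≤ ω.1.card := by
      exact_mod_cast Finset.card_le_card Finset.inter_subset_right
    have h2 : ((σ ∩ ω.1).card : ℝ) + (σ \ ω.1).card ≤ 5 := by
      have h3 := Finset.card_inter_add_card_sdiff σ ω.1
      have h4 : σ.card ≤ 5 := by simpa using Finset.card_le_univ σ
      have h5 : (σ ∩ ω.1).card + (σ \ ω.1).card ≤ 5 := by omega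
      exact_mod_cast h5
    have : (0:ℝ) ≤ (ω.1.card : ℝ) - (σ ∩ ω.1).card := by linarith
    have : (0:ℝ) ≤ 5 - ((σ ∩ ω.1).card : ℝ) - (σ \ ω.1).card := by linarith
    positivity
  refine ⟨?_, key⟩
  have h := ell_facetCentre ω Finset.univ
  have h1 : ((Finset.univ \ ω.1).card : ℝ) = 5 - ω.1.card := by
    have h2 := Finset.card_sdiff_add_card_eq_card (Finset.subset_univ ω.1)
    rw [Finset.card_univ, Fintype.card_fin] at h2
    have h3 : ((Finset.univ \ ω.1).card : ℝ) + ω.1.card = 5 := by exact_mod_cast h2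
    linarith
  rw [Finset.univ_inter, h1] at h
  simp only [ell, Finset.card_univ, Fintype.card_fin] at h
  push_cast at h
  linarith

theorem ell_facetCentre_self (ω : Fct) : ell ω.1 (facetCentre ω) = 0 := by
  rw [ell_facetCentre]
  simp

end FlatCircle
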