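import Pool.Agent.Helper70.Flat.Diff
import Pool.Agent.Helper70.Flat.PermLemmas

/-!
The explicit closed four-manifold `M4` and the labels in `Diff^∞_+(S¹)` of its facet gluings.

* There are 108 cells. A cell is coded by a four digit number `N a b c`; it stands for the chain
  of subdivisions of the circle which starts with `N` equal intervals and in which one then
  doubles, one after the other, the intervals `0, a, b, c` (elements of `ℤ/N`). The five stages of
  this process are numbered by the slots `0,…,4`; slot `k` has `N + k` intervals and colour
  `N + k mod 5`. Every cell has one facet for each colour `j` (the stages of the colours other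
  than `j`), and the facets are glued in pairs.
* A state consists of a cell, a gluing map of the translates of the cells for every proper
  nonempty set `ω` of colours, and four parities. Mutations of states are indexed by the sets `ω`.
* `M4` is obtained from one copy of the four-dimensional permutohedron for every state which can
  be reached from the initial state, by gluing the facet `ω` of the copy `u` identically to the
  facet `ω` of the copy `mutate ω u`.
-/

open Set Topology

noncomputable section

namespace FlatCircle

/-! ### The insertion diffeomorphisms -/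

/-- For `n ≥ 2` the function `x ↦ (n x + step n (n x)) / (n + 1)` is the lift of a diffeomorphism
of the circle, which maps the interval `[0, 1/n]` to `[0, 2/(n+1)]` and the interval
`[k/n, (k+1)/n]` affinely to `[(k+1)/(n+1), (k+2)/(n+1)]` for `0 < k < n`. -/
theorem exists_insertion (n : ℕ) :
    ∃ F : DiffLift, 2 ≤ n → ∀ x, F x = (n * x + step n (n * x)) / (n + 1) := by
  by_cases hn : 2 ≤ n
  · refine ⟨expLift n [0], fun _ x => ?_⟩
    rw [expLift_apply hn]
    simp [expand]
  · exact ⟨1, fun h => absurd h hn⟩

/-- the insertion diffeomorphism `x ↦ (n x + step n (n x)) / (n + 1)` of the circle -/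
def ins (n : ℕ) : CircleDiff := toCircle (exists_insertion n).choose

/-! ### The cells and their facet gluings -/

/-- The gluing table: `outer j` is a list of pairs (positive cell, negative cell) which are glued
along the facet omitting the colour `j`, when this colour sits in the first or last slot. -/
def outer : ℕ → List (ℕ × ℕ)
  | 0 => [(5123, 5234), (6134, 5124), (5341, 6143), (5231, 5342), (5243, 5132), (5134, 6235),
      (6253, 5241), (5142, 6314), (6325, 5143), (6341, 5412), (5413, 6352), (6413, 5314),
      (5421, 6431), (5312, 5423), (5324, 5213), (5214, 6523), (6532, 5431), (5432, 5321)]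
  | 1 => [(7126, 7123), (7132, 6235), (7135, 7134), (7143, 7145), (6341, 7153), (7154, 7156),
      (7165, 7162), (7213, 7216), (6134, 7231), (7236, 7235), (7245, 7246), (7253, 7254),
      (7261, 6352), (7264, 7263), (6253, 7312), (7314, 7315), (7321, 6143), (7325, 7326),
      (7346, 7341), (7351, 7352), (7362, 7364), (7415, 7413), (7426, 7425), (7431, 7436),
      (7452, 6523), (7456, 7451), (6413, 7462), (7463, 7465), (7513, 6314), (7516, 7514),
      (7524, 7523), (7532, 7531), (6532, 7542), (7541, 7546), (7564, 7561), (7612, 7615),
      (6325, 7621), (7623, 7624), (7634, 7632), (7642, 6431), (7645, 7643), (7651, 7654)]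
  | 2 => [(7456, 7123), (7346, 7235), (7236, 7561), (7126, 7451), (7452, 7341), (7564, 7231),
      (7132, 7465), (7245, 7134), (7135, 7246), (7351, 7462), (7463, 7352), (7253, 7364),
      (7143, 7254), (7612, 7145), (7362, 7615), (7516, 7263), (7264, 7153), (7154, 7621),
      (7623, 7156), (7513, 7624), (7261, 7514), (7415, 7162), (7165, 7632), (7634, 7523),
      (7524, 7413), (7314, 7425), (7426, 7315), (7642, 7531), (7532, 7643), (7645, 7312),
      (7213, 7546), (7325, 7436), (7651, 7326), (7541, 7216), (7431, 7542), (7321, 7654)]
  | 4 => [(5123, 5124), (5134, 5132), (5142, 5143), (5214, 5213), (5231, 5234), (5243, 5241),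
      (5312, 5314), (5324, 5321), (5341, 5342), (5413, 5412), (5421, 5423), (5432, 5431)]
  | _ => []

/-- the positive cells -/
def posCells : List ℕ := (outer 0 ++ outer 2).map Prod.fst

/-- the negative cells -/
def negCells : List ℕ := (outer 0 ++ outer 2).map Prod.snd

/-- the codes of the 108 cells -/
def cellCodes : List ℕ := posCells ++ negCells

/-- number of intervals at the bottom slot of a cell -/
def bot (c : ℕ) : ℕ := c / 1000

/-- the slot in which the colour `j` sits in the cell `c` -/
def slot (j c : ℕ) : ℕ := (j + 10 - bot c) % 5

/-- lookup in the gluing table -/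
def lookupCode (l : List (ℕ × ℕ)) (c : ℕ) : ℕ :=
  match l.find? (fun p => p.1 == c || p.2 == c) with
  | some p => if p.1 = c then p.2 else p.1
  | none => c

/-- The cell glued to the cell `c` along its facet omitting the colour `j`. In the slots
`1, 2, 3` two consecutive doublings are exchanged, in the slots `0, 4` the table is used. -/
def partnerCode (j c : ℕ) : ℕ :=
  match slot j c with
  | 1 => 1000 * bot c + 100 * ((bot c - c / 100 % 10) % bot c) +
      10 * ((c / 10 % 10 + bot c - c / 100 % 10) % bot c) +
      (c % 10 + bot c - c / 100 % 10) % bot c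
  | 2 => 1000 * bot c + 100 * (c / 10 % 10) + 10 * (c / 100 % 10) + c % 10
  | 3 => 1000 * bot c + 100 * (c / 100 % 10) + 10 * (c % 10) + c / 10 % 10
  | _ => lookupCode (outer j) c

/-- number of intervals at the bottom of the facet of `c` omitting the colour `j` -/
def frame (j c : ℕ) : ℕ := if slot j c = 0 then bot c + 1 else bot c

/-- a reference mark used for comparing the two frames of a facet -/
def refMark (j c : ℕ) : ℕ :=
  match slot j c with
  | 0 => c / 100 % 10 + 1
  | 1 => c / 10 % 10
  | _ => 0

/-- a cell: one of the 108 codes -/
abbrev Cell : Type := {c : ℕ // c ∈ cellCodes}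

theorem partner_mem (j : Fin 5) (c : Cell) : partnerCode j c.1 ∈ cellCodes := by
  have h : ((List.range 5).all fun j => cellCodes.all fun c =>
    decide (partnerCode j c ∈ cellCodes)) = true := by decide +kernel
  exact of_decide_eq_true (List.all_eq_true.1 (List.all_eq_true.1 h j (List.mem_range.2 j.2)) c.1 c.2)

/-- the cell glued to `c` along the facet omitting the colour `j` -/
def Cell.partner (j : Fin 5) (c : Cell) : Cell := ⟨partnerCode j c.1, partner_mem j c⟩

/-- change of frame for the facet of `c` omitting `j` -/
def frameChange (j c : ℕ) : CircleDiff := if slot j c = 0 then ins (bot c) else 1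

/-- the label of the gluing of the cell `c` along its facet omitting `j` -/
def twist (j c : ℕ) : CircleDiff :=
  (frameChange j c)⁻¹ *
    rot (((refMark j c : ℝ) - (refMark j (partnerCode j c) : ℝ)) / (frame j c : ℝ)) *
    frameChange j (partnerCode j c)

/-- the gluing of the translates of the cells along the facets omitting `j` -/
def facetMap (j : Fin 5) (x : Cell × CircleDiff) : Cell × CircleDiff :=
  (x.1.partner j, x.2 * twist j x.1.1)

/-! ### States and mutations -/

/-- self-maps of the set of all translates of the cells -/
abbrev Ext : Type := Cell × CircleDiff → Cell × CircleDiff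

/-- A state: a cell, a gluing map for every proper nonempty set of colours, and four parities. -/
abbrev State : Type := Cell × (Fct → Ext) × (Fin 4 → Bool)

/-- The mutation of a state in direction `ω`: the cell is replaced by its image under the gluing
map `Λ ω`, the gluing maps `Λ γ`, `γ ⊂ ω`, are conjugated by `Λ ω`, and the parity number `|ω|`
is changed. -/
def mutate (ω : Fct) (u : State) : State :=
  ((u.2.1 ω (u.1, 1)).1,
   fun γ => if γ.1 ⊂ ω.1 then u.2.1 ω ∘ u.2.1 γ ∘ u.2.1 ω else u.2.1 γ,
   fun j => if (j : ℕ) + 1 = ω.1.card then !u.2.2 j else u.2.2 j)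

/-- The label in `Diff^∞_+(S¹)` of the mutation of `u` in direction `ω`. -/
def label (ω : Fct) (u : State) : CircleDiff := (u.2.1 ω (u.1, 1)).2

theorem compl_nonempty (ω : Fct) : (ω.1ᶜ).Nonempty := by
  rw [Finset.nonempty_iff_ne_empty]
  intro h
  exact ω.2.2 (Finset.compl_eq_empty_iff _ |>.1 h)

/-- The initial state: the cell `5123`; the gluing map of `ω` is the facet gluing for the
smallest colour not in `ω`. -/
def startState : State :=
  (⟨5123, by decide +kernel⟩, fun ω => facetMap ((ω.1ᶜ).min' (compl_nonempty ω)),
    fun _ => false)

/-- The set of states which can be reached from the initial state by mutations. -/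
def Reach : Type :=
  {u : State // Relation.ReflTransGen (fun u v => ∃ ω : Fct, v = mutate ω u) startState u}

/-- mutation on reachable states -/
def Reach.mutate (ω : Fct) (u : Reach) : Reach :=
  ⟨FlatCircle.mutate ω u.1, u.2.tail ⟨ω, rfl⟩⟩

/-- label of a mutation of a reachable state -/
def Reach.label (ω : Fct) (u : Reach) : CircleDiff := FlatCircle.label ω u.1

/-- the initial state as a reachable state -/
def Reach.start : Reach := ⟨startState, Relation.ReflTransGen.refl⟩

/-! ### Gluing permutohedra -/

variable {U : Type*}

/-- The gluing relation: the point `p` of the copy `u` is identified with the point `p` of the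
copy `Φ ω u` when `p` lies on the facet `ω`. -/
def glueRel (Φ : Fct → U → U) (x y : Σ _ : U, Permuto) : Prop :=
  y.2 = x.2 ∧ ∃ ω : Fct, ell ω.1 x.2 = 0 ∧ y.1 = Φ ω x.1

/-- The space obtained from the copies `{u} × Permuto`, `u ∈ U`, by gluing. -/
def Glued (Φ : Fct → U → U) : Type _ := Quot (glueRel Φ)

instance (Φ : Fct → U → U) : TopologicalSpace (Glued Φ) :=
  inferInstanceAs (TopologicalSpace (Quot (glueRel Φ)))

/-- the point `p` of the copy `u` -/
def Glued.mk (Φ : Fct → U → U) (u : U) (p : Permuto) : Glued Φ := Quot.mk _ ⟨u, p⟩

theorem Glued.sound {Φ : Fct → U → U} {ω : Fct} {p : Permuto} (h : ell ω.1 p = 0) (u : U) :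
    Glued.mk Φ (Φ ω u) p = Glued.mk Φ u p :=
  (Quot.sound (show glueRel Φ ⟨u, p⟩ ⟨Φ ω u, p⟩ from ⟨rfl, ω, h, rfl⟩)).symm

theorem Glued.isQuotientMap (Φ : Fct → U → U) :
    IsQuotientMap (fun x : Σ _ : U, Permuto => Glued.mk Φ x.1 x.2) := isQuotientMap_quot_mk

theorem Glued.continuous_mk (Φ : Fct → U → U) (u : U) : Continuous (Glued.mk Φ u) :=
  (Glued.isQuotientMap Φ).continuous.comp continuous_sigmaMk

/-- The closed four-manifold. -/
abbrev M4 : Type := Glued Reach.mutate

/-! ### Walks -/

/-- the centre of the permutohedron -/
def centre : Permuto :=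
  ⟨fun _ => 2, by simp; norm_num, fun ω => by
    simp only [ell, Finset.sum_const, nsmul_eq_mul]
    have : ω.card ≤ 5 := by simpa using Finset.card_le_univ ω
    have h5 : (ω.card : ℝ) ≤ 5 := by exact_mod_cast this
    have h0 : (0:ℝ) ≤ ω.card := by positivity
    nlinarith⟩

theorem facetCentre_mem (ω : Fct) : facetCentre ω ∈ Permuto := facetCentre_mem_permuto ω

/-- the centre of the facet `ω` as a point of the permutohedron -/
def facetCentrePt (ω : Fct) : Permuto := ⟨facetCentre ω, facetCentre_mem ω⟩

/-- the straight path between two points of the permutohedron -/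
def permPath (p q : Permuto) : Path p q where
  toFun t := ⟨AffineMap.lineMap (p : Fin 5 → ℝ) (q : Fin 5 → ℝ) (t : ℝ),
    convex_permuto.lineMap_mem p.2 q.2 t.2⟩
  continuous_toFun := by
    refine Continuous.subtype_mk ?_ _
    exact AffineMap.lineMap_continuous.comp continuous_subtype_val
  source' := by apply Subtype.ext; simp
  target' := by apply Subtype.ext; simp

/-- the straight path between two points of a copy of the permutohedron -/
def cellPath (Φ : Fct → U → U) (u : U) (p q : Permuto) : Path (Glued.mk Φ u p) (Glued.mk Φ u q) :=
  (permPath p q).map (Glued.continuous_mk Φ u)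

/-- The path from the centre of the copy `u` through the centre of the facet `ω` to the centre of
the copy `Φ ω u`. -/
def stepPath (Φ : Fct → U → U) (ω : Fct) (u : U) :
    Path (Glued.mk Φ u centre) (Glued.mk Φ (Φ ω u) centre) :=
  (cellPath Φ u centre (facetCentrePt ω)).trans
    ((cellPath Φ (Φ ω u) (facetCentrePt ω) centre).cast
      (Glued.sound (ell_facetCentre_self ω) u).symm rfl)

/-- the last copy of the walk which starts in the copy `u` and crosses the facets `ws` -/
def walkEnd (Φ : Fct → U → U) : List Fct → U → U
  | [], u => u
  | ω :: ws, u => walkEnd Φ ws (Φ ω u)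

/-- the path through the centres which starts in the copy `u` and crosses the facets `ws` -/
def walkPath (Φ : Fct → U → U) : (ws : List Fct) → (u : U) →
    Path (Glued.mk Φ u centre) (Glued.mk Φ (walkEnd Φ ws u) centre)
  | [], u => Path.refl _
  | ω :: ws, u => (stepPath Φ ω u).trans (walkPath Φ ws (Φ ω u))

/-- the product of the labels along a walk -/
def walkLabel {G : Type*} [Group G] (Φ : Fct → U → U) (θ : Fct → U → G) : List Fct → U → G
  | [], _ => 1
  | ω :: ws, u => θ ω u * walkLabel Φ θ ws (Φ ω u)

/-- the class of a closed walk in the fundamental group -/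
def walkClass (Φ : Fct → U → U) (ws : List Fct) (u : U) (h : walkEnd Φ ws u = u) :
    FundamentalGroup (Glued Φ) (Glued.mk Φ u centre) :=
  FundamentalGroup.fromPath (Path.Homotopic.Quotient.mk
    ((walkPath Φ ws u).cast rfl (congrArg (fun v => Glued.mk Φ v centre) h.symm)))

end FlatCircle
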