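import Pool.Agent.Helper70.Flat.Diff2
import Pool.Agent.Helper70.Flat.Example

/-!
The 108 cells and their facet pairings.

A cell is coded by a four digit number `N a b c`: it stands for the chain of subdivisions of the
circle which starts with `N` equal intervals and in which one then doubles, one after the other,
the intervals `0, a, b, c` (elements of `ℤ/N`).  The five stages of this process are numbered by
the slots `0,…,4`; slot `k` has `N + k` intervals and colour `N + k mod 5`.
-/

noncomputable section

namespace FlatCircle

/-- sign of a cell -/
def sgnCode (c : ℕ) : ℤ := if c ∈ posCells then 1 else -1

/-- the intervals of `ℤ / bot c` which are doubled, in their order -/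
def marks (c : ℕ) : List ℕ := [0, c / 100 % 10, c / 10 % 10, c % 10]

/-- the intervals doubled between the bottom of the facet omitting `j` and the vertex of
colour `q` -/
def frameMarks (j q c : ℕ) : List ℕ :=
  if slot j c = 0 then (((marks c).take (slot q c)).drop 1).map (· + 1)
  else (marks c).take (slot q c)

/-- combinatorial checks for the facet of colour `j` of the cell `c` -/
def checkFacet (j c : ℕ) : Bool :=
  decide (partnerCode j c ∈ cellCodes) && decide (partnerCode j (partnerCode j c) = c) &&
  decide (sgnCode (partnerCode j c) = - sgnCode c) &&
  decide (frame j c = frame j (partnerCode j c)) &&
  decide (refMark j c ≤ frame j c) &&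
  (List.range 5).all fun q => decide (q = j) ||
    (decide (bot c + slot q c = bot (partnerCode j c) + slot q (partnerCode j c)) &&
     List.isPerm (frameMarks j q (partnerCode j c))
       ((frameMarks j q c).map fun a =>
          (a + (refMark j (partnerCode j c) + frame j c - refMark j c)) % frame j c))

/-- combinatorial checks for a cell -/
def checkCell (c : ℕ) : Bool :=
  decide (5 ≤ bot c) && decide (bot c ≤ 7) && (marks c).all (fun a => decide (a < bot c)) &&
  ((marks c).drop 1).all (fun a => decide (0 < a)) && decide (marks c).Nodup &&
  (List.range 5).all fun j => checkFacet j c

theorem checkCells : (cellCodes.all fun c => checkCell c) = true := by decide +kernel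

theorem cellCodes_nodup : cellCodes.Nodup := by decide +kernel

end FlatCircle
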