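import Pool.Agent.Helper70.Flat.Avg

/-!
Numerical evaluation of the averaged orientation cocycle on the 108 cells.
-/

open Set Topology

noncomputable section

namespace FlatCircle

/-- Positions, in units of `1/(2N)`, of the points of the vertex obtained from `N` intervals by
doubling the intervals in `S`. -/
def posList (N : ℕ) (S : List ℕ) : List ℕ :=
  (List.range (2 * N)).filter fun x => x % 2 == 0 || S.elem (x / 2)

/-- number of the point at a position -/
def posRank (S : List ℕ) (x : ℕ) : ℕ := x / 2 + S.countP (fun s => decide (s < x / 2)) + x % 2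

theorem expand_pos {N : ℕ} (hN : 2 ≤ N) {S : List ℕ} (hS : ∀ s ∈ S, s < N) (hnd : S.Nodup)
    {x : ℕ} (hx : x ∈ posList N S) : expand N S ((x : ℝ) / 2) = posRank S x := by
  unfold posList at hx
  rw [List.mem_filter, List.mem_range] at hx
  obtain ⟨hx1, hx2⟩ := hx
  rcases Nat.mod_two_eq_zero_or_one x with h | h
  · obtain ⟨m, rfl⟩ : ∃ m, x = 2 * m := ⟨x / 2, by omega⟩
    have e1 : ((2 * m : ℕ) : ℝ) / 2 = m := by push_cast; ring
    have e2 : 2 * m / 2 = m := by omega
    rw [e1, expand_nat hN (by omega) S hS]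
    unfold posRank
    rw [e2, h]
    push_cast
    simp
  · obtain ⟨m, rfl⟩ : ∃ m, x = 2 * m + 1 := ⟨x / 2, by omega⟩
    have e1 : ((2 * m + 1 : ℕ) : ℝ) / 2 = m + 1 / 2 := by push_cast; ring
    have e2 : (2 * m + 1) / 2 = m := by omega
    have hm : m ∈ S := by
      simp only [Bool.or_eq_true, beq_iff_eq, List.elem_eq_mem, decide_eq_true_eq] at hx2
      rcases hx2 with h' | h'
      · omega
      · rwa [e2] at h'
    rw [e1, expand_half hN (by omega) S hS, List.count_eq_one_of_mem hnd hm]
    unfold posRank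
    rw [e2, h]
    push_cast
    ring

theorem finset_sum_range (f : ℕ → ℝ) (n : ℕ) :
    ∑ i ∈ Finset.range n, f i = ((List.range n).map f).sum := by
  induction n with
  | zero => simp
  | succ n ih => rw [Finset.sum_range_succ, ih, List.range_succ]; simp

theorem list_sum_div (l : List ℕ) (f : ℕ → ℝ) (r : ℝ) :
    (l.map f).sum / r = (l.map fun x => f x / r).sum := by
  induction l with
  | nil => simp
  | cons a l ih => simp only [List.map_cons, List.sum_cons, add_div, ih]

theorem list_sum_cast (l : List ℕ) (f : ℕ → ℤ) :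
    (((l.map f).sum : ℤ) : ℝ) = (l.map fun x => (f x : ℝ)).sum := by
  induction l with
  | nil => simp
  | cons a l ih => simp only [List.map_cons, List.sum_cons, Int.cast_add, ih]

/-- average over the points of a vertex in terms of positions -/
theorem avL_pos {N : ℕ} (hN : 2 ≤ N) {S : List ℕ} (hS : ∀ s ∈ S, s < N) (hnd : S.Nodup)
    (hr : (posList N S).map (posRank S) = List.range (N + S.length)) (F : ℝ → ℝ) :
    avL (N + S.length) (expLift N S)⁻¹ F =
      ((posList N S).map fun x : ℕ => F ((x : ℝ) / (2 * N))).sum / ((N + S.length : ℕ) : ℝ) := by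
  unfold avL
  congr 1
  have h1 : ∑ i ∈ Finset.range (N + S.length),
      F ((expLift N S)⁻¹ ((i : ℝ) / ((N + S.length : ℕ) : ℝ))) =
      ((List.range (N + S.length)).map fun i : ℕ =>
        F ((expLift N S)⁻¹ ((i : ℝ) / ((N + S.length : ℕ) : ℝ)))).sum := finset_sum_range _ _
  rw [h1, ← hr, List.map_map]
  congr 1
  apply List.map_congr_left
  intro x hx
  simp only [Function.comp_apply]
  congr 1
  have hN0 : (0:ℝ) < N := by positivity
  have h2 : expLift N S ((x : ℝ) / (2 * N)) = (posRank S x : ℝ) / ((N + S.length : ℕ) : ℝ) := by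
    rw [expLift_apply hN]
    have : (N : ℝ) * ((x : ℝ) / (2 * N)) = (x : ℝ) / 2 := by field_simp
    rw [this, expand_pos hN hS hnd hx]
    push_cast; rfl
  rw [← h2, dl_inv_apply_self]

theorem hh_small {N x y : ℕ} (hx : x < 2 * N) (hy : y < 2 * N) :
    hh ((y : ℝ) / (2 * N) - (x : ℝ) / (2 * N)) = ((Int.sign ((y : ℤ) - x) : ℤ) : ℝ) / 2 := by
  have hN0 : (0:ℝ) < 2 * N := by
    have : 0 < 2 * N := by omega
    exact_mod_cast this
  have hx' : (x : ℝ) < 2 * N := by exact_mod_cast hx
  have hy' : (y : ℝ) < 2 * N := by exact_mod_cast hy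
  have hx0 : (0:ℝ) ≤ x := by positivity
  have hy0 : (0:ℝ) ≤ y := by positivity
  rw [← sub_div]
  unfold hh
  rcases lt_trichotomy x y with h | h | h
  · have h' : (x : ℝ) < y := by exact_mod_cast h
    have e1 : ⌊((y : ℝ) - x) / (2 * N)⌋ = 0 := by
      rw [Int.floor_eq_iff]
      constructor
      · push_cast; apply div_nonneg <;> linarith
      · push_cast; rw [zero_add, div_lt_one hN0]; linarith
    have e2 : ⌈((y : ℝ) - x) / (2 * N)⌉ = 1 := by
      rw [Int.ceil_eq_iff]
      constructor
      · push_cast; rw [sub_self]; apply div_pos <;> linarith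
      · push_cast; rw [div_le_one hN0]; linarith
    rw [e1, e2, Int.sign_eq_one_of_pos (by omega)]
    push_cast; ring
  · subst h
    simp
  · have h' : (y : ℝ) < x := by exact_mod_cast h
    have e1 : ⌊((y : ℝ) - x) / (2 * N)⌋ = -1 := by
      rw [Int.floor_eq_iff]
      constructor
      · push_cast; rw [le_div_iff₀ hN0]; linarith
      · push_cast; rw [neg_add_cancel]; apply div_neg_of_neg_of_pos <;> linarith
    have e2 : ⌈((y : ℝ) - x) / (2 * N)⌉ = 0 := by
      rw [Int.ceil_eq_iff]
      constructor
      · push_cast; rw [zero_sub, lt_div_iff₀ hN0]; linarith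
      · push_cast; apply div_nonpos_of_nonpos_of_nonneg <;> linarith
    rw [e1, e2, Int.sign_eq_neg_one_of_neg (by omega)]
    push_cast; ring

/-- linking sum of two lists of positions -/
def linkSum (A B : List ℕ) : ℤ := (A.map fun x : ℕ => (B.map fun y : ℕ => Int.sign ((y : ℤ) - x)).sum).sum

theorem posList_lt {N : ℕ} {S : List ℕ} {x : ℕ} (hx : x ∈ posList N S) : x < 2 * N := by
  unfold posList at hx
  rw [List.mem_filter, List.mem_range] at hx
  exact hx.1

theorem avL_hh {N : ℕ} (hN : 2 ≤ N) {S T : List ℕ} (hS : ∀ s ∈ S, s < N) (hSn : S.Nodup)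
    (hSr : (posList N S).map (posRank S) = List.range (N + S.length))
    (hT : ∀ s ∈ T, s < N) (hTn : T.Nodup)
    (hTr : (posList N T).map (posRank T) = List.range (N + T.length)) :
    (avL (N + S.length) (expLift N S)⁻¹ fun a =>
      avL (N + T.length) (expLift N T)⁻¹ fun b => hh (b - a)) =
      (linkSum (posList N S) (posList N T) : ℝ) / 2 / ((N + S.length : ℕ) : ℝ) /
        ((N + T.length : ℕ) : ℝ) := by
  rw [avL_pos hN hS hSn hSr]
  have h1 : ∀ x ∈ posList N S, (avL (N + T.length) (expLift N T)⁻¹ fun b =>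
      hh (b - (x : ℝ) / (2 * N))) =
      (((posList N T).map fun y : ℕ => Int.sign ((y : ℤ) - x)).sum : ℤ) / 2 /
        ((N + T.length : ℕ) : ℝ) := by
    intro x hx
    rw [avL_pos hN hT hTn hTr]
    congr 1
    rw [list_sum_cast, list_sum_div]
    congr 1
    apply List.map_congr_left
    intro y hy
    exact hh_small (posList_lt hx) (posList_lt hy)
  rw [List.map_congr_left h1]
  unfold linkSum
  rw [list_sum_cast, list_sum_div, list_sum_div, list_sum_div, list_sum_div]
  congr 1
  apply List.map_congr_left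
  intro x hx
  ring

end FlatCircle
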