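import Pool.Agent.Helper70.Flat.Manifold

/-!
The regular covering of a glued space defined by labels in a group.
-/

open Set Topology

noncomputable section

namespace FlatCircle

variable {U G : Type*} [Group G]

/-- The involutions on `U × G` defined by involutions on `U` and labels in `G`. -/
def coverΦ (Φ : Fct → U → U) (θ : Fct → U → G) (ω : Fct) (x : U × G) : U × G :=
  (Φ ω x.1, x.2 * θ ω x.1)

/-- The covering space: copies `{(u, g)} × Permuto` of the permutohedron; when one crosses the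
facet `ω` of the copy `(u, g)` one gets to the copy `(Φ ω u, g * θ ω u)`. -/
abbrev Cover (Φ : Fct → U → U) (θ : Fct → U → G) : Type _ := Glued (coverΦ Φ θ)

/-- the projection of the covering -/
def coverProj (Φ : Fct → U → U) (θ : Fct → U → G) : Cover Φ θ → Glued Φ :=
  Quot.map (fun x => ⟨x.1.1, x.2⟩) (by
    rintro ⟨⟨u, g⟩, p⟩ ⟨⟨v, h⟩, q⟩ ⟨h1, ω, h2, h3⟩
    exact ⟨h1, ω, h2, congrArg Prod.fst h3⟩)

/-- the action of `G` on the covering space -/
instance (Φ : Fct → U → U) (θ : Fct → U → G) : MulAction G (Cover Φ θ) where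
  smul h := Quot.map (fun x => ⟨(x.1.1, h * x.1.2), x.2⟩) (by
    rintro ⟨⟨u, g⟩, p⟩ ⟨⟨v, k⟩, q⟩ ⟨h1, ω, h2, h3⟩
    refine ⟨h1, ω, h2, ?_⟩
    simp only [coverΦ, Prod.mk.injEq] at h3 ⊢
    exact ⟨h3.1, by rw [h3.2, mul_assoc]⟩)
  one_smul := by
    refine Quot.ind ?_
    rintro ⟨⟨u, g⟩, p⟩
    exact congrArg (Quot.mk _) (by simp)
  mul_smul := by
    intro h k
    refine Quot.ind ?_
    rintro ⟨⟨u, g⟩, p⟩
    exact congrArg (Quot.mk _) (by simp [mul_assoc])

@[simp] theorem coverProj_mk (Φ : Fct → U → U) (θ : Fct → U → G) (u : U) (g : G) (p : Permuto) :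
    coverProj Φ θ (Glued.mk _ (u, g) p) = Glued.mk Φ u p := rfl

@[simp] theorem smul_mk (Φ : Fct → U → U) (θ : Fct → U → G) (h : G) (u : U) (g : G)
    (p : Permuto) : h • (Glued.mk (coverΦ Φ θ) (u, g) p : Cover Φ θ) = Glued.mk _ (u, h * g) p :=
  rfl

/-- gluing data with labels -/
structure LabelData (U G : Type*) [Group G] extends GlueData U where
  θ : Fct → U → G
  θ_mul : ∀ ω u, θ ω u * θ ω (Φ ω u) = 1
  θ_comm : ∀ γ ω u, γ.1 ⊂ ω.1 → θ ω u * θ γ (Φ ω u) = θ γ u * θ ω (Φ γ u)

namespace LabelData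

variable (D : LabelData U G)

/-- the gluing data of the covering space -/
def total : GlueData (U × G) where
  Φ := coverΦ D.Φ D.θ
  t := fun x => D.t x.1
  invol := by
    rintro ω ⟨u, g⟩
    simp only [coverΦ, Prod.mk.injEq]
    exact ⟨D.invol _ _, by rw [mul_assoc, D.θ_mul, mul_one]⟩
  comm := by
    rintro γ ω ⟨u, g⟩ h
    simp only [coverΦ, Prod.mk.injEq]
    exact ⟨D.comm _ _ _ h, by rw [mul_assoc, mul_assoc, D.θ_comm _ _ _ h]⟩
  t_Φ := by
    rintro ω ⟨u, g⟩ j
    exact D.t_Φ _ _ _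

theorem total_Φ : D.total.Φ = coverΦ D.Φ D.θ := rfl

theorem total_apb (b : Bool) (ω : Fct) (u : U) (h g : G) :
    apb b (D.total.Φ ω) (u, h * g) =
      ((apb b (D.total.Φ ω) (u, g)).1, h * (apb b (D.total.Φ ω) (u, g)).2) := by
  cases b
  · rfl
  · simp [apb, total_Φ, coverΦ, mul_assoc]

theorem total_act (π : Equiv.Perm (Fin 5)) (b : Fin 4 → Bool) (u : U) (h g : G) :
    D.total.act π b (u, h * g) =
      ((D.total.act π b (u, g)).1, h * (D.total.act π b (u, g)).2) := by
  unfold GlueData.act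
  rw [total_apb]
  rw [total_apb]
  rw [total_apb]
  rw [total_apb]

theorem total_apb_fst (b : Bool) (ω : Fct) (x : U × G) :
    (apb b (D.total.Φ ω) x).1 = apb b (D.Φ ω) x.1 := by
  cases b <;> rfl

theorem total_act_fst (π : Equiv.Perm (Fin 5)) (b : Fin 4 → Bool) (x : U × G) :
    (D.total.act π b x).1 = D.act π b x.1 := by
  unfold GlueData.act
  rw [total_apb_fst, total_apb_fst, total_apb_fst, total_apb_fst]

theorem continuous_smul (h : G) : Continuous fun x : Cover D.Φ D.θ => h • x := by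
  rw [(Glued.isQuotientMap (coverΦ D.Φ D.θ)).continuous_iff]
  refine continuous_sigma fun x => ?_
  exact Glued.continuous_mk (coverΦ D.Φ D.θ) (x.1, h * x.2)

theorem continuous_proj : Continuous (coverProj D.Φ D.θ) := by
  rw [(Glued.isQuotientMap (coverΦ D.Φ D.θ)).continuous_iff]
  refine continuous_sigma fun x => ?_
  exact Glued.continuous_mk D.Φ x.1

theorem isQuotientMap_proj : IsQuotientMap (coverProj D.Φ D.θ) := by
  rw [isQuotientMap_iff]
  refine ⟨.of_isOpen_preimage_iff_isOpen fun s => ⟨fun hs => ?_,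
    fun hs => hs.preimage D.continuous_proj⟩, ?_⟩
  · rw [← (Glued.isQuotientMap D.Φ).isOpen_preimage, isOpen_sigma_iff]
    intro u
    exact hs.preimage (Glued.continuous_mk (coverΦ D.Φ D.θ) (u, 1))
  · exact Glued.ind fun u p => ⟨Glued.mk _ (u, 1) p, rfl⟩

theorem proj_eq_iff {x y : Cover D.Φ D.θ} :
    coverProj D.Φ D.θ x = coverProj D.Φ D.θ y ↔ x ∈ MulAction.orbit G y := by
  constructor
  · revert y
    revert x
    refine @(Glued.ind fun a p => @(Glued.ind fun b q h => ?_))
    obtain ⟨u, g⟩ := a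
    obtain ⟨v, k⟩ := b
    rw [coverProj_mk, coverProj_mk] at h
    have hpq : p = q := congrArg Glued.pt h
    subst hpq
    set π := Tuple.sort (p : Fin 5 → ℝ) with hπ
    have hp : p ∈ star π := mem_star_sort p
    have h1 : Glued.mk D.Φ v p ∈ D.chartSource π u := by rw [← h]; exact D.mk_mem_self hp
    have h2 : D.act π (D.par u v) v = u := (D.mk_mem_chartSource.1 h1).2
    have h3 : ∀ j, D.par u v j = true → ell (flag π j).1 p = 0 := by
      intro j hj
      have e1 := D.coord_mk (π := π) (u₀ := u) (u := u) hp j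
      have e2 := D.coord_mk (π := π) (u₀ := u) (u := v) hp j
      rw [h, e2, hj] at e1
      have e3 : D.par u u j = false := by simp [GlueData.par]
      rw [e3] at e1
      simp only [GlueData.sg, if_true, Bool.false_eq_true, if_false] at e1
      have e4 : √(ell (flag π j).1 p) = 0 := by linarith
      exact (Real.sqrt_eq_zero (p.2.2 _)).1 e4
    have h4 : Glued.mk D.total.Φ (D.total.act π (D.par u v) (v, k)) p =
        Glued.mk D.total.Φ (v, k) p := D.total.mk_act π _ _ _ h3
    have h5 : D.total.act π (D.par u v) (v, k) =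
        (u, (D.total.act π (D.par u v) (v, k)).2) := by
      refine Prod.ext ?_ rfl
      rw [total_act_fst]
      exact h2
    rw [h5] at h4
    refine ⟨g * (D.total.act π (D.par u v) (v, k)).2⁻¹, ?_⟩
    change (g * (D.total.act π (D.par u v) (v, k)).2⁻¹) • (Glued.mk (coverΦ D.Φ D.θ) (v, k) p :
      Cover D.Φ D.θ) = _
    have h6 : (Glued.mk (coverΦ D.Φ D.θ) (v, k) p : Cover D.Φ D.θ) =
      Glued.mk (coverΦ D.Φ D.θ) (u, (D.total.act π (D.par u v) (v, k)).2) p := h4.symm
    rw [h6, smul_mk]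
    congr 2
    group
  · rintro ⟨h, rfl⟩
    revert y
    refine @(Glued.ind fun b q => ?_)
    rfl

/-- The projection is a regular covering with group `G`. -/
theorem isQuotientCoveringMap : IsQuotientCoveringMap (coverProj D.Φ D.θ) G where
  toIsQuotientMap := D.isQuotientMap_proj
  continuous_const_smul := D.continuous_smul
  apply_eq_iff_mem_orbit := D.proj_eq_iff
  disjoint := by
    refine Glued.ind fun a p => ?_
    obtain ⟨u, g⟩ := a
    set π := Tuple.sort (p : Fin 5 → ℝ) with hπ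
    have hp : p ∈ star π := mem_star_sort p
    refine ⟨D.total.chartSource π (u, g),
      (D.total.isOpen_chartSource π (u, g)).mem_nhds (D.total.mk_mem_self hp), ?_⟩
    rintro h ⟨y, ⟨x, hx1, rfl⟩, hy⟩
    revert hx1 hy
    refine Glued.ind (Φ := coverΦ D.Φ D.θ) (P := fun x => x ∈ D.total.chartSource π (u, g) →
      (h • (x : Cover D.Φ D.θ)) ∈ D.total.chartSource π (u, g) → h = 1) ?_ x
    rintro ⟨v, k⟩ q hx1 hy
    have h1 := (D.total.mk_mem_chartSource.1 hx1).2
    have h2 := (D.total.mk_mem_chartSource.1 hy).2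
    simp only at h1 h2
    have h3 : D.total.par (u, g) (v, h * k) = D.total.par (u, g) (v, k) := rfl
    rw [h3, total_act, h1] at h2
    simpa using h2

end LabelData

end FlatCircle
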