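import Pool.Agent.Helper70.Flat.Basic

/-!
The group of `C^∞` orientation preserving diffeomorphisms of the circle, as the group of lifts
modulo the translation by one, and the explicit insertion diffeomorphisms.
-/

open scoped ContDiff

noncomputable section

namespace FlatCircle

theorem dl_ext {f g : DiffLift} (h : ∀ x, f x = g x) : f = g :=
  Subtype.ext (Equiv.ext h)

@[simp] theorem dl_mul_apply (f g : DiffLift) (x : ℝ) : (f * g) x = f (g x) := rfl

@[simp] theorem dl_one_apply (x : ℝ) : (1 : DiffLift) x = x := rfl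

theorem dl_inv_apply_self (f : DiffLift) (x : ℝ) : f⁻¹ (f x) = x :=
  (f : Equiv.Perm ℝ).symm_apply_apply x

theorem dl_apply_inv_self (f : DiffLift) (x : ℝ) : f (f⁻¹ x) = x :=
  (f : Equiv.Perm ℝ).apply_symm_apply x

theorem dl_strictMono (f : DiffLift) : StrictMono f := f.2.2.2.1

theorem dl_add_one (f : DiffLift) (x : ℝ) : f (x + 1) = f x + 1 := f.2.2.2.2 x

@[simp] theorem transl_apply (a x : ℝ) : transl a x = x + a := rfl

theorem transl_add (a b : ℝ) : transl (a + b) = transl a * transl b :=
  dl_ext fun x => by simp; ring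

theorem transl_zero : transl 0 = 1 := dl_ext fun x => by simp

theorem transl_neg (a : ℝ) : transl (-a) = (transl a)⁻¹ := by
  rw [eq_inv_iff_mul_eq_one, ← transl_add, neg_add_cancel, transl_zero]

theorem transl_zpow (a : ℝ) (k : ℤ) : transl a ^ k = transl (k * a) := by
  induction k using Int.induction_on with
  | zero => simp [transl_zero]
  | succ n ih => rw [zpow_add_one, ih, ← transl_add]; congr 1; push_cast; ring
  | pred n ih =>
    rw [zpow_sub_one, ih, ← transl_neg, ← transl_add]; congr 1; push_cast; ring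

theorem dl_add_int (f : DiffLift) (x : ℝ) (k : ℤ) : f (x + k) = f x + k := by
  induction k using Int.induction_on with
  | zero => simp
  | succ n ih =>
    push_cast at ih ⊢
    rw [← add_assoc, dl_add_one, ih, add_assoc]
  | pred n ih =>
    push_cast at ih ⊢
    have h := dl_add_one f (x + (-(n:ℝ) - 1))
    have h2 : x + (-(n:ℝ) - 1) + 1 = x + -(n:ℝ) := by ring
    rw [h2, ih] at h
    linarith

theorem transl_int_comm (k : ℤ) (f : DiffLift) : transl k * f = f * transl k :=
  dl_ext fun x => by simp [dl_add_int f]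

theorem mem_intTransl {f : DiffLift} : f ∈ IntTransl ↔ ∃ k : ℤ, f = transl k := by
  rw [Subgroup.mem_zpowers_iff]
  simp only [transl_zpow, mul_one]
  exact ⟨fun ⟨k, h⟩ => ⟨k, h.symm⟩, fun ⟨k, h⟩ => ⟨k, h.symm⟩⟩

theorem toCircle_eq_iff {f g : DiffLift} :
    toCircle f = toCircle g ↔ ∃ k : ℤ, f = transl k * g := by
  simp only [toCircle, QuotientGroup.mk'_apply]
  rw [eq_comm, QuotientGroup.eq, mem_intTransl]
  constructor
  · rintro ⟨k, hk⟩
    refine ⟨k, ?_⟩
    rw [transl_int_comm, ← hk]; group
  · rintro ⟨k, hk⟩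
    refine ⟨k, ?_⟩
    rw [hk, transl_int_comm]; group

theorem toCircle_transl_int (k : ℤ) : toCircle (transl k) = 1 := by
  rw [← map_one toCircle, toCircle_eq_iff]; exact ⟨k, by simp⟩

/-- A convenient way to define lifts: the lift with the given underlying function. -/
def liftOf (f : ℝ → ℝ) : DiffLift :=
  open Classical in if h : ∃ F : DiffLift, ∀ x, F x = f x then h.choose else 1

theorem liftOf_apply {f : ℝ → ℝ} (h : ∃ F : DiffLift, ∀ x, F x = f x) (x : ℝ) :
    liftOf f x = f x := by
  unfold liftOf
  rw [dif_pos h]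
  exact h.choose_spec x

theorem exists_lift {f : ℝ → ℝ} (hf : ContDiff ℝ ∞ f) (hd : ∀ x, 0 < deriv f x)
    (h1 : ∀ x, f (x + 1) = f x + 1) : ∃ F : DiffLift, ∀ x, F x = f x := by
  have hmono : StrictMono f := strictMono_of_deriv_pos hd
  let g : CircleDeg1Lift := ⟨⟨f, hmono.monotone⟩, h1⟩
  have hsurj : Function.Surjective f :=
    hf.continuous.surjective g.tendsto_atTop g.tendsto_atBot
  let e : ℝ ≃o ℝ := StrictMono.orderIsoOfSurjective f hmono hsurj
  have he : ∀ x, e x = f x := fun x => rfl
  let h : ℝ ≃ₜ ℝ := e.toHomeomorph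
  have hs : ContDiff ℝ ∞ (h.symm : ℝ → ℝ) :=
    h.contDiff_symm_deriv (f' := deriv f) (fun x => (hd x).ne')
      (fun x => (hf.differentiable (by simp) x).hasDerivAt) hf
  exact ⟨⟨e.toEquiv, hf, hs, hmono, h1⟩, fun x => rfl⟩

/-! ### The insertion maps -/

theorem step_eq {n : ℕ} (hn : 1 ≤ n) {x : ℝ} {m : ℤ} (h1 : (m : ℝ) * n ≤ x)
    (h2 : x ≤ (m + 1) * n) : step n x = m + Real.smoothTransition (x - m * n) := by
  have hn' : (0:ℝ) < n := by positivity
  have hn1 : (1:ℝ) ≤ n := by exact_mod_cast hn
  rcases h2.lt_or_eq with h | h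
  · have hfl : ⌊x / n⌋ = m := by
      rw [Int.floor_eq_iff]
      exact ⟨by rwa [le_div_iff₀ hn'], by rwa [div_lt_iff₀ hn']⟩
    simp only [step, hfl, mul_comm]
  · have hfl : ⌊x / n⌋ = m + 1 := by
      rw [h, mul_div_assoc, div_self hn'.ne', mul_one]
      exact_mod_cast Int.floor_intCast (m + 1)
    have hA : step n x = (m + 1 : ℝ) := by
      simp only [step, hfl]
      rw [Real.smoothTransition.zero_of_nonpos]
      · push_cast; ring
      · push_cast; rw [h]; linarith
    rw [hA, Real.smoothTransition.one_of_one_le]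
    rw [h]; linarith

theorem step_add_mul {n : ℕ} (hn : 1 ≤ n) (x : ℝ) (k : ℤ) : step n (x + k * n) = step n x + k := by
  have hn' : (n:ℝ) ≠ 0 := by positivity
  have : (x + k * n) / n = x / n + k := by field_simp
  simp only [step, this, Int.floor_add_intCast]
  push_cast
  have h2 : x + k * n - n * ((⌊x / n⌋ : ℝ) + k) = x - n * ⌊x / n⌋ := by ring
  rw [h2]; ring

theorem step_bounds {n : ℕ} (hn : 1 ≤ n) (x : ℝ) :
    (⌊x / n⌋ : ℝ) ≤ step n x ∧ step n x ≤ ⌊x / n⌋ + 1 :=
  ⟨by simp only [step]; linarith [Real.smoothTransition.nonneg (x - n * ⌊x / n⌋)],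
   by simp only [step]; linarith [Real.smoothTransition.le_one (x - n * ⌊x / n⌋)]⟩

theorem step_mono {n : ℕ} (hn : 1 ≤ n) : Monotone (step n) := by
  intro x y hxy
  have hn' : (0:ℝ) < n := by positivity
  have hf : ⌊x / n⌋ ≤ ⌊y / n⌋ := Int.floor_mono (by gcongr)
  rcases hf.lt_or_eq with h | h
  · have : (⌊x / n⌋ : ℝ) + 1 ≤ ⌊y / n⌋ := by exact_mod_cast h
    linarith [(step_bounds hn x).2, (step_bounds hn y).1]
  · simp only [step, ← h]
    have := Real.smoothTransition.monotone (a := x - n * ⌊x / n⌋) (b := y - n * ⌊x / n⌋)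
      (by linarith)
    linarith

theorem floor_bounds {n : ℕ} (hn : 1 ≤ n) (x : ℝ) :
    (⌊x / n⌋ : ℝ) * n ≤ x ∧ x < (⌊x / n⌋ + 1) * n := by
  have hn' : (0:ℝ) < n := by positivity
  exact ⟨by rw [← le_div_iff₀ hn']; exact Int.floor_le _,
    by rw [← div_lt_iff₀ hn']; exact Int.lt_floor_add_one _⟩

theorem step_contDiff {n : ℕ} (hn : 2 ≤ n) : ContDiff ℝ ∞ (step n) := by
  rw [contDiff_iff_contDiffAt]
  intro x
  have hn' : (0:ℝ) < n := by positivity
  have hn2 : (2:ℝ) ≤ n := by exact_mod_cast hn
  set m : ℤ := ⌊x / n⌋ with hm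
  obtain ⟨h1, h2⟩ := floor_bounds (by omega : 1 ≤ n) x
  rw [← hm] at h1 h2
  have key : step n =ᶠ[nhds x] fun y => (m : ℝ) + Real.smoothTransition (y - m * n) := by
    have hmem : Set.Ioo ((m:ℝ) * n - n + 1) (m * n + n) ∈ nhds x :=
      Ioo_mem_nhds (by linarith) (by linarith)
    filter_upwards [hmem] with y hy
    rcases le_or_gt ((m:ℝ) * n) y with h | h
    · exact step_eq (by omega) h (by linarith [hy.2])
    · have e1 := step_eq (n := n) (by omega) (x := y) (m := m - 1)
        (by push_cast; linarith [hy.1]) (by push_cast; linarith)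
      rw [e1, Real.smoothTransition.one_of_one_le (by push_cast; linarith [hy.1]),
        Real.smoothTransition.zero_of_nonpos (by linarith)]
      push_cast; ring
  refine ContDiffAt.congr_of_eventuallyEq ?_ key
  exact (contDiff_const.add (Real.smoothTransition.contDiff.comp
    (contDiff_id.sub contDiff_const))).contDiffAt

/-- The map `ℝ/n → ℝ/(n+|A|)` which doubles the length of the intervals `[a, a+1]`, `a ∈ A`. -/
def expand (n : ℕ) (A : List ℕ) (x : ℝ) : ℝ := x + (A.map fun a : ℕ => step n (x - a)).sum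

theorem expand_nil (n : ℕ) (x : ℝ) : expand n [] x = x := by simp [expand]

theorem expand_cons (n : ℕ) (a : ℕ) (A : List ℕ) (x : ℝ) :
    expand n (a :: A) x = expand n A x + step n (x - a) := by
  simp only [expand, List.map_cons, List.sum_cons]; ring

theorem expand_perm {n : ℕ} {A B : List ℕ} (h : A.Perm B) (x : ℝ) : expand n A x = expand n B x := by
  simp only [expand]
  rw [(h.map _).sum_eq]

theorem expand_contDiff {n : ℕ} (hn : 2 ≤ n) (A : List ℕ) : ContDiff ℝ ∞ (expand n A) := by
  induction A with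
  | nil => rw [funext (expand_nil n)]; exact contDiff_id
  | cons a A ih =>
    rw [funext (expand_cons n a A)]
    exact ih.add ((step_contDiff hn).comp (contDiff_id.sub contDiff_const))

theorem expand_add_period {n : ℕ} (hn : 1 ≤ n) (A : List ℕ) (x : ℝ) :
    expand n A (x + n) = expand n A x + (n + A.length) := by
  induction A with
  | nil => simp [expand_nil]
  | cons a A ih =>
    rw [expand_cons, ih, expand_cons]
    have : x + n - a = x - a + (1:ℤ) * n := by push_cast; ring
    rw [this, step_add_mul hn]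
    push_cast [List.length_cons]; ring

theorem expand_sub_mono {n : ℕ} (hn : 1 ≤ n) (A : List ℕ) :
    Monotone fun x => expand n A x - x := by
  induction A with
  | nil => simpa [expand_nil] using monotone_const
  | cons a A ih =>
    intro x y hxy
    have h1 := ih hxy
    have h2 : step n (x - a) ≤ step n (y - a) := step_mono hn (by linarith)
    simp only [expand_cons] at *
    linarith

theorem expand_deriv_pos {n : ℕ} (hn : 2 ≤ n) (A : List ℕ) (x : ℝ) :
    0 < deriv (expand n A) x := by
  have hd : DifferentiableAt ℝ (expand n A) x := (expand_contDiff hn A).differentiable (by simp) x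
  have h0 : 0 ≤ deriv (fun x => expand n A x - x) x :=
    (expand_sub_mono (by omega) A).deriv_nonneg
  rw [deriv_fun_sub hd differentiableAt_fun_id] at h0
  simp only [deriv_id''] at h0
  linarith

/-- The function `ℝ → ℝ` given by `expand` after rescaling the circles to length one. -/
def expFun (n : ℕ) (A : List ℕ) (x : ℝ) : ℝ := expand n A (n * x) / (n + A.length)

/-- The insertion diffeomorphism of the circle `ℝ/ℤ` for `n` intervals and the set `A ⊆ ℤ/n`
of intervals to be doubled. -/
def expLift (n : ℕ) (A : List ℕ) : DiffLift := liftOf (expFun n A)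

theorem expLift_apply {n : ℕ} (hn : 2 ≤ n) (A : List ℕ) (x : ℝ) :
    expLift n A x = expand n A (n * x) / (n + A.length) := by
  have hn0 : (0:ℝ) < n := by positivity
  refine liftOf_apply (exists_lift ?_ ?_ ?_) x
  · exact ((expand_contDiff hn A).comp (contDiff_const.mul contDiff_id)).div_const _
  · intro x
    have hd : DifferentiableAt ℝ (expand n A) (n * x) :=
      (expand_contDiff hn A).differentiable (by simp) _
    have h1 : HasDerivAt (fun x : ℝ => (n:ℝ) * x) n x := by
      simpa using (hasDerivAt_id x).const_mul (n:ℝ)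
    have h2 := (hd.hasDerivAt.comp x h1).div_const (n + A.length : ℝ)
    have h3 : deriv (expFun n A) x = deriv (expand n A) (n * x) * n / (n + A.length) := h2.deriv
    rw [h3]
    have := expand_deriv_pos hn A (n * x)
    positivity
  · intro x
    simp only [expFun]
    rw [mul_add, mul_one, expand_add_period (by omega), add_div, div_self]
    positivity

end FlatCircle
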