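import Pool.Agent.Helper70.Flat.Diff

/-!
Rotation, composition and position lemmas for the insertion diffeomorphisms.
-/

noncomputable section

namespace FlatCircle

/-- the cyclic group of rotations of order `n` -/
abbrev RotGroup (n : ℕ) : Subgroup CircleDiff := Subgroup.zpowers (rot (1 / n))

theorem rot_add (a b : ℝ) : rot (a + b) = rot a * rot b := by
  simp only [rot, transl_add, map_mul]

theorem rot_neg (a : ℝ) : rot (-a) = (rot a)⁻¹ := by
  simp only [rot, transl_neg, map_inv]

theorem rot_zpow (a : ℝ) (k : ℤ) : rot a ^ k = rot (k * a) := by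
  simp only [rot, ← transl_zpow, map_zpow]

theorem rot_int (k : ℤ) : rot k = 1 := toCircle_transl_int k

theorem rot_mem (n : ℕ) (k : ℤ) : rot (k / n) ∈ RotGroup n :=
  ⟨k, by simp only [rot_zpow]; congr 1; ring⟩

theorem mem_rotGroup {n : ℕ} {f : CircleDiff} : f ∈ RotGroup n ↔ ∃ k : ℤ, f = rot (k / n) := by
  rw [Subgroup.mem_zpowers_iff]
  simp only [rot_zpow]
  constructor
  · rintro ⟨k, h⟩; exact ⟨k, by rw [← h]; congr 1; ring⟩
  · rintro ⟨k, h⟩; exact ⟨k, by rw [h]; congr 1; ring⟩

theorem rotGroup_finite (n : ℕ) : (RotGroup n : Set CircleDiff).Finite := by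
  have : IsOfFinOrder (rot (1 / n)) := by
    rw [isOfFinOrder_iff_pow_eq_one]
    rcases Nat.eq_zero_or_pos n with h | h
    · refine ⟨1, one_pos, ?_⟩
      subst h
      have := rot_int 0
      simpa using this
    · refine ⟨n, h, ?_⟩
      have h1 := rot_zpow (1 / n) n
      rw [zpow_natCast] at h1
      rw [h1]
      have : ((n:ℤ):ℝ) * (1 / n) = ((1:ℤ):ℝ) := by
        push_cast; field_simp
      rw [this]; exact rot_int 1
  exact this.finite_zpowers

theorem expLift_rot {n : ℕ} (hn : 2 ≤ n) (s : ℕ) (A A' : List ℕ)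
    (h : A'.Perm (A.map fun a => (a + s) % n)) :
    ∃ k : ℤ, toCircle (expLift n A') * rot (s / n) =
      rot (k / (n + A.length : ℕ)) * toCircle (expLift n A) := by
  have hn0 : (0:ℝ) < n := by positivity
  have hlen : A'.length = A.length := by rw [h.length_eq, List.length_map]
  -- the integer does not depend on the point: pick it at 0 and use both sides as lifts
  have key : ∃ k : ℤ, ∀ x : ℝ, expand n A' (x + s) = expand n A x + s + k := by
    refine ⟨((A.map fun a => (a + s) / n).sum : ℕ), fun x => ?_⟩
    rw [expand_perm h]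
    clear h hlen A'
    induction A with
    | nil => simp [expand_nil]
    | cons a A ih =>
      rw [List.map_cons, expand_cons, ih, expand_cons]
      have h1 : ((a:ℝ) + s) = n * (((a + s) / n : ℕ) : ℝ) + (((a + s) % n : ℕ) : ℝ) := by
        exact_mod_cast (Nat.div_add_mod (a + s) n).symm
      have h2 : x + s - (((a + s) % n : ℕ) : ℝ) = x - a + (((a + s) / n : ℕ) : ℤ) * n := by
        rw [Int.cast_natCast]
        linarith
      rw [h2, step_add_mul (by omega), List.map_cons, List.sum_cons, Int.cast_natCast,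
        Int.cast_natCast]
      rw [Int.cast_natCast]
      push_cast; ring
  obtain ⟨k, hk⟩ := key
  refine ⟨s + k, ?_⟩
  simp only [rot, ← map_mul]
  congr 1
  apply dl_ext
  intro x
  simp only [dl_mul_apply, transl_apply]
  rw [expLift_apply hn, expLift_apply hn, mul_add, mul_div_cancel₀ _ hn0.ne', hk, hlen]
  push_cast
  have : (0:ℝ) < n + A.length := by positivity
  field_simp
  ring

/-- equality of the vertices (cosets) attached to rotated insertion data -/
theorem expLift_coset {n : ℕ} (hn : 2 ≤ n) (s : ℕ) (A A' : List ℕ)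
    (h : A'.Perm (A.map fun a => (a + s) % n)) :
    toCircle (expLift n A) * (rot (-(s / n)) * (toCircle (expLift n A'))⁻¹) ∈
      RotGroup (n + A.length) := by
  obtain ⟨k, hk⟩ := expLift_rot hn s A A' h
  have h1 : toCircle (expLift n A) * (rot (-(s / n)) * (toCircle (expLift n A'))⁻¹) =
      (rot (k / (n + A.length : ℕ)))⁻¹ := by
    rw [rot_neg, ← mul_inv_rev, hk, mul_inv_rev, ← mul_assoc, mul_inv_cancel, one_mul]
  rw [h1]
  exact Subgroup.inv_mem _ (rot_mem _ k)

theorem step_eq_of_int {n : ℕ} (hn : 1 ≤ n) {x : ℝ} {m : ℤ} (h1 : (m : ℝ) * n + 1 ≤ x)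
    (h2 : x ≤ (m + 1) * n) : step n x = m + 1 := by
  rw [step_eq hn (by linarith) h2, Real.smoothTransition.one_of_one_le (by linarith)]

/-- key computation for the composition law -/
theorem step_comp {n : ℕ} (_hn : 2 ≤ n) {s : ℕ} (hs0 : 0 < s) (hs : s < n) (x : ℝ) :
    step (n + 1) (x + step n x - ((s + 1 : ℕ) : ℝ)) = step n (x - s) := by
  have hn' : (0:ℝ) < n := by positivity
  have hs0' : (1:ℝ) ≤ s := by exact_mod_cast hs0
  have hs' : (s:ℝ) + 1 ≤ n := by exact_mod_cast hs
  set m : ℤ := ⌊(x - s) / n⌋ with hm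
  obtain ⟨h1, h2⟩ := floor_bounds (by omega : 1 ≤ n) (x - s)
  rw [← hm] at h1 h2
  set y : ℝ := x - s - m * n with hy
  have hy0 : 0 ≤ y := by rw [hy]; linarith
  have hyn : y < n := by rw [hy]; linarith
  have hR : step n (x - s) = m + Real.smoothTransition y := by
    rw [step_eq (by omega) h1 h2.le, hy]
  rw [hR]
  rcases lt_or_ge (s + y) n with h | h
  · have e1 : step n x = m + 1 := by
      apply step_eq_of_int (by omega)
      · rw [hy] at hy0; linarith
      · rw [hy] at h; linarith
    rw [e1]
    have e2 := step_eq (n := n + 1) (by omega) (x := x + (m + 1) - ((s + 1 : ℕ) : ℝ)) (m := m)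
      (by push_cast; linarith) (by push_cast; linarith)
    rw [e2]
    congr 2
    push_cast; rw [hy]; ring
  · have e1 : step n x = m + 1 + Real.smoothTransition (s + y - n) := by
      have := step_eq (n := n) (by omega) (x := x) (m := m + 1)
        (by push_cast; linarith) (by push_cast; linarith)
      rw [this]
      push_cast
      congr 2
      rw [hy]; ring
    have b0 := Real.smoothTransition.nonneg (s + y - n)
    have b1 := Real.smoothTransition.le_one (s + y - n)
    rw [e1]
    have e2 := step_eq_of_int (n := n + 1) (by omega)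
      (x := x + (m + 1 + Real.smoothTransition (s + y - n)) - ((s + 1 : ℕ) : ℝ)) (m := m)
      (by push_cast; linarith) (by push_cast; linarith)
    rw [e2, Real.smoothTransition.one_of_one_le (by linarith)]

theorem expand_comp {n : ℕ} (hn : 2 ≤ n) (S : List ℕ) (hS : ∀ s ∈ S, 0 < s ∧ s < n) (x : ℝ) :
    expand n (0 :: S) x = expand (n + 1) (S.map (· + 1)) (expand n [0] x) := by
  have h0 : expand n [0] x = x + step n x := by simp [expand]
  rw [h0]
  induction S with
  | nil => simp [expand]
  | cons s S ih =>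
    have ih' := ih fun s' hs' => hS s' (List.mem_cons_of_mem _ hs')
    have hs := hS s List.mem_cons_self
    rw [List.map_cons, expand_cons (n + 1), ← ih', step_comp hn hs.1 hs.2]
    simp only [expand_cons, Nat.cast_zero, sub_zero]
    ring

theorem expLift_comp {n : ℕ} (hn : 2 ≤ n) (S : List ℕ) (hS : ∀ s ∈ S, 0 < s ∧ s < n) :
    expLift n (0 :: S) = expLift (n + 1) (S.map (· + 1)) * expLift n [0] := by
  apply dl_ext
  intro x
  rw [dl_mul_apply, expLift_apply hn, expLift_apply hn, expLift_apply (by omega : 2 ≤ n + 1),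
    expand_comp hn S hS]
  simp only [List.length_cons, List.length_nil, List.length_map]
  push_cast
  have h1 : (0:ℝ) < n + 1 := by positivity
  rw [mul_div_cancel₀ _ h1.ne']
  congr 1
  ring

theorem expLift_nil {n : ℕ} (hn : 2 ≤ n) : expLift n [] = 1 := by
  apply dl_ext
  intro x
  have : (n:ℝ) ≠ 0 := by positivity
  rw [expLift_apply hn, expand_nil]
  simp only [List.length_nil, Nat.cast_zero, add_zero, dl_one_apply]
  field_simp

/-! ### positions -/

theorem smoothTransition_half : Real.smoothTransition (1 / 2) = 1 / 2 := by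
  unfold Real.smoothTransition
  have h : (1:ℝ) - 1 / 2 = 1 / 2 := by norm_num
  rw [h]
  have : expNegInvGlue (1/2) ≠ 0 := (expNegInvGlue.pos_of_pos (by norm_num)).ne'
  field_simp
  norm_num

theorem step_nat_sub {n : ℕ} (_hn : 2 ≤ n) {m s : ℕ} (hm : m ≤ n) (hs : s < n) :
    step n ((m:ℝ) - s) = if s < m then 1 else 0 := by
  have hs' : (s:ℝ) + 1 ≤ n := by exact_mod_cast hs
  have hm' : (m:ℝ) ≤ n := by exact_mod_cast hm
  have hn' : (2:ℝ) ≤ n := by exact_mod_cast _hn
  split_ifs with h
  · have h' : (s:ℝ) + 1 ≤ m := by exact_mod_cast h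
    have hs0 : (0:ℝ) ≤ s := by positivity
    have := step_eq_of_int (n := n) (by omega) (x := (m:ℝ) - s) (m := 0)
      (by push_cast; linarith) (by push_cast; linarith)
    simpa using this
  · push Not at h
    have h' : (m:ℝ) ≤ s := by exact_mod_cast h
    rcases h.eq_or_lt with h1 | h1
    · have h2 : (m:ℝ) = s := by exact_mod_cast h1
      have := step_eq (n := n) (by omega) (x := (m:ℝ) - s) (m := 0)
        (by push_cast; linarith) (by push_cast; linarith)
      rw [this, Real.smoothTransition.zero_of_nonpos (by push_cast; linarith)]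
      simp
    · have h2 : (m:ℝ) + 1 ≤ s := by exact_mod_cast h1
      have hm0 : (0:ℝ) ≤ m := by positivity
      have := step_eq_of_int (n := n) (by omega) (x := (m:ℝ) - s) (m := -1)
        (by push_cast; linarith) (by push_cast; linarith)
      rw [this]; push_cast; ring

theorem step_half_sub {n : ℕ} (_hn : 2 ≤ n) {m s : ℕ} (hm : m < n) (hs : s < n) :
    step n ((m:ℝ) + 1 / 2 - s) = if s < m then 1 else if s = m then 1 / 2 else 0 := by
  have hs' : (s:ℝ) + 1 ≤ n := by exact_mod_cast hs
  have hm' : (m:ℝ) + 1 ≤ n := by exact_mod_cast hm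
  have hn' : (2:ℝ) ≤ n := by exact_mod_cast _hn
  have hs0 : (0:ℝ) ≤ s := by positivity
  have hm0 : (0:ℝ) ≤ m := by positivity
  split_ifs with h h1
  · have h' : (s:ℝ) + 1 ≤ m := by exact_mod_cast h
    have := step_eq_of_int (n := n) (by omega) (x := (m:ℝ) + 1/2 - s) (m := 0)
      (by push_cast; linarith) (by push_cast; linarith)
    simpa using this
  · subst h1
    have := step_eq (n := n) (by omega) (x := (s:ℝ) + 1/2 - s) (m := 0)
      (by push_cast; linarith) (by push_cast; linarith)
    rw [this]
    have h2 : (s:ℝ) + 1 / 2 - s - ((0:ℤ):ℝ) * n = 1 / 2 := by push_cast; ring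
    rw [h2, smoothTransition_half]; simp
  · have h2 : m + 1 ≤ s := by omega
    have h2' : (m:ℝ) + 1 ≤ s := by exact_mod_cast h2
    have := step_eq_of_int (n := n) (by omega) (x := (m:ℝ) + 1/2 - s) (m := -1)
      (by push_cast; linarith) (by push_cast; linarith)
    rw [this]; push_cast; ring

theorem expand_nat {n : ℕ} (hn : 2 ≤ n) {m : ℕ} (hm : m ≤ n) (S : List ℕ) (hS : ∀ s ∈ S, s < n) :
    expand n S m = m + (S.countP (· < m) : ℕ) := by
  induction S with
  | nil => simp [expand_nil]
  | cons s S ih =>
    rw [expand_cons, ih fun s' hs' => hS s' (List.mem_cons_of_mem _ hs'),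
      step_nat_sub hn hm (hS s List.mem_cons_self), List.countP_cons]
    simp only [decide_eq_true_eq]
    split_ifs <;> push_cast <;> ring

theorem expand_half {n : ℕ} (hn : 2 ≤ n) {m : ℕ} (hm : m < n) (S : List ℕ)
    (hS : ∀ s ∈ S, s < n) :
    expand n S (m + 1 / 2) = m + 1 / 2 + (S.countP (· < m) : ℕ) + (S.count m : ℕ) / 2 := by
  induction S with
  | nil => simp [expand_nil]
  | cons s S ih =>
    rw [expand_cons, ih fun s' hs' => hS s' (List.mem_cons_of_mem _ hs'),
      step_half_sub hn hm (hS s List.mem_cons_self), List.countP_cons, List.count_cons]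
    simp only [decide_eq_true_eq, beq_iff_eq]
    split_ifs with h1 h2 h2
    · omega
    · push_cast; ring
    · push_cast; ring
    · push_cast; ring

end FlatCircle
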