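import Pool.Agent.Helper70.Flat.Basic

/-!
Oriented smooth manifolds; singular cochains and the Euler class of a homomorphism
`π₁(X) → Diff^∞_+(S¹)`.
-/

open Set Topology
open scoped Manifold ContDiff

noncomputable section

namespace FlatCircle

/-- `IsOrientedSmoothManifold E M`: the topological space `M` has a smooth atlas with charts in
`E` such that all transition maps have positive Jacobian determinants. (`M` is not required here
to be Hausdorff or second countable.) -/
def IsOrientedSmoothManifold (E M : Type*) [NormedAddCommGroup E] [NormedSpace ℝ E]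
    [TopologicalSpace M] : Prop :=
  ∃ A : ChartedSpace E M, IsManifold 𝓘(ℝ, E) ∞ M ∧
    ∀ e ∈ A.atlas, ∀ e' ∈ A.atlas, ∀ x ∈ (e.symm ≫ₕ e').source,
      0 < (fderiv ℝ (e.symm ≫ₕ e') x).det

/-- singular `n`-simplices -/
abbrev Sing (n : ℕ) (X : Type*) [TopologicalSpace X] : Type _ := C(stdSimplex ℝ (Fin (n + 1)), X)

/-- the vertex number `i` of the standard simplex -/
abbrev vert {n : ℕ} (i : Fin (n + 1)) : stdSimplex ℝ (Fin (n + 1)) := stdSimplex.vertex i

/-- the edge of the standard one-simplex as a path -/
def unitEdge : Path (vert 0 : stdSimplex ℝ (Fin (1 + 1))) (vert 1) where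
  toFun t := stdSimplexHomeomorphUnitInterval.symm t
  continuous_toFun := stdSimplexHomeomorphUnitInterval.symm.continuous
  source' := by
    rw [Homeomorph.symm_apply_eq]
    exact stdSimplexHomeomorphUnitInterval_zero.symm
  target' := by
    rw [Homeomorph.symm_apply_eq]
    exact stdSimplexHomeomorphUnitInterval_one.symm

variable {X : Type*} [TopologicalSpace X]

/-- The singular simplex `σ ∘ f_*`, where `f_*` is the affine map of standard simplices given by
`f` on the vertices. -/
def Sing.sub {m n : ℕ} (σ : Sing n X) (f : Fin (m + 1) → Fin (n + 1)) : Sing m X :=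
  σ.comp ⟨stdSimplex.map f, stdSimplex.continuous_map f⟩

/-- the singular coboundary -/
def coboundary {n : ℕ} (b : Sing n X → ℤ) (σ : Sing (n + 1) X) : ℤ :=
  ∑ i : Fin (n + 2), (-1) ^ (i : ℕ) * b (σ.sub i.succAbove)

/-- the cup square of a singular two-cochain -/
def cupSquare (c : Sing 2 X → ℤ) (σ : Sing 4 X) : ℤ := c (σ.sub ![0, 1, 2]) * c (σ.sub ![2, 3, 4])

/-- a singular one-simplex as a path -/
def edgePath (e : Sing 1 X) : Path (e (vert 0)) (e (vert 1)) := unitEdge.map e.continuous

/-- The class in the fundamental group of a path, closed up by reference paths. -/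
def loopClass {x₀ : X} (γ : ∀ x, Path x₀ x) {x y : X} (q : Path x y) : FundamentalGroup X x₀ :=
  FundamentalGroup.fromPath (Path.Homotopic.Quotient.mk (((γ x).trans q).trans (γ y).symm))

/-- The class in the fundamental group of a singular one-simplex, closed up by reference paths. -/
def edgeClass {x₀ : X} (γ : ∀ x, Path x₀ x) (e : Sing 1 X) : FundamentalGroup X x₀ :=
  loopClass γ (edgePath e)

/-- `IsEulerCocycle ρ c`: the singular two-cochain `c` is an Euler cocycle of
`ρ : π₁(X, x₀) → Diff^∞_+(S¹)`. That is, there are paths `γ x` from the base point `x₀` to all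
points `x`, and lifts `L e` of the diffeomorphisms `ρ (γ · e · γ⁻¹)` for all singular
one-simplices `e`, such that `c σ` is the translation number by which the lifts around the
boundary of the two-simplex `σ` fail to fit. (In Mathlib's fundamental group `p * q` is the loop
which runs first through `q` and then through `p`.) -/
def IsEulerCocycle {x₀ : X} (ρ : FundamentalGroup X x₀ →* CircleDiff) (c : Sing 2 X → ℤ) : Prop :=
  ∃ (γ : ∀ x, Path x₀ x) (L : Sing 1 X → DiffLift),
    (∀ e, toCircle (L e) = ρ (edgeClass γ e)) ∧
    ∀ σ, L (σ.sub ![1, 2]) * L (σ.sub ![0, 1]) = transl (c σ) * L (σ.sub ![0, 2])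

/-- The square of the Euler class of `ρ` is an element of infinite order in `H⁴(X; ℤ)`: there is
an Euler cocycle, and for no Euler cocycle `c` a nonzero multiple of the cup square `c ∪ c` is a
coboundary. -/
def EulerSquareInfiniteOrder {x₀ : X} (ρ : FundamentalGroup X x₀ →* CircleDiff) : Prop :=
  (∃ c, IsEulerCocycle ρ c) ∧
    ∀ c, IsEulerCocycle ρ c → ∀ k : ℤ, k ≠ 0 →
      ¬ ∃ b : Sing 3 X → ℤ, ∀ σ, coboundary b σ = k * cupSquare c σ

end FlatCircle
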