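import Pool.Agent.Helper70.Flat.Diff2
import Pool.Agent.Helper70.Flat.Notions

/-!
Singular cochains and the Euler class of a homomorphism `π₁(X) → Diff^∞_+(S¹)`.
-/

open Set Topology

noncomputable section

namespace FlatCircle

section

variable {X : Type*} [TopologicalSpace X]

/-! ### Existence -/

theorem Sing.sub_sub {l m n : ℕ} (σ : Sing n X) (f : Fin (m + 1) → Fin (n + 1))
    (g : Fin (l + 1) → Fin (m + 1)) : (σ.sub f).sub g = σ.sub (f ∘ g) := by
  ext t
  simp only [Sing.sub, ContinuousMap.comp_apply, ContinuousMap.coe_mk]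
  rw [stdSimplex.map_comp_apply]

@[simp] theorem Sing.sub_vert {m n : ℕ} (σ : Sing n X) (f : Fin (m + 1) → Fin (n + 1))
    (i : Fin (m + 1)) : (σ.sub f) (vert i) = σ (vert (f i)) := by
  simp only [Sing.sub, ContinuousMap.comp_apply, ContinuousMap.coe_mk]
  rw [stdSimplex.map_vertex]

/-- the straight path between two vertices of the standard simplex -/
def simplexPath {n : ℕ} (i j : Fin (n + 1)) :
    Path (vert i : stdSimplex ℝ (Fin (n + 1))) (vert j) :=
  (edgePath (⟨stdSimplex.map ![i, j], stdSimplex.continuous_map _⟩ :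
    Sing 1 (stdSimplex ℝ (Fin (n + 1))))).cast
    (by simp [stdSimplex.map_vertex]) (by simp [stdSimplex.map_vertex])

/-- the edge path of a singular simplex -/
def Sing.edge {n : ℕ} (σ : Sing n X) (i j : Fin (n + 1)) : Path (σ (vert i)) (σ (vert j)) :=
  (simplexPath i j).map σ.continuous

theorem loopClass_congr {x₀ : X} (γ : ∀ x, Path x₀ x) {x y x' y' : X} (hx : x = x') (hy : y = y')
    (q : Path x y) (q' : Path x' y') (h : ∀ t, q t = q' t) : loopClass γ q = loopClass γ q' := by
  subst hx hy
  have : q = q' := by ext t; exact h t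
  rw [this]

theorem loopClass_sub {x₀ : X} (γ : ∀ x, Path x₀ x) {n : ℕ} (σ : Sing n X) (i j : Fin (n + 1)) :
    loopClass γ (edgePath (σ.sub ![i, j])) = loopClass γ (σ.edge i j) := by
  apply loopClass_congr
  · simp
  · simp
  · intro t; rfl

theorem loopClass_homotopic {x₀ : X} (γ : ∀ x, Path x₀ x) {x y : X} {q q' : Path x y}
    (h : q.Homotopic q') : loopClass γ q = loopClass γ q' := by
  unfold loopClass
  congr 1
  apply Quotient.sound
  exact ((Path.Homotopic.refl _).hcomp h).hcomp (Path.Homotopic.refl _)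

open CategoryTheory in
theorem quotient_path_aux {x₀ x y z w : X} (a : Path.Homotopic.Quotient x₀ x)
    (b : Path.Homotopic.Quotient x y) (c : Path.Homotopic.Quotient w y)
    (d : Path.Homotopic.Quotient y z) (e : Path.Homotopic.Quotient z x₀) :
    ((a.trans b).trans c.symm).trans ((c.trans d).trans e) = (a.trans (b.trans d)).trans e := by
  let a' : FundamentalGroupoid.mk x₀ ⟶ FundamentalGroupoid.mk x := a
  let b' : FundamentalGroupoid.mk x ⟶ FundamentalGroupoid.mk y := b
  let c' : FundamentalGroupoid.mk w ⟶ FundamentalGroupoid.mk y := c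
  let d' : FundamentalGroupoid.mk y ⟶ FundamentalGroupoid.mk z := d
  let e' : FundamentalGroupoid.mk z ⟶ FundamentalGroupoid.mk x₀ := e
  change ((a' ≫ b') ≫ Groupoid.inv c') ≫ ((c' ≫ d') ≫ e') = (a' ≫ (b' ≫ d')) ≫ e'
  simp

theorem loopClass_trans {x₀ : X} (γ : ∀ x, Path x₀ x) {x y z : X} (q : Path x y) (q' : Path y z) :
    loopClass γ q' * loopClass γ q = loopClass γ (q.trans q') := by
  rw [FundamentalGroup.mul_def]
  unfold loopClass FundamentalGroup.fromPath FundamentalGroup.fromArrow
  simp only [Path.Homotopic.Quotient.mk_trans, Path.Homotopic.Quotient.mk_symm]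
  exact quotient_path_aux _ _ _ _ _

instance stdSimplex_simplyConnected (n : ℕ) :
    SimplyConnectedSpace (stdSimplex ℝ (Fin (n + 1))) := by
  have : ContractibleSpace (stdSimplex ℝ (Fin (n + 1))) :=
    (convex_stdSimplex ℝ (Fin (n + 1))).contractibleSpace ⟨_, single_mem_stdSimplex ℝ 0⟩
  infer_instance

theorem Sing.edge_trans {n : ℕ} (σ : Sing n X) (i j k : Fin (n + 1)) :
    ((σ.edge i j).trans (σ.edge j k)).Homotopic (σ.edge i k) := by
  unfold Sing.edge
  rw [← Path.map_trans]
  exact (SimplyConnectedSpace.paths_homotopic _ _).map ⟨σ, σ.continuous⟩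

/-- Euler cocycles exist -/
theorem exists_eulerCocycle [PathConnectedSpace X] {x₀ : X}
    (ρ : FundamentalGroup X x₀ →* CircleDiff) : ∃ c, IsEulerCocycle ρ c := by
  let γ : ∀ x, Path x₀ x := fun x => PathConnectedSpace.somePath x₀ x
  have hsurj : Function.Surjective toCircle := QuotientGroup.mk'_surjective _
  choose L hL using fun e : Sing 1 X => hsurj (ρ (edgeClass γ e))
  have key : ∀ σ : Sing 2 X, ∃ k : ℤ,
      L (σ.sub ![1, 2]) * L (σ.sub ![0, 1]) = transl k * L (σ.sub ![0, 2]) := by
    intro σ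
    simp only [edgeClass] at hL
    rw [← toCircle_eq_iff, map_mul, hL, hL, hL, ← map_mul, loopClass_sub, loopClass_sub,
      loopClass_sub, loopClass_trans, loopClass_homotopic γ (σ.edge_trans 0 1 2)]
  choose c hc using key
  exact ⟨c, γ, L, hL, hc⟩

end

end FlatCircle
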