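import Pool.Agent.Helper70.Flat.Euler

/-!
Euler cocycles are cocycles, and two Euler cocycles differ by a coboundary.
-/

open Set Topology

noncomputable section

namespace FlatCircle

variable {X : Type*} [TopologicalSpace X] {x₀ : X} {ρ : FundamentalGroup X x₀ →* CircleDiff}

theorem transl_inj {a b : ℝ} {f : DiffLift} (h : transl a * f = transl b * f) : a = b := by
  have h1 : transl a = transl b := mul_right_cancel h
  have h2 : transl a 0 = transl b 0 := by rw [h1]
  simpa using h2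

theorem coboundary_two (b : Sing 1 X → ℤ) (σ : Sing 2 X) :
    coboundary b σ = b (σ.sub ![1, 2]) - b (σ.sub ![0, 2]) + b (σ.sub ![0, 1]) := by
  unfold coboundary
  rw [Fin.sum_univ_three]
  have h0 : (Fin.succAbove (0 : Fin 3)) = ![1, 2] := by decide
  have h1 : (Fin.succAbove (1 : Fin 3)) = ![0, 2] := by decide
  have h2 : (Fin.succAbove (2 : Fin 3)) = ![0, 1] := by decide
  rw [h0, h1, h2]
  simp
  ring

theorem coboundary_three (b : Sing 2 X → ℤ) (σ : Sing 3 X) :
    coboundary b σ = b (σ.sub ![1, 2, 3]) - b (σ.sub ![0, 2, 3]) + b (σ.sub ![0, 1, 3])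
      - b (σ.sub ![0, 1, 2]) := by
  unfold coboundary
  rw [Fin.sum_univ_four]
  have h0 : (Fin.succAbove (0 : Fin 4)) = ![1, 2, 3] := by decide
  have h1 : (Fin.succAbove (1 : Fin 4)) = ![0, 2, 3] := by decide
  have h2 : (Fin.succAbove (2 : Fin 4)) = ![0, 1, 3] := by decide
  have h3 : (Fin.succAbove (3 : Fin 4)) = ![0, 1, 2] := by decide
  rw [h0, h1, h2, h3]
  simp
  ring

/-- Euler cocycles are cocycles. -/
theorem IsEulerCocycle.coboundary_eq_zero {c : Sing 2 X → ℤ} (h : IsEulerCocycle ρ c)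
    (σ : Sing 3 X) : coboundary c σ = 0 := by
  obtain ⟨γ, L, -, hc⟩ := h
  have h012 := hc (σ.sub ![0, 1, 2])
  have h023 := hc (σ.sub ![0, 2, 3])
  have h013 := hc (σ.sub ![0, 1, 3])
  have h123 := hc (σ.sub ![1, 2, 3])
  simp only [Sing.sub_sub] at h012 h023 h013 h123
  have e : ∀ i j k : Fin 4, (![i, j, k] ∘ ![1, 2] : Fin 2 → Fin 4) = ![j, k] ∧
      (![i, j, k] ∘ ![0, 1] : Fin 2 → Fin 4) = ![i, j] ∧
      (![i, j, k] ∘ ![0, 2] : Fin 2 → Fin 4) = ![i, k] := by decide
  rw [(e _ _ _).1, (e _ _ _).2.1, (e _ _ _).2.2] at h012 h023 h013 h123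
  rw [coboundary_three]
  have h1 : transl (c (σ.sub ![0, 1, 2]) + c (σ.sub ![0, 2, 3])) * L (σ.sub ![0, 3]) =
      transl (c (σ.sub ![1, 2, 3]) + c (σ.sub ![0, 1, 3])) * L (σ.sub ![0, 3]) := by
    rw [transl_add, mul_assoc, ← h023, transl_add, mul_assoc, ← h013, ← mul_assoc,
      transl_int_comm, mul_assoc, ← h012, ← mul_assoc, ← mul_assoc, h123]
  have h2 := transl_inj h1
  have h3 : c (σ.sub ![0, 1, 2]) + c (σ.sub ![0, 2, 3]) =
      c (σ.sub ![1, 2, 3]) + c (σ.sub ![0, 1, 3]) := by exact_mod_cast h2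
  linarith

/-- the loop comparing two systems of reference paths -/
def compLoop (γ γ' : ∀ x, Path x₀ x) (x : X) : FundamentalGroup X x₀ :=
  FundamentalGroup.fromPath (Path.Homotopic.Quotient.mk ((γ' x).trans (γ x).symm))

open CategoryTheory in
theorem quotient_path_aux2 {x y : X} (a a' : Path.Homotopic.Quotient x₀ x)
    (b b' : Path.Homotopic.Quotient x₀ y) (q : Path.Homotopic.Quotient x y) :
    ((a'.trans q).trans b'.symm).trans (b'.trans b.symm) =
      (a'.trans a.symm).trans ((a.trans q).trans b.symm) := by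
  let a1 : FundamentalGroupoid.mk x₀ ⟶ FundamentalGroupoid.mk x := a
  let a2 : FundamentalGroupoid.mk x₀ ⟶ FundamentalGroupoid.mk x := a'
  let b1 : FundamentalGroupoid.mk x₀ ⟶ FundamentalGroupoid.mk y := b
  let b2 : FundamentalGroupoid.mk x₀ ⟶ FundamentalGroupoid.mk y := b'
  let q1 : FundamentalGroupoid.mk x ⟶ FundamentalGroupoid.mk y := q
  change ((a2 ≫ q1) ≫ Groupoid.inv b2) ≫ (b2 ≫ Groupoid.inv b1) =
    (a2 ≫ Groupoid.inv a1) ≫ ((a1 ≫ q1) ≫ Groupoid.inv b1)
  simp

theorem compLoop_mul_loopClass (γ γ' : ∀ x, Path x₀ x) {x y : X} (q : Path x y) :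
    compLoop γ γ' y * loopClass γ' q = loopClass γ q * compLoop γ γ' x := by
  rw [FundamentalGroup.mul_def, FundamentalGroup.mul_def]
  unfold loopClass compLoop FundamentalGroup.fromPath FundamentalGroup.fromArrow
  simp only [Path.Homotopic.Quotient.mk_trans, Path.Homotopic.Quotient.mk_symm]
  exact quotient_path_aux2 _ _ _ _ _

/-- Two Euler cocycles of the same homomorphism differ by a coboundary. -/
theorem IsEulerCocycle.exists_coboundary {c c' : Sing 2 X → ℤ} (h : IsEulerCocycle ρ c)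
    (h' : IsEulerCocycle ρ c') : ∃ b : Sing 1 X → ℤ, ∀ σ, c' σ - c σ = coboundary b σ := by
  obtain ⟨γ, L, hL, hc⟩ := h
  obtain ⟨γ', L', hL', hc'⟩ := h'
  have hsurj : Function.Surjective toCircle := QuotientGroup.mk'_surjective _
  choose G hG using fun x : X => hsurj (ρ (compLoop γ γ' x))
  have key : ∀ e : Sing 1 X, ∃ k : ℤ, G (e (vert 1)) * L' e = transl k * (L e * G (e (vert 0))) := by
    intro e
    rw [← toCircle_eq_iff, map_mul, map_mul, hL, hL', hG, hG, ← map_mul, ← map_mul,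
      edgeClass, edgeClass, compLoop_mul_loopClass]
  choose b hb using key
  refine ⟨b, fun σ => ?_⟩
  have h1 := hb (σ.sub ![1, 2])
  have h2 := hb (σ.sub ![0, 2])
  have h3 := hb (σ.sub ![0, 1])
  have h4 := hc σ
  have h5 := hc' σ
  simp only [Sing.sub_vert, Matrix.cons_val_zero, Matrix.cons_val_one] at h1 h2 h3
  rw [coboundary_two]
  have h6 : transl (c' σ + b (σ.sub ![0, 2])) * (L (σ.sub ![0, 2]) * G (σ (vert 0))) =
      transl (b (σ.sub ![1, 2]) + (b (σ.sub ![0, 1]) + c σ)) *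
        (L (σ.sub ![0, 2]) * G (σ (vert 0))) := by
    calc transl (c' σ + b (σ.sub ![0, 2])) * (L (σ.sub ![0, 2]) * G (σ (vert 0)))
        = transl (c' σ) * (transl (b (σ.sub ![0, 2])) * (L (σ.sub ![0, 2]) * G (σ (vert 0)))) := by
          rw [transl_add, mul_assoc]
      _ = transl (c' σ) * (G (σ (vert 2)) * L' (σ.sub ![0, 2])) := by rw [← h2]
      _ = G (σ (vert 2)) * (transl (c' σ) * L' (σ.sub ![0, 2])) := by
          rw [← mul_assoc, transl_int_comm, mul_assoc]
      _ = (G (σ (vert 2)) * L' (σ.sub ![1, 2])) * L' (σ.sub ![0, 1]) := by rw [← h5, mul_assoc]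
      _ = transl (b (σ.sub ![1, 2])) * (L (σ.sub ![1, 2]) *
            (G (σ (vert 1)) * L' (σ.sub ![0, 1]))) := by rw [h1]; simp only [mul_assoc]
      _ = transl (b (σ.sub ![1, 2])) * (L (σ.sub ![1, 2]) *
            (transl (b (σ.sub ![0, 1])) * (L (σ.sub ![0, 1]) * G (σ (vert 0))))) := by rw [h3]
      _ = transl (b (σ.sub ![1, 2])) * (transl (b (σ.sub ![0, 1])) *
            ((L (σ.sub ![1, 2]) * L (σ.sub ![0, 1])) * G (σ (vert 0)))) := by
          rw [← mul_assoc (L (σ.sub ![1, 2])), ← transl_int_comm]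
          simp only [mul_assoc]
      _ = _ := by
          rw [h4]
          simp only [transl_add, mul_assoc]
  have h7 := transl_inj h6
  have h8 : c' σ + b (σ.sub ![0, 2]) = b (σ.sub ![1, 2]) + (b (σ.sub ![0, 1]) + c σ) := by
    exact_mod_cast h7
  linarith

end FlatCircle
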