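import Pool.Agent.Helper70.Flat.Count

/-!
The signed sum of the contributions of the 108 cells does not vanish.
-/

open Set Topology

noncomputable section

namespace FlatCircle

/-- number of intervals of the vertex of colour `q` -/
def lev (q c : ℕ) : ℕ := bot c + slot q c

/-- positions of the points of the vertex of colour `q` -/
def pts (q c : ℕ) : List ℕ := posList (bot c) ((marks c).take (slot q c))

theorem check_rank : (cellCodes.all fun c => (List.range 5).all fun q =>
    decide ((pts q c).map (posRank ((marks c).take (slot q c))) = List.range (lev q c))) = true := by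
  decide +kernel

theorem rank_of (q : Fin 5) (c : Cell) :
    (posList (bot c.1) ((marks c.1).take (slot q c.1))).map
      (posRank ((marks c.1).take (slot q c.1))) =
      List.range (bot c.1 + ((marks c.1).take (slot q c.1)).length) := by
  have h := (List.all_eq_true.1 check_rank) c.1 c.2
  have h2 := (List.all_eq_true.1 h) q (List.mem_range.2 q.2)
  have h3 := of_decide_eq_true h2
  have hs : slot q c.1 < 5 := Nat.mod_lt _ (by norm_num)
  have hlen : ((marks c.1).take (slot q c.1)).length = slot q c.1 := by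
    simp only [List.length_take, marks, List.length_cons, List.length_nil]
    omega
  rw [hlen]
  exact h3

/-- linking sum of the vertices of colours `p` and `q` -/
def lk (p q c : ℕ) : ℤ := linkSum (pts p c) (pts q c)

/-- twice the product of the levels times the averaged orientation cocycle -/
def zz (p q r c : ℕ) : ℤ := lev r c * lk p q c + lev p c * lk q r c - lev q c * lk p r c

theorem lev_pos (q : ℕ) (c : Cell) : 0 < lev q c.1 := by
  unfold lev
  have := bot_ge c
  omega

theorem vtx_eq (q : Fin 5) (c : Cell) :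
    vtx q (c, 1) = ⟨lev q c.1, (toCircle (expLift (bot c.1) ((marks c.1).take (slot q c.1)))⁻¹ :
      CircleDiff ⧸ RotGroup (lev q c.1))⟩ := by
  unfold vtx vtxDiff expDiff lev
  simp only [one_mul, map_inv]

theorem av_lk (p q : Fin 5) (c : Cell) :
    (avL (lev p c.1) (expLift (bot c.1) ((marks c.1).take (slot p c.1)))⁻¹ fun a =>
      avL (lev q c.1) (expLift (bot c.1) ((marks c.1).take (slot q c.1)))⁻¹ fun b => hh (b - a)) =
      (lk p q c.1 : ℝ) / 2 / (lev p c.1 : ℝ) / (lev q c.1 : ℝ) := by
  have hs : ∀ q : Fin 5, ((marks c.1).take (slot q c.1)).length = slot q c.1 := by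
    intro q
    have hs : slot q c.1 < 5 := Nat.mod_lt _ (by norm_num)
    simp only [List.length_take, marks, List.length_cons, List.length_nil]
    omega
  have hlt : ∀ q : Fin 5, ∀ s ∈ (marks c.1).take (slot q c.1), s < bot c.1 :=
    fun q s hs => marks_lt c s (List.mem_of_mem_take hs)
  have hnd : ∀ q : Fin 5, ((marks c.1).take (slot q c.1)).Nodup :=
    fun q => (marks_nodup c).sublist (List.take_sublist _ _)
  have hb := bot_ge c
  have h := avL_hh (N := bot c.1) (by omega) (hlt p) (hnd p) (rank_of p c) (hlt q) (hnd q)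
    (rank_of q c)
  rw [hs, hs] at h
  exact h

theorem cav_eval (p q r : Fin 5) (c : Cell) :
    cav (vtx p (c, 1)) (vtx q (c, 1)) (vtx r (c, 1)) =
      (zz p q r c.1 : ℝ) / (2 * lev p c.1 * lev q c.1 * lev r c.1) := by
  have hp := lev_pos p c
  have hq := lev_pos q c
  have hr := lev_pos r c
  rw [vtx_eq, vtx_eq, vtx_eq, cav_mk hp hq hr]
  have h1 := av_lk p q c
  have h2 := av_lk q r c
  have h3 := av_lk p r c
  set gp := (expLift (bot c.1) ((marks c.1).take (slot p c.1)))⁻¹
  set gq := (expLift (bot c.1) ((marks c.1).take (slot q c.1)))⁻¹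
  set gr := (expLift (bot c.1) ((marks c.1).take (slot r c.1)))⁻¹
  have e : (avL (lev p c.1) gp fun a => avL (lev q c.1) gq fun b => avL (lev r c.1) gr fun d =>
      orr a b d) =
      (avL (lev p c.1) gp fun a => avL (lev q c.1) gq fun b => hh (b - a)) +
      (avL (lev q c.1) gq fun b => avL (lev r c.1) gr fun d => hh (d - b)) -
      (avL (lev p c.1) gp fun a => avL (lev r c.1) gr fun d => hh (d - a)) := by
    have f1 : (avL (lev p c.1) gp fun a => avL (lev q c.1) gq fun b => hh (b - a)) =
        avL (lev p c.1) gp fun a => avL (lev q c.1) gq fun b => avL (lev r c.1) gr fun _ =>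
          hh (b - a) := by
      simp only [avL_const hr]
    have f2 : (avL (lev q c.1) gq fun b => avL (lev r c.1) gr fun d => hh (d - b)) =
        avL (lev p c.1) gp fun _ => avL (lev q c.1) gq fun b => avL (lev r c.1) gr fun d =>
          hh (d - b) := by
      simp only [avL_const hp]
    have f3 : (avL (lev p c.1) gp fun a => avL (lev r c.1) gr fun d => hh (d - a)) =
        avL (lev p c.1) gp fun a => avL (lev q c.1) gq fun _ => avL (lev r c.1) gr fun d =>
          hh (d - a) := by
      simp only [avL_const hq]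
    rw [f1, f2, f3]
    simp only [← avL_sub, ← avL_add]
    rfl
  rw [e, h1, h2, h3]
  have hp' : (lev p c.1 : ℝ) ≠ 0 := by positivity
  have hq' : (lev q c.1 : ℝ) ≠ 0 := by positivity
  have hr' : (lev r c.1 : ℝ) ≠ 0 := by positivity
  unfold zz
  push_cast
  field_simp

/-- weight of a cell in the total sum -/
def wt (c : ℕ) : ℕ := 332640 / (lev 0 c * lev 1 c * lev 2 c * lev 3 c * lev 4 c)

theorem check_wt : (cellCodes.all fun c =>
    decide (lev 2 c = 7 ∧ lev 0 c * lev 1 c * lev 2 c * lev 3 c * lev 4 c * wt c = 332640)) =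
      true := by
  decide +kernel

theorem total_sum :
    (cellCodes.map fun c => sgnCode c * zz 0 1 2 c * zz 2 3 4 c * wt c).sum = 168 := by
  decide +kernel

/-- the contribution of a cell -/
def cellContrib (c : Cell) : ℝ :=
  cav (vtx 0 (c, 1)) (vtx 1 (c, 1)) (vtx 2 (c, 1)) *
    cav (vtx 2 (c, 1)) (vtx 3 (c, 1)) (vtx 4 (c, 1))

theorem cellContrib_eq (c : Cell) :
    cellContrib c = (zz 0 1 2 c.1 * zz 2 3 4 c.1 * wt c.1 : ℤ) / (28 * 332640) := by
  have hw := of_decide_eq_true ((List.all_eq_true.1 check_wt) c.1 c.2)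
  obtain ⟨h7, hw⟩ := hw
  unfold cellContrib
  rw [cav_eval, cav_eval]
  have h0 : (lev 0 c.1 : ℝ) ≠ 0 := by have := lev_pos 0 c; positivity
  have h1 : (lev 1 c.1 : ℝ) ≠ 0 := by have := lev_pos 1 c; positivity
  have h3 : (lev 3 c.1 : ℝ) ≠ 0 := by have := lev_pos 3 c; positivity
  have h4 : (lev 4 c.1 : ℝ) ≠ 0 := by have := lev_pos 4 c; positivity
  have h7' : (lev 2 c.1 : ℝ) = 7 := by exact_mod_cast h7
  have hw' : (lev 0 c.1 : ℝ) * lev 1 c.1 * lev 2 c.1 * lev 3 c.1 * lev 4 c.1 * wt c.1 = 332640 := by
    exact_mod_cast hw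
  rw [h7'] at hw'
  have v0 : ((0 : Fin 5) : ℕ) = 0 := rfl
  have v1 : ((1 : Fin 5) : ℕ) = 1 := rfl
  have v2 : ((2 : Fin 5) : ℕ) = 2 := rfl
  have v3 : ((3 : Fin 5) : ℕ) = 3 := rfl
  have v4 : ((4 : Fin 5) : ℕ) = 4 := rfl
  rw [v0, v1, v2, v3, v4, h7', ← hw']
  push_cast
  have hwt : (wt c.1 : ℝ) ≠ 0 := by
    intro h
    rw [h, mul_zero] at hw'
    norm_num at hw'
  field_simp
  ring

theorem sum_cellContrib : ∑ c : Cell, (c.sgn : ℝ) * cellContrib c = 168 / (28 * 332640) := by
  have h1 : ∀ c : Cell, (c.sgn : ℝ) * cellContrib c =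
      ((sgnCode c.1 * zz 0 1 2 c.1 * zz 2 3 4 c.1 * wt c.1 : ℤ) : ℝ) / (28 * 332640) := by
    intro c
    rw [cellContrib_eq]
    unfold Cell.sgn
    push_cast
    ring
  have h2 : ∑ c : Cell, (sgnCode c.1 * zz 0 1 2 c.1 * zz 2 3 4 c.1 * wt c.1 : ℤ) =
      (cellCodes.map fun c => sgnCode c * zz 0 1 2 c * zz 2 3 4 c * wt c).sum := by
    rw [← List.sum_toFinset _ cellCodes_nodup]
    exact (Finset.sum_subtype cellCodes.toFinset (fun x => List.mem_toFinset)
      (fun c => (sgnCode c * zz 0 1 2 c * zz 2 3 4 c * wt c : ℤ))).symm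
  have h3 : ∑ c : Cell, ((sgnCode c.1 * zz 0 1 2 c.1 * zz 2 3 4 c.1 * wt c.1 : ℤ) : ℝ) = 168 := by
    rw [← Int.cast_sum, h2, total_sum]
    norm_num
  rw [Finset.sum_congr rfl fun c _ => h1 c, ← Finset.sum_div, h3]

/-! ### connectedness of the gluing of the cells -/

/-- parents in a spanning tree of the cells -/
def parentTable : List (ℕ × ℕ) :=
  [(5234, 5123), (5412, 5123), (5213, 5123), (5132, 5123), (5124, 5123), (5312, 5234),
   (5324, 5234), (5243, 5234), (5231, 5234), (6341, 5412), (5142, 5412), (5421, 5412),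
   (5413, 5412), (5341, 5213), (5214, 5213), (5134, 5132), (6134, 5124), (5423, 5312),
   (5321, 5312), (5314, 5312), (5241, 5324), (5342, 5324), (7153, 6341), (6314, 6341),
   (6431, 6341), (5431, 5142), (5143, 5142), (6352, 5413), (6143, 5341), (6523, 5214),
   (6235, 5134), (7231, 6134), (5432, 5423), (6413, 5314), (6253, 5241), (7135, 7153),
   (7264, 7153), (7642, 7153), (7513, 7153), (6532, 5431), (6325, 5143), (7261, 6352),
   (7321, 6143), (7452, 6523), (7132, 6235), (7213, 7231), (7564, 7231), (7516, 7231),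
   (7462, 6413), (7312, 6253), (7134, 7135), (7246, 7135), (7624, 7135), (7315, 7135),
   (7263, 7264), (7542, 7264), (7531, 7642), (7235, 7513), (7621, 6325), (7216, 7261),
   (7514, 7261), (7546, 7261), (7654, 7321), (7465, 7321), (7425, 7452), (7341, 7452),
   (7123, 7132), (7561, 7213), (7156, 7516), (7426, 7462), (7351, 7462), (7325, 7462),
   (7645, 7312), (7456, 7312), (7143, 7134), (7245, 7134), (7623, 7134), (7314, 7134),
   (7524, 7246), (7236, 7263), (7541, 7263), (7431, 7542), (7532, 7531), (7253, 7531),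
   (7346, 7235), (7612, 7621), (7154, 7621), (7126, 7216), (7651, 7654), (7165, 7654),
   (7463, 7465), (7415, 7341), (7352, 7426), (7326, 7325), (7436, 7325), (7643, 7645),
   (7451, 7456), (7145, 7143), (7254, 7143), (7632, 7143), (7413, 7143), (7523, 7245),
   (7364, 7431), (7615, 7612), (7162, 7612), (7362, 7326), (7634, 7643)]

/-- the parent of a cell -/
def parentCode (c : ℕ) : ℕ :=
  match parentTable.find? (fun p => p.1 == c) with
  | some p => p.2
  | none => c

theorem check_parent : (cellCodes.all fun c =>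
    decide (parentCode c ∈ cellCodes) &&
    (decide (c = 5123) || (List.range 5).any fun j => decide (partnerCode j (parentCode c) = c)) &&
    decide (parentCode (parentCode (parentCode (parentCode (parentCode (parentCode
      (parentCode (parentCode c))))))) = 5123)) = true := by
  decide +kernel

/-- A function on cells which is invariant under the gluings is constant. -/
theorem const_of_partner {α : Type*} (N : Cell → α) (h : ∀ (j : Fin 5) c, N (c.partner j) = N c)
    (c : Cell) : N c = N ⟨5123, by decide +kernel⟩ := by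
  have hall : ∀ c : Cell, _ := fun c => (List.all_eq_true.1 check_parent) c.1 c.2
  have hmem : ∀ c : Cell, parentCode c.1 ∈ cellCodes := by
    intro c
    have := hall c
    simp only [Bool.and_eq_true, decide_eq_true_eq] at this
    exact this.1.1
  let par : Cell → Cell := fun c => ⟨parentCode c.1, hmem c⟩
  have hstep : ∀ c : Cell, N c = N (par c) := by
    intro c
    have h1 := hall c
    simp only [Bool.and_eq_true, Bool.or_eq_true, decide_eq_true_eq, List.any_eq_true,
      List.mem_range] at h1
    rcases h1.1.2 with h2 | ⟨j, hj, h2⟩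
    · have h3 : par c = c := by
        apply Subtype.ext
        change parentCode c.1 = c.1
        rw [h2]
        decide +kernel
      rw [h3]
    · have h3 : (par c).partner ⟨j, hj⟩ = c := Subtype.ext h2
      conv_lhs => rw [← h3]
      exact h _ _
  have h1 := hall c
  simp only [Bool.and_eq_true, decide_eq_true_eq] at h1
  have h3 : par (par (par (par (par (par (par (par c))))))) = ⟨5123, by decide +kernel⟩ :=
    Subtype.ext h1.2
  rw [← h3]
  rw [← hstep, ← hstep, ← hstep, ← hstep, ← hstep, ← hstep, ← hstep, ← hstep]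

end FlatCircle
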