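import Pool.Agent.Helper70.Flat.Cells

/-!
The facet gluings of the 108 cells, with their labels in the diffeomorphism group, and the
vertices of the cells.
-/

noncomputable section

namespace FlatCircle

/-- sign of a cell -/
def Cell.sgn (c : Cell) : ℤ := sgnCode c.1

theorem checkCell_of (c : Cell) : checkCell c.1 = true :=
  (List.all_eq_true.1 checkCells) c.1 c.2

theorem bot_ge (c : Cell) : 5 ≤ bot c.1 := by
  have := checkCell_of c
  simp only [checkCell, Bool.and_eq_true, decide_eq_true_eq] at this
  exact this.1.1.1.1.1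

theorem bot_le (c : Cell) : bot c.1 ≤ 7 := by
  have := checkCell_of c
  simp only [checkCell, Bool.and_eq_true, decide_eq_true_eq] at this
  exact this.1.1.1.1.2

theorem marks_lt (c : Cell) : ∀ a ∈ marks c.1, a < bot c.1 := by
  have := checkCell_of c
  simp only [checkCell, Bool.and_eq_true] at this
  intro a ha
  exact of_decide_eq_true ((List.all_eq_true.1 this.1.1.1.2) a ha)

theorem marks_pos (c : Cell) : ∀ a ∈ (marks c.1).drop 1, 0 < a := by
  have := checkCell_of c
  simp only [checkCell, Bool.and_eq_true] at this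
  intro a ha
  exact of_decide_eq_true ((List.all_eq_true.1 this.1.1.2) a ha)

theorem marks_nodup (c : Cell) : (marks c.1).Nodup := by
  have := checkCell_of c
  simp only [checkCell, Bool.and_eq_true, decide_eq_true_eq] at this
  exact this.1.2

theorem checkFacet_of (j : Fin 5) (c : Cell) : checkFacet j c.1 = true := by
  have := checkCell_of c
  simp only [checkCell, Bool.and_eq_true] at this
  exact (List.all_eq_true.1 this.2) j (List.mem_range.2 j.2)

theorem partner_partner (j : Fin 5) (c : Cell) : (c.partner j).partner j = c := by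
  have := checkFacet_of j c
  simp only [checkFacet, Bool.and_eq_true, decide_eq_true_eq] at this
  exact Subtype.ext this.1.1.1.1.2

theorem partner_sgn (j : Fin 5) (c : Cell) : (c.partner j).sgn = - c.sgn := by
  have := checkFacet_of j c
  simp only [checkFacet, Bool.and_eq_true, decide_eq_true_eq] at this
  exact this.1.1.1.2

theorem partner_frame (j : Fin 5) (c : Cell) : frame j c.1 = frame j (c.partner j).1 := by
  have := checkFacet_of j c
  simp only [checkFacet, Bool.and_eq_true, decide_eq_true_eq] at this
  exact this.1.1.2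

theorem refMark_le (j : Fin 5) (c : Cell) : refMark j c.1 ≤ frame j c.1 := by
  have := checkFacet_of j c
  simp only [checkFacet, Bool.and_eq_true, decide_eq_true_eq] at this
  exact this.1.2

theorem partner_level {j q : Fin 5} (hq : q ≠ j) (c : Cell) :
    bot c.1 + slot q c.1 = bot (c.partner j).1 + slot q (c.partner j).1 := by
  have := checkFacet_of j c
  simp only [checkFacet, Bool.and_eq_true] at this
  have h := (List.all_eq_true.1 this.2) q (List.mem_range.2 q.2)
  simp only [Bool.or_eq_true, Bool.and_eq_true, decide_eq_true_eq] at h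
  rcases h with h | h
  · exact absurd (Fin.ext h) hq
  · exact h.1

theorem partner_perm {j q : Fin 5} (hq : q ≠ j) (c : Cell) :
    (frameMarks j q (c.partner j).1).Perm ((frameMarks j q c.1).map fun a =>
      (a + (refMark j (c.partner j).1 + frame j c.1 - refMark j c.1)) % frame j c.1) := by
  have := checkFacet_of j c
  simp only [checkFacet, Bool.and_eq_true] at this
  have h := (List.all_eq_true.1 this.2) q (List.mem_range.2 q.2)
  simp only [Bool.or_eq_true, Bool.and_eq_true, decide_eq_true_eq] at h
  rcases h with h | h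
  · exact absurd (Fin.ext h) hq
  · exact List.isPerm_iff.1 h.2

/-- the insertion diffeomorphism in `Diff^∞_+(S¹)` -/
def expDiff (n : ℕ) (A : List ℕ) : CircleDiff := toCircle (expLift n A)

theorem ins_eq {n : ℕ} (hn : 2 ≤ n) : ins n = expDiff n [0] := by
  unfold ins expDiff
  congr 1
  refine dl_ext fun x => ?_
  rw [(exists_insertion n).choose_spec hn, expLift_apply hn]
  simp [expand]

/-- vertices -/
abbrev Vtx : Type := Σ n : ℕ, CircleDiff ⧸ RotGroup n

/-- the diffeomorphism attached to the vertex of colour `q` of the cell with code `c` -/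
def vtxDiff (q c : ℕ) : CircleDiff := expDiff (bot c) ((marks c).take (slot q c))

/-- the vertex of colour `q` of a translate of a cell -/
def vtx (q : Fin 5) (x : Cell × CircleDiff) : Vtx :=
  ⟨bot x.1.1 + slot q x.1.1, ((x.2 * (vtxDiff q x.1.1)⁻¹ : CircleDiff) :
    CircleDiff ⧸ RotGroup (bot x.1.1 + slot q x.1.1))⟩

theorem vtx_mk_eq {n n' : ℕ} {a a' : CircleDiff} (h : n = n') (h2 : a⁻¹ * a' ∈ RotGroup n) :
    (⟨n, (a : CircleDiff ⧸ RotGroup n)⟩ : Vtx) = ⟨n', (a' : CircleDiff ⧸ RotGroup n')⟩ := by
  subst h
  congr 1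
  exact QuotientGroup.eq.2 h2

theorem vtx_mk_eq_iff {n n' : ℕ} {a a' : CircleDiff} :
    (⟨n, (a : CircleDiff ⧸ RotGroup n)⟩ : Vtx) = ⟨n', (a' : CircleDiff ⧸ RotGroup n')⟩ ↔
      n = n' ∧ a⁻¹ * a' ∈ RotGroup n := by
  constructor
  · intro h
    rw [Sigma.mk.injEq] at h
    obtain ⟨h1, h2⟩ := h
    subst h1
    exact ⟨rfl, QuotientGroup.eq.1 (eq_of_heq h2)⟩
  · rintro ⟨h, h2⟩
    exact vtx_mk_eq h h2

theorem twist_mul (j : Fin 5) (c : Cell) : twist j c.1 * twist j (c.partner j).1 = 1 := by
  have h1 : partnerCode j (c.partner j).1 = c.1 := congrArg Subtype.val (partner_partner j c)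
  have h2 : (c.partner j).1 = partnerCode j c.1 := rfl
  simp only [twist, h1, ← partner_frame j c]
  rw [← h2]
  have h3 : ((refMark j (c.partner j).1 : ℝ) - (refMark j c.1 : ℝ)) / (frame j c.1 : ℝ) =
    - (((refMark j c.1 : ℝ) - (refMark j (c.partner j).1 : ℝ)) / (frame j c.1 : ℝ)) := by ring
  rw [h3, rot_neg]
  group

theorem facetMap_invol (j : Fin 5) (x : Cell × CircleDiff) : facetMap j (facetMap j x) = x := by
  rcases x with ⟨c, g⟩
  simp only [facetMap]
  rw [partner_partner, mul_assoc, twist_mul, mul_one]

theorem frame_ge (j : ℕ) (c : Cell) : 5 ≤ frame j c.1 := by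
  unfold frame
  have := bot_ge c
  split_ifs <;> omega

theorem frame_length {j q : Fin 5} (hq : q ≠ j) (c : Cell) :
    frame j c.1 + (frameMarks j q c.1).length = bot c.1 + slot q c.1 := by
  have h1 := bot_ge c
  have h2 := bot_le c
  have hs : slot q c.1 < 5 := Nat.mod_lt _ (by norm_num)
  have hql := q.2
  have hjl := j.2
  have hqj : (q:ℕ) ≠ j := fun h => hq (Fin.ext h)
  unfold frame frameMarks
  split_ifs with h
  · have hs0 : slot q c.1 ≠ 0 := by
      unfold slot at h ⊢
      omega
    simp only [List.length_map, List.length_drop, List.length_take, marks, List.length_cons,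
      List.length_nil]
    omega
  · simp only [List.length_take, marks, List.length_cons, List.length_nil]
    omega

theorem vtxDiff_eq {j q : Fin 5} (hq : q ≠ j) (c : Cell) :
    vtxDiff q c.1 = expDiff (frame j c.1) (frameMarks j q c.1) * frameChange j c.1 := by
  have h1 := bot_ge c
  have h2 := bot_le c
  have hql := q.2
  have hjl := j.2
  have hqj : (q:ℕ) ≠ j := fun h => hq (Fin.ext h)
  unfold vtxDiff frame frameMarks frameChange
  split_ifs with h
  · have hs0 : slot q c.1 ≠ 0 := by
      unfold slot at h ⊢
      omega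
    obtain ⟨k, hk⟩ : ∃ k, slot q c.1 = k + 1 := ⟨slot q c.1 - 1, by omega⟩
    have e1 : (marks c.1).take (k + 1) = 0 :: ((marks c.1).drop 1).take k := by
      simp [marks, List.take]
    rw [hk, e1, ins_eq (by omega)]
    simp only [expDiff]
    rw [expLift_comp (by omega), map_mul]
    · simp
    · intro s hs
      have hs' : s ∈ (marks c.1).drop 1 := List.mem_of_mem_take hs
      exact ⟨marks_pos c s hs', marks_lt c s (List.mem_of_mem_drop hs')⟩
  · rw [mul_one]

theorem vtx_facetMap {j q : Fin 5} (hq : q ≠ j) (x : Cell × CircleDiff) :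
    vtx q (facetMap j x) = vtx q x := by
  rcases x with ⟨c, g⟩
  symm
  simp only [vtx, facetMap]
  refine vtx_mk_eq (partner_level hq c) ?_
  have hm := frame_ge j c
  have hmpos : (0:ℝ) < frame j c.1 := by positivity
  rw [vtxDiff_eq hq c, vtxDiff_eq hq (c.partner j), ← partner_frame j c]
  have hcos := expLift_coset (n := frame j c.1) (by omega)
    (refMark j (c.partner j).1 + frame j c.1 - refMark j c.1)
    (frameMarks j q c.1) (frameMarks j q (c.partner j).1) (partner_perm hq c)
  rw [frame_length hq c] at hcos
  have hrot : rot (-(((refMark j (c.partner j).1 + frame j c.1 - refMark j c.1 : ℕ) : ℝ) /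
      (frame j c.1 : ℝ))) =
      rot (((refMark j c.1 : ℝ) - (refMark j (partnerCode j c.1) : ℝ)) / (frame j c.1 : ℝ)) := by
    have hle := refMark_le j c
    have e1 : -(((refMark j (c.partner j).1 + frame j c.1 - refMark j c.1 : ℕ) : ℝ) /
      (frame j c.1 : ℝ)) =
      ((refMark j c.1 : ℝ) - (refMark j (partnerCode j c.1) : ℝ)) / (frame j c.1 : ℝ) +
        ((-1 : ℤ) : ℝ) := by
      rw [Nat.cast_sub (by omega)]
      have : (c.partner j).1 = partnerCode j c.1 := rfl
      rw [this]
      push_cast
      field_simp
      ring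
    rw [e1, rot_add, rot_int, mul_one]
  rw [hrot] at hcos
  have : (c.partner j).1 = partnerCode j c.1 := rfl
  convert hcos using 1
  simp only [twist, expDiff, this]
  group

end FlatCircle
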