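import Pool.Agent.Helper70.Flat.Permuto

/-!
Gluing copies of the permutohedron along a system of commuting involutions: the result is a
four-manifold.
-/

open Set Topology

noncomputable section

namespace FlatCircle

variable {U : Type*}

/-- the underlying point of the permutohedron -/
def Glued.pt {Φ : Fct → U → U} : Glued Φ → Permuto :=
  Quot.lift (fun x => x.2) fun _ _ h => h.1.symm

theorem Glued.ind {Φ : Fct → U → U} {P : Glued Φ → Prop} (h : ∀ u p, P (Glued.mk Φ u p))
    (x : Glued Φ) : P x := Quot.ind (fun y => h y.1 y.2) x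

@[simp] theorem Glued.pt_mk {Φ : Fct → U → U} (u : U) (p : Permuto) :
    (Glued.mk Φ u p).pt = p := rfl

theorem Glued.continuous_pt {Φ : Fct → U → U} : Continuous (Glued.pt (Φ := Φ)) :=
  (Glued.isQuotientMap Φ).continuous_iff.2 (continuous_sigma fun _ => continuous_id)

/-- Gluing data: involutions attached to the facets, which commute when the facets meet, and
parities. -/
structure GlueData (U : Type*) where
  Φ : Fct → U → U
  t : U → Fin 4 → Bool
  invol : ∀ ω u, Φ ω (Φ ω u) = u
  comm : ∀ γ ω u, γ.1 ⊂ ω.1 → Φ γ (Φ ω u) = Φ ω (Φ γ u)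
  t_Φ : ∀ ω u (j : Fin 4), t (Φ ω u) j = if (j : ℕ) + 1 = ω.1.card then !t u j else t u j

/-- apply a map or not -/
def apb (b : Bool) (f : U → U) (u : U) : U := if b then f u else u

theorem apb_apb {f : U → U} (hf : ∀ u, f (f u) = u) (b c : Bool) (u : U) :
    apb b f (apb c f u) = apb (xor b c) f u := by
  cases b <;> cases c <;> simp [apb, hf]

theorem apb_comm {f g : U → U} (h : ∀ u, f (g u) = g (f u)) (b c : Bool) (u : U) :
    apb b f (apb c g u) = apb c g (apb b f u) := by
  cases b <;> cases c <;> simp [apb, h]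

namespace GlueData

variable (D : GlueData U)

/-- the action of `(ℤ/2)⁴` attached to a vertex of the permutohedron -/
def act (π : Equiv.Perm (Fin 5)) (b : Fin 4 → Bool) (u : U) : U :=
  apb (b 0) (D.Φ (flag π 0)) (apb (b 1) (D.Φ (flag π 1))
    (apb (b 2) (D.Φ (flag π 2)) (apb (b 3) (D.Φ (flag π 3)) u)))

theorem comm_flag (π : Equiv.Perm (Fin 5)) {j k : Fin 4} (h : j ≠ k) (u : U) :
    D.Φ (flag π j) (D.Φ (flag π k) u) = D.Φ (flag π k) (D.Φ (flag π j) u) := by
  rcases lt_or_gt_of_ne h with h | h
  · exact D.comm _ _ _ (flag_ssubset h)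
  · exact (D.comm _ _ _ (flag_ssubset h)).symm

theorem act_act (π : Equiv.Perm (Fin 5)) (b c : Fin 4 → Bool) (u : U) :
    D.act π b (D.act π c u) = D.act π (fun j => xor (b j) (c j)) u := by
  unfold act
  have hc : ∀ {j k : Fin 4} (_ : j ≠ k) (b c : Bool) (u : U),
      apb b (D.Φ (flag π j)) (apb c (D.Φ (flag π k)) u) =
      apb c (D.Φ (flag π k)) (apb b (D.Φ (flag π j)) u) :=
    fun h b c u => apb_comm (D.comm_flag π h) b c u
  have hi : ∀ (j : Fin 4) (b c : Bool) (u : U),
      apb b (D.Φ (flag π j)) (apb c (D.Φ (flag π j)) u) = apb (xor b c) (D.Φ (flag π j)) u :=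
    fun j b c u => apb_apb (D.invol _) b c u
  rw [hc (j := 3) (k := 0) (by decide), hc (j := 3) (k := 1) (by decide),
    hc (j := 3) (k := 2) (by decide), hi 3,
    hc (j := 2) (k := 0) (by decide), hc (j := 2) (k := 1) (by decide), hi 2,
    hc (j := 1) (k := 0) (by decide), hi 1, hi 0]

theorem act_zero (π : Equiv.Perm (Fin 5)) (u : U) : D.act π (fun _ => false) u = u := rfl

theorem act_single (π : Equiv.Perm (Fin 5)) (j : Fin 4) (u : U) :
    D.act π (fun k => decide (k = j)) u = D.Φ (flag π j) u := by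
  fin_cases j <;> simp [act, apb]

theorem t_apb (π : Equiv.Perm (Fin 5)) (b : Bool) (j k : Fin 4) (u : U) :
    D.t (apb b (D.Φ (flag π j)) u) k = xor (b && decide (k = j)) (D.t u k) := by
  cases b
  · simp [apb]
  · simp only [apb, if_true, D.t_Φ, card_flag, Bool.true_and]
    by_cases h : k = j
    · subst h; simp
    · have : ¬ ((k : ℕ) = j) := fun h' => h (Fin.ext (by omega))
      simp [h, this]

theorem t_act (π : Equiv.Perm (Fin 5)) (b : Fin 4 → Bool) (u : U) (k : Fin 4) :
    D.t (D.act π b u) k = xor (b k) (D.t u k) := by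
  unfold act
  simp only [t_apb]
  fin_cases k <;> simp

/-- acting with facets through the point does not change the glued point -/
theorem mk_act (π : Equiv.Perm (Fin 5)) (b : Fin 4 → Bool) (u : U) (p : Permuto)
    (h : ∀ j, b j = true → ell (flag π j).1 p = 0) :
    Glued.mk D.Φ (D.act π b u) p = Glued.mk D.Φ u p := by
  have key : ∀ (j : Fin 4) (v : U), Glued.mk D.Φ (apb (b j) (D.Φ (flag π j)) v) p =
      Glued.mk D.Φ v p := by
    intro j v
    cases hb : b j
    · rfl
    · exact Glued.sound (h j hb) v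
  unfold act
  rw [key, key, key, key]

/-! ### charts -/

/-- the sign of a Boolean -/
def sg (b : Bool) : ℝ := if b then -1 else 1

theorem sg_sq (b : Bool) : sg b * sg b = 1 := by cases b <;> simp [sg]

theorem sg_ne_zero (b : Bool) : sg b ≠ 0 := by cases b <;> simp [sg]

theorem sg_xor (a b : Bool) : sg (xor a b) = sg a * sg b := by
  cases a <;> cases b <;> simp [sg]

/-- parity of `u` relative to `u₀` -/
def par (u₀ u : U) (j : Fin 4) : Bool := xor (D.t u j) (D.t u₀ j)

theorem par_act (π : Equiv.Perm (Fin 5)) (u₀ u : U) (b : Fin 4 → Bool) (j : Fin 4) :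
    D.par u₀ (D.act π b u) j = xor (b j) (D.par u₀ u j) := by
  simp only [par, t_act, Bool.xor_assoc]

theorem act_par_act (π : Equiv.Perm (Fin 5)) (u₀ u : U) (b : Fin 4 → Bool) :
    D.act π (D.par u₀ (D.act π b u)) (D.act π b u) = D.act π (D.par u₀ u) u := by
  rw [act_act]
  congr 1
  funext j
  rw [par_act]
  cases b j <;> simp

theorem par_Φ (π : Equiv.Perm (Fin 5)) (u₀ u : U) (j k : Fin 4) :
    D.par u₀ (D.Φ (flag π j) u) k = xor (decide (k = j)) (D.par u₀ u k) := by
  rw [← act_single, par_act]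

/-- domain of the chart at the vertex `π` of the copy `u₀` -/
def chartSource (π : Equiv.Perm (Fin 5)) (u₀ : U) : Set (Glued D.Φ) :=
  {x | Quot.lift (fun x : Σ _ : U, Permuto => x.2 ∈ star π ∧ D.act π (D.par u₀ x.1) x.1 = u₀)
    (by
      rintro ⟨u, p⟩ ⟨v, q⟩ ⟨h1, ω, h2, h3⟩
      simp only at h1 h2 h3
      subst h1 h3
      simp only [eq_iff_iff, and_congr_right_iff]
      intro hp
      obtain ⟨j, rfl⟩ := hp ω h2
      rw [← D.act_single π j u, act_par_act]) x}

theorem mk_mem_chartSource {π : Equiv.Perm (Fin 5)} {u₀ u : U} {p : Permuto} :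
    Glued.mk D.Φ u p ∈ D.chartSource π u₀ ↔ p ∈ star π ∧ D.act π (D.par u₀ u) u = u₀ := Iff.rfl

/-- the coordinates of the chart at the vertex `π` of the copy `u₀` -/
def coord (π : Equiv.Perm (Fin 5)) (u₀ : U) (x : Glued D.Φ) : Fin 4 → ℝ :=
  open Classical in
  Quot.lift (fun x : Σ _ : U, Permuto =>
    if x.2 ∈ star π then fun j => sg (D.par u₀ x.1 j) * √(ell (flag π j).1 x.2) else 0)
    (by
      rintro ⟨u, p⟩ ⟨v, q⟩ ⟨h1, ω, h2, h3⟩
      simp only at h1 h2 h3
      subst h1 h3
      by_cases hp : q ∈ star π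
      · simp only [hp, if_true]
        obtain ⟨j, rfl⟩ := hp ω h2
        funext k
        rw [par_Φ]
        by_cases hk : k = j
        · subst hk; simp [h2]
        · simp [hk]
      · simp [hp]) x

theorem coord_mk {π : Equiv.Perm (Fin 5)} {u₀ u : U} {p : Permuto} (hp : p ∈ star π)
    (j : Fin 4) :
    D.coord π u₀ (Glued.mk D.Φ u p) j = sg (D.par u₀ u j) * √(ell (flag π j).1 p) := by
  have h := congrFun (@if_pos (p ∈ star π) (Classical.propDecidable _) hp (Fin 4 → ℝ)
    (fun j => sg (D.par u₀ u j) * √(ell (flag π j).1 p)) 0) j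
  exact h

end GlueData

/-- the range of the coordinates at the vertex `π` -/
def coordRange (π : Equiv.Perm (Fin 5)) : Set (Fin 4 → ℝ) :=
  {x | ∀ ω : Fct, (∀ j, ω ≠ flag π j) → 0 < ell ω.1 (affInv π fun j => x j ^ 2)}

theorem isOpen_coordRange (π : Equiv.Perm (Fin 5)) : IsOpen (coordRange π) := by
  have : coordRange π = ⋂ ω : Fct,
      {x | (∀ j, ω ≠ flag π j) → 0 < ell ω.1 (affInv π fun j => x j ^ 2)} := by
    ext x; simp [coordRange]
  rw [this]
  refine isOpen_iInter_of_finite fun ω => ?_
  by_cases h : ∀ j, ω ≠ flag π j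
  · have hc : Continuous fun x : Fin 4 → ℝ => ell ω.1 (affInv π fun j => x j ^ 2) :=
      (continuous_ell _).comp ((continuous_affInv π).comp (by fun_prop))
    have e : {x : Fin 4 → ℝ | (∀ j, ω ≠ flag π j) → 0 < ell ω.1 (affInv π fun j => x j ^ 2)} =
        {x | 0 < ell ω.1 (affInv π fun j => x j ^ 2)} := by
      ext x
      exact ⟨fun h' => h' h, fun h' _ => h'⟩
    rw [e]
    exact isOpen_lt continuous_const hc
  · have e : {x : Fin 4 → ℝ | (∀ j, ω ≠ flag π j) → 0 < ell ω.1 (affInv π fun j => x j ^ 2)} =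
        Set.univ := by
      ext x
      exact ⟨fun _ => trivial, fun _ h' => absurd h' h⟩
    rw [e]
    exact isOpen_univ

theorem affInv_mem_permuto {π : Equiv.Perm (Fin 5)} {x : Fin 4 → ℝ} (hx : x ∈ coordRange π) :
    (affInv π fun j => x j ^ 2) ∈ Permuto := by
  refine ⟨sum_affInv _ _, fun ω => ?_⟩
  by_cases h0 : ω.Nonempty
  · by_cases h1 : ω = Finset.univ
    · subst h1
      simp only [ell, sum_affInv, Finset.card_univ, Fintype.card_fin]
      norm_num
    · by_cases h2 : ∃ j, (⟨ω, h0, h1⟩ : Fct) = flag π j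
      · obtain ⟨j, hj⟩ := h2
        have : ω = (flag π j).1 := congrArg Subtype.val hj
        rw [this, ell_flag_affInv]
        positivity
      · push Not at h2
        exact (hx ⟨ω, h0, h1⟩ h2).le
  · rw [Finset.not_nonempty_iff_eq_empty] at h0
    subst h0
    simp [ell]

/-- the point of the permutohedron with given coordinates; some point if there is none -/
def coordPt (π : Equiv.Perm (Fin 5)) (x : Fin 4 → ℝ) : Permuto :=
  open Classical in
  if h : (affInv π fun j => x j ^ 2) ∈ Permuto then ⟨_, h⟩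
  else ⟨fun _ => 2, by simp; norm_num, fun ω => by
    simp only [ell, Finset.sum_const, nsmul_eq_mul]
    have : ω.card ≤ 5 := by simpa using Finset.card_le_univ ω
    have h5 : (ω.card : ℝ) ≤ 5 := by exact_mod_cast this
    have h0 : (0:ℝ) ≤ ω.card := by positivity
    nlinarith⟩

theorem coordPt_coe {π : Equiv.Perm (Fin 5)} {x : Fin 4 → ℝ} (hx : x ∈ coordRange π) :
    (coordPt π x : Fin 5 → ℝ) = affInv π fun j => x j ^ 2 := by
  unfold coordPt
  rw [dif_pos (affInv_mem_permuto hx)]

theorem coordPt_mem_star {π : Equiv.Perm (Fin 5)} {x : Fin 4 → ℝ} (hx : x ∈ coordRange π) :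
    coordPt π x ∈ star π := by
  intro ω hω
  rw [coordPt_coe hx] at hω
  by_contra hcon
  push Not at hcon
  exact (hx ω hcon).ne' hω

theorem ell_coordPt {π : Equiv.Perm (Fin 5)} {x : Fin 4 → ℝ} (hx : x ∈ coordRange π)
    (j : Fin 4) : ell (flag π j).1 (coordPt π x) = x j ^ 2 := by
  rw [coordPt_coe hx, ell_flag_affInv]

theorem continuousOn_coordPt (π : Equiv.Perm (Fin 5)) :
    ContinuousOn (coordPt π) (coordRange π) := by
  rw [continuousOn_iff_continuous_domRestrict, continuous_induced_rng]
  have : (Subtype.val ∘ (coordRange π).domRestrict (coordPt π)) =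
      fun x : coordRange π => affInv π fun j => (x : Fin 4 → ℝ) j ^ 2 := by
    funext x
    exact coordPt_coe x.2
  rw [this]
  exact (continuous_affInv π).comp (continuous_pi fun j =>
    ((continuous_apply j).comp continuous_subtype_val).pow 2)

namespace GlueData

variable (D : GlueData U)

/-- negative coordinates -/
def neg (x : Fin 4 → ℝ) (j : Fin 4) : Bool := open Classical in decide (x j < 0)

theorem sg_neg_mul_abs (x : Fin 4 → ℝ) (j : Fin 4) : sg (neg x j) * |x j| = x j := by
  unfold neg sg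
  by_cases h : x j < 0
  · simp [h, abs_of_neg h]
  · simp [h, abs_of_nonneg (not_lt.1 h)]

/-- the inverse chart -/
def coordInv (π : Equiv.Perm (Fin 5)) (u₀ : U) (x : Fin 4 → ℝ) : Glued D.Φ :=
  Glued.mk D.Φ (D.act π (neg x) u₀) (coordPt π x)

theorem act_par_self (π : Equiv.Perm (Fin 5)) (u₀ : U) (b : Fin 4 → Bool) :
    D.act π (D.par u₀ (D.act π b u₀)) (D.act π b u₀) = u₀ := by
  rw [act_par_act]
  have : D.par u₀ u₀ = fun _ => false := by funext j; simp [par]
  rw [this, act_zero]

theorem continuousOn_coordInv (π : Equiv.Perm (Fin 5)) (u₀ : U) :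
    ContinuousOn (D.coordInv π u₀) (coordRange π) := by
  intro x₀ hx₀
  have hcont : ∀ b : Fin 4 → Bool,
      ContinuousWithinAt (fun x => Glued.mk D.Φ (D.act π b u₀) (coordPt π x)) (coordRange π) x₀ :=
    fun b => (Glued.continuous_mk D.Φ _).continuousAt.comp_continuousWithinAt
      (continuousOn_coordPt π x₀ hx₀)
  intro W hW
  rw [Filter.mem_map]
  -- boolean vectors compatible with x₀
  have h1 : ∀ᶠ x in 𝓝[coordRange π] x₀, ∀ b : Fin 4 → Bool,
      (∀ j, x₀ j ≠ 0 → b j = neg x₀ j) →
      Glued.mk D.Φ (D.act π b u₀) (coordPt π x) ∈ W := by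
    rw [Filter.eventually_all]
    intro b
    by_cases hb : ∀ j, x₀ j ≠ 0 → b j = neg x₀ j
    · have hval : Glued.mk D.Φ (D.act π b u₀) (coordPt π x₀) = D.coordInv π u₀ x₀ := by
        unfold coordInv
        have e : D.act π b u₀ = D.act π (fun j => xor (b j) (neg x₀ j)) (D.act π (neg x₀) u₀) := by
          rw [act_act]
          congr 1
          funext j
          cases b j <;> cases neg x₀ j <;> rfl
        rw [e]
        apply D.mk_act
        intro j hj
        have : x₀ j = 0 := by
          by_contra hne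
          rw [hb j hne] at hj
          simp at hj
        rw [ell_coordPt hx₀, this]
        norm_num
      have := hcont b
      rw [ContinuousWithinAt, hval] at this
      filter_upwards [this hW] with x hx _
      exact hx
    · filter_upwards with x h
      exact absurd h hb
  have h2 : ∀ᶠ x in 𝓝[coordRange π] x₀, ∀ j, x₀ j ≠ 0 → neg x j = neg x₀ j := by
    apply mem_nhdsWithin_of_mem_nhds
    change ∀ᶠ x in 𝓝 x₀, ∀ j, x₀ j ≠ 0 → neg x j = neg x₀ j
    rw [Filter.eventually_all]
    intro j
    by_cases hj : x₀ j = 0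
    · filter_upwards with x h
      exact absurd hj h
    · rcases lt_or_gt_of_ne hj with h | h
      · have : ∀ᶠ x : Fin 4 → ℝ in 𝓝 x₀, x j < 0 :=
          (continuous_apply j).continuousAt.eventually (Iio_mem_nhds h)
        filter_upwards [this] with x hx _
        simp [neg, hx, h]
      · have : ∀ᶠ x : Fin 4 → ℝ in 𝓝 x₀, 0 < x j :=
          (continuous_apply j).continuousAt.eventually (Ioi_mem_nhds h)
        filter_upwards [this] with x hx _
        simp [neg, not_lt.2 hx.le, not_lt.2 h.le]
  filter_upwards [h1, h2] with x hx1 hx2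
  exact hx1 (neg x) hx2

theorem isOpen_chartSource (π : Equiv.Perm (Fin 5)) (u₀ : U) : IsOpen (D.chartSource π u₀) := by
  rw [← (Glued.isQuotientMap D.Φ).isOpen_preimage, isOpen_sigma_iff]
  intro u
  have : Sigma.mk u ⁻¹' ((fun x : Σ _ : U, Permuto => Glued.mk D.Φ x.1 x.2) ⁻¹'
      D.chartSource π u₀) = {p | p ∈ star π ∧ D.act π (D.par u₀ u) u = u₀} := rfl
  rw [this]
  by_cases h : D.act π (D.par u₀ u) u = u₀
  · simp only [h, and_true]
    exact isOpen_star π
  · simp [h]

theorem continuousOn_coord (π : Equiv.Perm (Fin 5)) (u₀ : U) :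
    ContinuousOn (D.coord π u₀) (D.chartSource π u₀) := by
  rw [(Glued.isQuotientMap D.Φ).continuousOn_isOpen_iff (D.isOpen_chartSource π u₀)]
  have hc : Continuous fun x : Σ _ : U, Permuto =>
      (fun j => sg (D.par u₀ x.1 j) * √(ell (flag π j).1 x.2) : Fin 4 → ℝ) := by
    refine continuous_sigma fun u => continuous_pi fun j => ?_
    have : Continuous fun p : Permuto => ell (flag π j).1 p :=
      (continuous_ell _).comp continuous_subtype_val
    change Continuous fun p : Permuto => sg (D.par u₀ u j) * √(ell (flag π j).1 p)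
    exact this.sqrt.const_mul _
  refine hc.continuousOn.congr ?_
  rintro ⟨u, p⟩ h
  funext j
  exact D.coord_mk h.1 j

/-- the chart at the vertex `π` of the copy `u₀` -/
def chart (π : Equiv.Perm (Fin 5)) (u₀ : U) : OpenPartialHomeomorph (Glued D.Φ) (Fin 4 → ℝ) where
  toFun := D.coord π u₀
  invFun := D.coordInv π u₀
  source := D.chartSource π u₀
  target := coordRange π
  map_source' := by
    refine Glued.ind fun u p h => ?_
    obtain ⟨hp, hu⟩ := D.mk_mem_chartSource.1 h
    intro ω hω
    have e : (fun j => D.coord π u₀ (Glued.mk D.Φ u p) j ^ 2) = fun j => ell (flag π j).1 p := by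
      funext j
      rw [D.coord_mk hp, mul_pow, sq, sg_sq, one_mul, Real.sq_sqrt (p.2.2 _)]
    rw [e, affInv_ell π p.2.1]
    exact lt_of_le_of_ne (p.2.2 _) (fun h0 => by
      obtain ⟨j, hj⟩ := hp ω h0.symm
      exact hω j hj)
  map_target' := by
    intro x hx
    exact D.mk_mem_chartSource.2 ⟨coordPt_mem_star hx, D.act_par_self π u₀ _⟩
  left_inv' := by
    refine Glued.ind fun u p h => ?_
    obtain ⟨hp, hu⟩ := D.mk_mem_chartSource.1 h
    set x := D.coord π u₀ (Glued.mk D.Φ u p) with hx
    have e : (fun j => x j ^ 2) = fun j => ell (flag π j).1 p := by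
      funext j
      rw [hx, D.coord_mk hp, mul_pow, sq, sg_sq, one_mul, Real.sq_sqrt (p.2.2 _)]
    have hpt : coordPt π x = p := by
      apply Subtype.ext
      unfold coordPt
      have h1 : (affInv π fun j => x j ^ 2) = p := by rw [e, affInv_ell π p.2.1]
      rw [dif_pos (by rw [h1]; exact p.2)]
      exact h1
    change Glued.mk D.Φ (D.act π (neg x) u₀) (coordPt π x) = _
    rw [hpt]
    conv_lhs => rw [← hu]
    rw [act_act]
    apply D.mk_act
    intro j hj
    by_contra hne
    have hpos : 0 < √(ell (flag π j).1 p) :=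
      Real.sqrt_pos.2 (lt_of_le_of_ne (p.2.2 _) (Ne.symm hne))
    have hxj : x j = sg (D.par u₀ u j) * √(ell (flag π j).1 p) := by rw [hx, D.coord_mk hp]
    cases hpar : D.par u₀ u j
    · rw [hpar] at hxj hj
      simp only [sg, Bool.false_eq_true, if_false, one_mul] at hxj
      simp [neg, hxj, not_lt.2 hpos.le] at hj
    · rw [hpar] at hxj hj
      simp only [sg, if_true, neg_mul, one_mul] at hxj
      simp [neg, hxj, hpos] at hj
  right_inv' := by
    intro x hx
    funext j
    change D.coord π u₀ (Glued.mk D.Φ (D.act π (neg x) u₀) (coordPt π x)) j = x j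
    rw [D.coord_mk (coordPt_mem_star hx), par_act, ell_coordPt hx, Real.sqrt_sq_eq_abs]
    have : D.par u₀ u₀ j = false := by simp [par]
    rw [this, Bool.xor_false, sg_neg_mul_abs]
  continuousOn_toFun := D.continuousOn_coord π u₀
  continuousOn_invFun := D.continuousOn_coordInv π u₀
  open_source := D.isOpen_chartSource π u₀
  open_target := isOpen_coordRange π

end GlueData

end FlatCircle
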