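import Pool.Agent.Helper70.Flat.Avg
import Pool.Agent.Helper70.Flat.Euler

/-!
Holonomy of a regular covering with group `Diff^∞_+(S¹)` and comparison of its Euler cocycles
with the averaged orientation cocycle.
-/

open Set Topology

noncomputable section

namespace FlatCircle

section

variable {E X : Type*} [TopologicalSpace E] [TopologicalSpace X] [MulAction CircleDiff E]
  {p : E → X}

/-- The holonomy homomorphism `π₁(X, x₀) → Diff^∞_+(S¹)` of a regular covering `p : E → X` with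
group `Diff^∞_+(S¹)` (that is, of a principal bundle with the discrete structure group
`Diff^∞_+(S¹)`) and a base point in `E`. -/
def holonomy (hp : IsQuotientCoveringMap p CircleDiff) {x₀ : X} (e₀ : p ⁻¹' {x₀}) :
    FundamentalGroup X x₀ →* CircleDiff :=
  (MulEquiv.inv' CircleDiff).symm.toMonoidHom.comp (hp.fundamentalGroupToMulOpposite e₀)

variable (hp : IsQuotientCoveringMap p CircleDiff) {x₀ : X} (e₀ : p ⁻¹' {x₀})

theorem holonomy_apply (γ : FundamentalGroup X x₀) :
    holonomy hp e₀ γ = (MulOpposite.unop (hp.fundamentalGroupToMulOpposite e₀ γ))⁻¹ := rfl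

/-- endpoint of the lift of the reference path -/
def mhat (γ : ∀ x, Path x₀ x) (x : X) : p ⁻¹' {x} :=
  hp.isCoveringMap.monodromy (Path.Homotopic.Quotient.mk (γ x)) e₀

theorem monodromy_symm_apply {x y : X} (q : Path.Homotopic.Quotient x y) (e : p ⁻¹' {x}) :
    hp.isCoveringMap.monodromy q.symm (hp.isCoveringMap.monodromy q e) = e := by
  rw [← IsCoveringMap.monodromy_trans_apply]
  have : q.trans q.symm = Path.Homotopic.Quotient.refl x := by
    have h : ∀ (a : FundamentalGroupoid.mk x ⟶ FundamentalGroupoid.mk y),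
        CategoryTheory.CategoryStruct.comp a (CategoryTheory.Groupoid.inv a) =
          CategoryTheory.CategoryStruct.id _ := fun a => CategoryTheory.Groupoid.comp_inv a
    exact h q
  rw [this, IsCoveringMap.monodromy_refl]
  rfl

/-- the group element comparing a point of `E` with the reference point in its fibre -/
theorem exists_eta (γ : ∀ x, Path x₀ x) (a : E) :
    ∃ η : CircleDiff, a = η • (mhat hp e₀ γ (p a) : E) := by
  have h : p a = p (mhat hp e₀ γ (p a) : E) := (mhat hp e₀ γ (p a)).2.symm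
  obtain ⟨g, hg⟩ := hp.apply_eq_iff_mem_orbit.1 h
  exact ⟨g, hg.symm⟩

theorem toPermFiber_coe {x : X} (g : CircleDiff) (e : p ⁻¹' {x}) :
    ((hp.toPermFiber x g e : p ⁻¹' {x}) : E) = g • (e : E) := rfl

theorem holonomy_loopClass (γ : ∀ x, Path x₀ x) {a b : E} (q : Path a b) {η θ : CircleDiff}
    (hη : a = η • (mhat hp e₀ γ (p a) : E)) (hθ : b = θ • (mhat hp e₀ γ (p b) : E)) :
    holonomy hp e₀ (loopClass γ (q.map hp.continuous)) = θ⁻¹ * η := by
  rw [holonomy_apply]
  have key : MulOpposite.unop (hp.fundamentalGroupToMulOpposite e₀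
      (loopClass γ (q.map hp.continuous))) • (e₀ : E) = (η⁻¹ * θ) • (e₀ : E) := by
    rw [hp.unop_fundamentalGroupToMulOpposite_smul]
    have h1 : loopClass γ (q.map hp.continuous) =
        ((Path.Homotopic.Quotient.mk (γ (p a))).trans
          (Path.Homotopic.Quotient.mk (q.map hp.continuous))).trans
          (Path.Homotopic.Quotient.mk (γ (p b))).symm := by
      unfold loopClass FundamentalGroup.fromPath FundamentalGroup.fromArrow
      simp only [Path.Homotopic.Quotient.mk_trans, Path.Homotopic.Quotient.mk_symm]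
    rw [h1, IsCoveringMap.monodromy_trans_apply, IsCoveringMap.monodromy_trans_apply]
    change ((hp.isCoveringMap.monodromy (Path.Homotopic.Quotient.mk (γ (p b))).symm
      (hp.isCoveringMap.monodromy (Path.Homotopic.Quotient.mk (q.map hp.continuous))
        (mhat hp e₀ γ (p a))) : p ⁻¹' {x₀}) : E) = _
    have h2 : mhat hp e₀ γ (p a) = hp.toPermFiber (p a) η⁻¹ ⟨a, rfl⟩ := by
      apply Subtype.ext
      rw [toPermFiber_coe]
      change _ = η⁻¹ • a
      conv_rhs => rw [hη]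
      rw [smul_smul, inv_mul_cancel, one_smul]
    rw [h2, hp.monodromy_toPermFiber]
    have h3 : hp.isCoveringMap.monodromy (Path.Homotopic.Quotient.mk (q.map hp.continuous))
        ⟨a, rfl⟩ = ⟨b, rfl⟩ := hp.isCoveringMap.monodromy_map (Path.Homotopic.Quotient.mk q)
    rw [h3]
    have h4 : (⟨b, rfl⟩ : p ⁻¹' {p b}) = hp.toPermFiber (p b) θ (mhat hp e₀ γ (p b)) := by
      apply Subtype.ext
      rw [toPermFiber_coe]
      exact hθ
    rw [h4, hp.monodromy_toPermFiber, hp.monodromy_toPermFiber]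
    rw [toPermFiber_coe, toPermFiber_coe]
    unfold mhat
    rw [monodromy_symm_apply hp, smul_smul]
  have := hp.isCancelSMul.right_cancel _ _ _ key
  rw [this]
  group

/-! ### the comparison cochain -/

/-- the comparison one-cochain -/
def compA (V : E → Vtx) (γ : ∀ x, Path x₀ x) (L : Sing 1 X → DiffLift) (e : Sing 1 X) : ℝ :=
  av (V (mhat hp e₀ γ (e (vert 0)))) fun a => av (V (mhat hp e₀ γ (e (vert 1)))) fun b =>
    hh ((L e)⁻¹ b - a)

theorem vtx_smul_rep (v : Vtx) (g : DiffLift) (h : CircleDiff) (hg : toCircle g = h) :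
    h • v = ⟨v.1, (toCircle (g * rep v) : CircleDiff ⧸ RotGroup v.1)⟩ := by
  subst hg
  conv_lhs => rw [rep_spec v]
  rfl

/-- composition of a singular simplex with a map -/
def Sing.push {n : ℕ} (σ : Sing n E) (f : C(E, X)) : Sing n X := f.comp σ

theorem euler_compare (V : E → Vtx) (hV : ∀ (g : CircleDiff) a, V (g • a) = g • V a)
    (hpos : ∀ a, 0 < (V a).1) {γ : ∀ x, Path x₀ x} {L : Sing 1 X → DiffLift} {c : Sing 2 X → ℤ}
    (hL : ∀ e, toCircle (L e) = holonomy hp e₀ (loopClass γ (edgePath e)))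
    (hc : ∀ σ, L (σ.sub ![1, 2]) * L (σ.sub ![0, 1]) = transl (c σ) * L (σ.sub ![0, 2]))
    (σ : Sing 2 E) :
    (c (σ.push ⟨p, hp.continuous⟩) : ℝ) =
      cav (V (σ (vert 0))) (V (σ (vert 1))) (V (σ (vert 2))) -
      (compA hp e₀ V γ L ((σ.push ⟨p, hp.continuous⟩).sub ![0, 1]) +
       compA hp e₀ V γ L ((σ.push ⟨p, hp.continuous⟩).sub ![1, 2]) -
       compA hp e₀ V γ L ((σ.push ⟨p, hp.continuous⟩).sub ![0, 2])) := by
  set τ : Sing 2 X := σ.push ⟨p, hp.continuous⟩ with hτ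
  have hτv : ∀ i, τ (vert i) = p (σ (vert i)) := fun i => rfl
  choose η hη using fun i : Fin 3 => exists_eta hp e₀ γ (σ (vert i))
  have hloop : ∀ i j : Fin 3, toCircle (L (τ.sub ![i, j])) = (η j)⁻¹ * η i := by
    intro i j
    rw [hL, loopClass_sub]
    exact holonomy_loopClass hp e₀ γ (σ.edge i j) (hη i) (hη j)
  set v : Fin 3 → Vtx := fun i => V (mhat hp e₀ γ (p (σ (vert i)))) with hv
  have hVσ : ∀ i, V (σ (vert i)) = η i • v i := by
    intro i
    rw [hv]
    conv_lhs => rw [hη i]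
    exact hV _ _
  have hvpos : ∀ i, 0 < (v i).1 := fun i => hpos _
  have hA : ∀ i j : Fin 3, compA hp e₀ V γ L (τ.sub ![i, j]) =
      av (v i) fun a => av (v j) fun b => hh ((L (τ.sub ![i, j]))⁻¹ b - a) := by
    intro i j
    unfold compA
    have e1 : (τ.sub ![i, j]) (vert 0) = p (σ (vert i)) := by simp [hτv]
    have e2 : (τ.sub ![i, j]) (vert 1) = p (σ (vert j)) := by simp [hτv]
    rw [e1, e2]
  rw [hA, hA, hA]
  set L01 := L (τ.sub ![0, 1]) with hL01
  set L12 := L (τ.sub ![1, 2]) with hL12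
  set L02 := L (τ.sub ![0, 2]) with hL02
  have hcσ : L12 * L01 = transl (c τ) * L02 := hc τ
  have h01 : toCircle L01⁻¹ = (η 0)⁻¹ * η 1 := by rw [map_inv, hloop 0 1]; group
  have h12 : toCircle L12⁻¹ = (η 1)⁻¹ * η 2 := by rw [map_inv, hloop 1 2]; group
  have hcav : cav (V (σ (vert 0))) (V (σ (vert 1))) (V (σ (vert 2))) =
      cav (v 0) (((η 0)⁻¹ * η 1) • v 1) (((η 0)⁻¹ * η 2) • v 2) := by
    have h1 : V (σ (vert 1)) = η 0 • (((η 0)⁻¹ * η 1) • v 1) := by
      rw [hVσ, smul_smul]; congr 1; group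
    have h2 : V (σ (vert 2)) = η 0 • (((η 0)⁻¹ * η 2) • v 2) := by
      rw [hVσ, smul_smul]; congr 1; group
    rw [h1, h2, hVσ 0]
    exact cav_smul (η 0) (hvpos 0) (hvpos 1) (hvpos 2)
  rw [hcav, vtx_smul_rep (v 1) _ _ h01,
    vtx_smul_rep (v 2) (L01⁻¹ * L12⁻¹) ((η 0)⁻¹ * η 2) (by rw [map_mul, h01, h12]; group)]
  have hcav2 : cav (v 0) ⟨(v 1).1, (toCircle (L01⁻¹ * rep (v 1)) : CircleDiff ⧸ RotGroup (v 1).1)⟩
      ⟨(v 2).1, (toCircle (L01⁻¹ * L12⁻¹ * rep (v 2)) : CircleDiff ⧸ RotGroup (v 2).1)⟩ =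
      avL (v 0).1 (rep (v 0)) fun a => avL (v 1).1 (L01⁻¹ * rep (v 1)) fun b =>
      avL (v 2).1 (L01⁻¹ * L12⁻¹ * rep (v 2)) fun d => orr a b d :=
    (congrArg (fun z => cav z _ _) (rep_spec (v 0))).trans
      (cav_mk (hvpos 0) (hvpos 1) (hvpos 2) _ _ _)
  rw [hcav2]
  have hpt : ∀ a b d : ℝ, orr a ((L01⁻¹ : DiffLift) b) ((L01⁻¹ * L12⁻¹ : DiffLift) d) =
      hh ((L01⁻¹ : DiffLift) b - a) + hh ((L12⁻¹ : DiffLift) d - b) -
        hh ((L02⁻¹ : DiffLift) d - a) + c τ := by
    intro a b d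
    have e1 : (L01⁻¹ * L12⁻¹ : DiffLift) d = (L02⁻¹ : DiffLift) d + ((-(c τ) : ℤ) : ℝ) := by
      have e2 : (L01⁻¹ * L12⁻¹ : DiffLift) = L02⁻¹ * transl ((-(c τ) : ℤ) : ℝ) := by
        rw [← mul_inv_rev, hcσ, mul_inv_rev]
        congr 1
        rw [← transl_neg]
        push_cast; rfl
      rw [e2, dl_mul_apply, transl_apply, dl_add_int]
    have e3 : hh ((L01⁻¹ * L12⁻¹ : DiffLift) d - (L01⁻¹ : DiffLift) b) =
        hh ((L12⁻¹ : DiffLift) d - b) := by
      rw [dl_mul_apply, hh_lift]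
    unfold orr
    rw [e3, e1]
    have e4 : (L02⁻¹ : DiffLift) d + ((-(c τ) : ℤ) : ℝ) - a =
        ((L02⁻¹ : DiffLift) d - a) + ((-(c τ) : ℤ) : ℝ) := by ring
    rw [e4, hh_add_int]
    push_cast; ring
  have hsum : (avL (v 0).1 (rep (v 0)) fun a => avL (v 1).1 (L01⁻¹ * rep (v 1)) fun b =>
      avL (v 2).1 (L01⁻¹ * L12⁻¹ * rep (v 2)) fun d => orr a b d) =
      (av (v 0) fun a => av (v 1) fun b => hh ((L01⁻¹ : DiffLift) b - a)) +
      (av (v 1) fun b => av (v 2) fun d => hh ((L12⁻¹ : DiffLift) d - b)) -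
      (av (v 0) fun a => av (v 2) fun d => hh ((L02⁻¹ : DiffLift) d - a)) + c τ := by
    have f1 : (av (v 0) fun a => av (v 1) fun b => hh ((L01⁻¹ : DiffLift) b - a)) =
        avL (v 0).1 (rep (v 0)) fun a => avL (v 1).1 (rep (v 1)) fun b =>
          avL (v 2).1 (rep (v 2)) fun _ => hh ((L01⁻¹ : DiffLift) b - a) := by
      unfold av
      simp only [avL_const (hvpos 2)]
    have f2 : (av (v 1) fun b => av (v 2) fun d => hh ((L12⁻¹ : DiffLift) d - b)) =
        avL (v 0).1 (rep (v 0)) fun _ => avL (v 1).1 (rep (v 1)) fun b =>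
          avL (v 2).1 (rep (v 2)) fun d => hh ((L12⁻¹ : DiffLift) d - b) := by
      unfold av
      simp only [avL_const (hvpos 0)]
    have f3 : (av (v 0) fun a => av (v 2) fun d => hh ((L02⁻¹ : DiffLift) d - a)) =
        avL (v 0).1 (rep (v 0)) fun a => avL (v 1).1 (rep (v 1)) fun _ =>
          avL (v 2).1 (rep (v 2)) fun d => hh ((L02⁻¹ : DiffLift) d - a) := by
      unfold av
      simp only [avL_const (hvpos 1)]
    have f4 : (c τ : ℝ) = avL (v 0).1 (rep (v 0)) fun _ => avL (v 1).1 (rep (v 1)) fun _ =>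
        avL (v 2).1 (rep (v 2)) fun _ => (c τ : ℝ) := by
      simp only [avL_const (hvpos 0), avL_const (hvpos 1), avL_const (hvpos 2)]
    rw [f1, f2, f3]
    conv_rhs => rw [f4]
    simp only [← avL_sub, ← avL_add]
    refine avL_congr fun a => ?_
    rw [avL_mul]
    refine avL_congr fun b => ?_
    rw [avL_mul]
    refine avL_congr fun d => ?_
    exact hpt a b d
  rw [hsum]
  ring

end

end FlatCircle
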