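import Pool.Agent.Helper70.Flat.Glue

/-!
The glued space is Hausdorff, compact, path connected, and smooth.
-/

open Set Topology

noncomputable section

namespace FlatCircle

variable {U : Type*}

namespace GlueData

variable (D : GlueData U)

theorem mk_mem_self {π : Equiv.Perm (Fin 5)} {u : U} {p : Permuto} (hp : p ∈ star π) :
    Glued.mk D.Φ u p ∈ D.chartSource π u := by
  refine D.mk_mem_chartSource.2 ⟨hp, ?_⟩
  have : D.par u u = fun _ => false := by funext j; simp [par]
  rw [this, act_zero]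

theorem disjoint_chartSource {π : Equiv.Perm (Fin 5)} {u w : U} (ht : D.t u = D.t w)
    (huw : u ≠ w) : Disjoint (D.chartSource π u) (D.chartSource π w) := by
  rw [Set.disjoint_left]
  refine Glued.ind fun a q h1 h2 => ?_
  obtain ⟨-, h1⟩ := D.mk_mem_chartSource.1 h1
  obtain ⟨-, h2⟩ := D.mk_mem_chartSource.1 h2
  have : D.par w a = D.par u a := by funext j; simp [par, ht]
  rw [this, h1] at h2
  exact huw h2

instance t2Space : T2Space (Glued D.Φ) := by
  refine ⟨?_⟩
  intro x y hxy
  by_cases hpt : x.pt = y.pt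
  · revert x y
    refine Glued.ind fun u p => Glued.ind fun v q hxy hpq => ?_
    simp only [Glued.pt_mk] at hpq
    subst hpq
    set π := Tuple.sort (p : Fin 5 → ℝ) with hπ
    have hp : p ∈ star π := mem_star_sort p
    set w := D.act π (D.par u v) v with hw
    have hxs : Glued.mk D.Φ u p ∈ D.chartSource π u := D.mk_mem_self hp
    by_cases hwu : w = u
    · have hys : Glued.mk D.Φ v p ∈ D.chartSource π u := D.mk_mem_chartSource.2 ⟨hp, hwu⟩
      have hne : D.chart π u (Glued.mk D.Φ u p) ≠ D.chart π u (Glued.mk D.Φ v p) :=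
        fun h => hxy ((D.chart π u).injOn hxs hys h)
      obtain ⟨A, B, hA, hB, hxA, hyB, hAB⟩ := t2_separation hne
      refine ⟨D.chartSource π u ∩ D.chart π u ⁻¹' A, D.chartSource π u ∩ D.chart π u ⁻¹' B,
        (D.chart π u).isOpen_inter_preimage hA, (D.chart π u).isOpen_inter_preimage hB,
        ⟨hxs, hxA⟩, ⟨hys, hyB⟩, ?_⟩
      rw [Set.disjoint_left] at hAB ⊢
      exact fun z hz1 hz2 => hAB hz1.2 hz2.2
    · have htw : D.t u = D.t w := by
        funext j
        rw [hw, t_act]
        simp only [par]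
        cases D.t v j <;> cases D.t u j <;> rfl
      have hys : Glued.mk D.Φ v p ∈ D.chartSource π w := by
        refine D.mk_mem_chartSource.2 ⟨hp, ?_⟩
        have : D.par w v = D.par u v := by funext j; simp [par, htw]
        rw [this]
      exact ⟨_, _, D.isOpen_chartSource π u, D.isOpen_chartSource π w, hxs, hys,
        D.disjoint_chartSource htw (Ne.symm hwu)⟩
  · obtain ⟨A, B, hA, hB, hxA, hyB, hAB⟩ := t2_separation hpt
    exact ⟨Glued.pt ⁻¹' A, Glued.pt ⁻¹' B, hA.preimage Glued.continuous_pt,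
      hB.preimage Glued.continuous_pt, hxA, hyB, hAB.preimage _⟩

end GlueData

instance (Φ : Fct → U → U) [Finite U] : CompactSpace (Glued Φ) :=
  inferInstanceAs (CompactSpace (Quot (glueRel Φ)))

/-! ### connectedness -/

theorem Glued.joined_cell (Φ : Fct → U → U) (u : U) (p q : Permuto) :
    Joined (Glued.mk Φ u p) (Glued.mk Φ u q) := by
  have h1 : PathConnectedSpace Permuto :=
    isPathConnected_iff_pathConnectedSpace.1 (convex_permuto.isPathConnected ⟨p, p.2⟩)
  obtain ⟨γ⟩ := h1.joined p q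
  exact ⟨γ.map (Glued.continuous_mk Φ u)⟩

theorem Glued.pathConnectedSpace (Φ : Fct → U → U) (u₀ : U)
    (h : ∀ u, Relation.ReflTransGen (fun u v => ∃ ω : Fct, v = Φ ω u) u₀ u) :
    PathConnectedSpace (Glued Φ) := by
  have p₀ : Permuto := ⟨facetCentre ⟨{0}, by decide, by decide⟩, facetCentre_mem _⟩
  have key : ∀ u p, Joined (Glued.mk Φ u₀ p₀) (Glued.mk Φ u p) := by
    intro u
    induction h u with
    | refl => intro p; exact Glued.joined_cell Φ u₀ p₀ p
    | @tail v w _ hvw ih =>
      obtain ⟨ω, rfl⟩ := hvw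
      intro p
      set c : Permuto := ⟨facetCentre ω, facetCentre_mem ω⟩
      have h1 := ih c
      have h2 : Glued.mk Φ (Φ ω v) c = Glued.mk Φ v c := Glued.sound (ell_facetCentre_self ω) v
      rw [← h2] at h1
      exact h1.trans (Glued.joined_cell Φ _ c p)
  refine ⟨⟨Glued.mk Φ u₀ p₀⟩, ?_⟩
  refine Glued.ind fun u p => Glued.ind fun v q => ?_
  exact (key u p).symm.trans (key v q)

/-! ### smoothness -/

open scoped ContDiff Manifold

namespace GlueData

variable (D : GlueData U)

/-- local formula for the transition maps -/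
def transModel (π π' : Equiv.Perm (Fin 5)) (s b : Fin 4 → Bool) (x : Fin 4 → ℝ) (k : Fin 4) : ℝ :=
  open Classical in
  if flag π' k = flag π k then sg (s k) * x k
  else sg (xor (b k) (s k)) * √(ell (flag π' k).1 (affInv π fun j => x j ^ 2))

theorem transition_eq {π π' : Equiv.Perm (Fin 5)} {u₀ u₁ : U} {x : Fin 4 → ℝ}
    (hx : x ∈ ((D.chart π u₀).symm ≫ₕ D.chart π' u₁).source) (k : Fin 4) :
    ((D.chart π u₀).symm ≫ₕ D.chart π' u₁) x k =
      sg (xor (neg x k) (D.par u₁ u₀ k)) *
        √(ell (flag π' k).1 (affInv π fun j => x j ^ 2)) := by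
  rw [OpenPartialHomeomorph.trans_source] at hx
  obtain ⟨hx1, hx2⟩ := hx
  have hx1' : x ∈ coordRange π := hx1
  have hx2' : Glued.mk D.Φ (D.act π (neg x) u₀) (coordPt π x) ∈ D.chartSource π' u₁ := hx2
  obtain ⟨h1, h2⟩ := D.mk_mem_chartSource.1 hx2'
  change D.coord π' u₁ (Glued.mk D.Φ (D.act π (neg x) u₀) (coordPt π x)) k = _
  rw [D.coord_mk h1, par_act, coordPt_coe hx1']

theorem ell_pos_of_ne {π π' : Equiv.Perm (Fin 5)} {u₀ u₁ : U} {x : Fin 4 → ℝ}
    (hx : x ∈ ((D.chart π u₀).symm ≫ₕ D.chart π' u₁).source) {k : Fin 4}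
    (hk : flag π' k ≠ flag π k) :
    0 < ell (flag π' k).1 (affInv π fun j => x j ^ 2) ∧ x k ≠ 0 := by
  rw [OpenPartialHomeomorph.trans_source] at hx
  obtain ⟨hx1, hx2⟩ := hx
  have hx1' : x ∈ coordRange π := hx1
  have hx2' : Glued.mk D.Φ (D.act π (neg x) u₀) (coordPt π x) ∈ D.chartSource π' u₁ := hx2
  obtain ⟨h1, h2⟩ := D.mk_mem_chartSource.1 hx2'
  constructor
  · apply hx1'
    intro j hj
    have := flag_eq_of_eq hj
    subst this
    exact hk hj
  · intro h0
    have h3 : ell (flag π k).1 (coordPt π x) = 0 := by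
      rw [ell_coordPt hx1', h0]; norm_num
    obtain ⟨j, hj⟩ := h1 _ h3
    have := flag_eq_of_eq hj
    subst this
    exact hk hj.symm

theorem transition_eventuallyEq {π π' : Equiv.Perm (Fin 5)} {u₀ u₁ : U} {x₀ : Fin 4 → ℝ}
    (hx₀ : x₀ ∈ ((D.chart π u₀).symm ≫ₕ D.chart π' u₁).source) :
    ((D.chart π u₀).symm ≫ₕ D.chart π' u₁ : (Fin 4 → ℝ) → (Fin 4 → ℝ)) =ᶠ[𝓝 x₀]
      transModel π π' (D.par u₁ u₀) (neg x₀) := by
  have h1 : ((D.chart π u₀).symm ≫ₕ D.chart π' u₁).source ∈ 𝓝 x₀ :=
    ((D.chart π u₀).symm ≫ₕ D.chart π' u₁).open_source.mem_nhds hx₀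
  have h2 : ∀ᶠ x in 𝓝 x₀, ∀ j, x₀ j ≠ 0 → neg x j = neg x₀ j := by
    rw [Filter.eventually_all]
    intro j
    by_cases hj : x₀ j = 0
    · filter_upwards with x h
      exact absurd hj h
    · rcases lt_or_gt_of_ne hj with h | h
      · have : ∀ᶠ x : Fin 4 → ℝ in 𝓝 x₀, x j < 0 :=
          (continuous_apply j).continuousAt.eventually (Iio_mem_nhds h)
        filter_upwards [this] with x hx _
        simp [neg, hx, h]
      · have : ∀ᶠ x : Fin 4 → ℝ in 𝓝 x₀, 0 < x j :=
          (continuous_apply j).continuousAt.eventually (Ioi_mem_nhds h)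
        filter_upwards [this] with x hx _
        simp [neg, not_lt.2 hx.le, not_lt.2 h.le]
  filter_upwards [h1, h2] with x hx hneg
  funext k
  rw [D.transition_eq hx]
  unfold transModel
  split_ifs with hk
  · rw [hk, ell_flag_affInv, Real.sqrt_sq_eq_abs, sg_xor, mul_comm (sg (neg x k)), mul_assoc,
      sg_neg_mul_abs]
  · rw [hneg k (D.ell_pos_of_ne hx₀ hk).2]

theorem contDiffAt_transModel {π π' : Equiv.Perm (Fin 5)} {s b : Fin 4 → Bool} {x₀ : Fin 4 → ℝ}
    (h : ∀ k, flag π' k ≠ flag π k →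
      0 < ell (flag π' k).1 (affInv π fun j => x₀ j ^ 2)) :
    ContDiffAt ℝ ∞ (transModel π π' s b) x₀ := by
  rw [contDiffAt_pi]
  intro k
  by_cases hk : flag π' k = flag π k
  · have : (fun x => transModel π π' s b x k) = fun x => sg (s k) * x k := by
      funext x; simp [transModel, hk]
    rw [this]
    fun_prop
  · have : (fun x => transModel π π' s b x k) = fun x =>
        sg (xor (b k) (s k)) * √(ell (flag π' k).1 (affInv π fun j => x j ^ 2)) := by
      funext x; simp [transModel, hk]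
    rw [this]
    have hc : ContDiff ℝ ∞ fun x : Fin 4 → ℝ =>
        ell (flag π' k).1 (affInv π fun j => x j ^ 2) := by
      unfold ell
      refine (ContDiff.sum fun i _ => ?_).sub contDiff_const
      unfold affInv
      generalize π.symm i = m
      fin_cases m <;> simp <;> fun_prop
    exact contDiffAt_const.mul (hc.contDiffAt.sqrt (h k hk).ne')

theorem contDiffOn_transition (π π' : Equiv.Perm (Fin 5)) (u₀ u₁ : U) :
    ContDiffOn ℝ ∞ ((D.chart π u₀).symm ≫ₕ D.chart π' u₁)
      ((D.chart π u₀).symm ≫ₕ D.chart π' u₁).source := by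
  intro x₀ hx₀
  refine ContDiffAt.contDiffWithinAt ?_
  exact (contDiffAt_transModel fun k hk => (D.ell_pos_of_ne hx₀ hk).1).congr_of_eventuallyEq
    (D.transition_eventuallyEq hx₀)

end GlueData

end FlatCircle
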