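import Pool.Agent.Helper70.Flat.Manifold

/-!
Orientation: the Jacobians of the transition maps.
-/

open Set Topology

noncomputable section

namespace FlatCircle

/-- the integral matrix of the change of affine charts -/
def tauMat (τ : Equiv.Perm (Fin 5)) : Matrix (Fin 4) (Fin 4) ℤ :=
  Matrix.of fun k j => (if (τ j.castSucc : ℕ) ≤ k then 1 else 0) - (if (τ j.succ : ℕ) ≤ k then 1 else 0)

/-- explicit determinant of a 4×4 matrix -/
def det4 (A : Matrix (Fin 4) (Fin 4) ℤ) : ℤ :=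
  A 0 0 * (A 1 1 * (A 2 2 * A 3 3 - A 2 3 * A 3 2) - A 1 2 * (A 2 1 * A 3 3 - A 2 3 * A 3 1) +
    A 1 3 * (A 2 1 * A 3 2 - A 2 2 * A 3 1)) -
  A 0 1 * (A 1 0 * (A 2 2 * A 3 3 - A 2 3 * A 3 2) - A 1 2 * (A 2 0 * A 3 3 - A 2 3 * A 3 0) +
    A 1 3 * (A 2 0 * A 3 2 - A 2 2 * A 3 0)) +
  A 0 2 * (A 1 0 * (A 2 1 * A 3 3 - A 2 3 * A 3 1) - A 1 1 * (A 2 0 * A 3 3 - A 2 3 * A 3 0) +
    A 1 3 * (A 2 0 * A 3 1 - A 2 1 * A 3 0)) -
  A 0 3 * (A 1 0 * (A 2 1 * A 3 2 - A 2 2 * A 3 1) - A 1 1 * (A 2 0 * A 3 2 - A 2 2 * A 3 0) +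
    A 1 2 * (A 2 0 * A 3 1 - A 2 1 * A 3 0))

theorem det_eq_det4 (A : Matrix (Fin 4) (Fin 4) ℤ) : A.det = det4 A := by
  simp [Matrix.det_succ_row_zero, Fin.sum_univ_succ, Fin.succAbove, det4]
  ring

theorem det4_tauMat : ∀ τ : Equiv.Perm (Fin 5), det4 (tauMat τ) = (Equiv.Perm.sign τ : ℤ) := by
  decide +kernel

theorem det_tauMat (τ : Equiv.Perm (Fin 5)) : (tauMat τ).det = (Equiv.Perm.sign τ : ℤ) := by
  rw [det_eq_det4, det4_tauMat]

/-- linear part of `y ↦ ell (flag π' k) (affInv π y)` -/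
theorem ell_affInv_eq (π π' : Equiv.Perm (Fin 5)) (k : Fin 4) (y : Fin 4 → ℝ) :
    ell (flag π' k).1 (affInv π y) =
      ∑ j, (tauMat (π'⁻¹ * π) k j : ℝ) * y j + ell (flag π' k).1 (affInv π 0) := by
  have h1 : ∀ p : Fin 5 → ℝ, ell (flag π' k).1 p =
      ∑ a : Fin 5, (if (((π'⁻¹ * π) a : Fin 5) : ℕ) ≤ k then p (π a) else 0) -
        ((k : ℝ) + 1) * k / 2 := by
    intro p
    rw [ell_flag]
    congr 1
    rw [← Equiv.sum_comp (π'⁻¹ * π)]
    refine Finset.sum_congr rfl fun a _ => ?_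
    have e : π' ((π'⁻¹ * π) a) = π a := by simp
    rw [e]
  rw [h1, h1]
  simp only [affInv, Equiv.symm_apply_apply]
  rw [Fin.sum_univ_five, Fin.sum_univ_five, Fin.sum_univ_four]
  simp only [tauMat, Matrix.of_apply]
  generalize π'⁻¹ * π = τ
  have e0 : (Fin.castSucc (0 : Fin 4)) = 0 := rfl
  have e1 : (Fin.castSucc (1 : Fin 4)) = 1 := rfl
  have e2 : (Fin.castSucc (2 : Fin 4)) = 2 := rfl
  have e3 : (Fin.castSucc (3 : Fin 4)) = 3 := rfl
  have f0 : (Fin.succ (0 : Fin 4)) = 1 := rfl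
  have f1 : (Fin.succ (1 : Fin 4)) = 2 := rfl
  have f2 : (Fin.succ (2 : Fin 4)) = 3 := rfl
  have f3 : (Fin.succ (3 : Fin 4)) = 4 := rfl
  rw [e0, e1, e2, e3, f0, f1, f2, f3]
  by_cases c0 : ((τ 0 : Fin 5) : ℕ) ≤ k <;> by_cases c1 : ((τ 1 : Fin 5) : ℕ) ≤ k <;>
    by_cases c2 : ((τ 2 : Fin 5) : ℕ) ≤ k <;> by_cases c3 : ((τ 3 : Fin 5) : ℕ) ≤ k <;>
    by_cases c4 : ((τ 4 : Fin 5) : ℕ) ≤ k <;>
    simp [c0, c1, c2, c3, c4] <;> ring

open GlueData

/-- the Jacobian matrix of the transition map -/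
def jacMat (π π' : Equiv.Perm (Fin 5)) (s b : Fin 4 → Bool) (x : Fin 4 → ℝ) :
    Matrix (Fin 4) (Fin 4) ℝ :=
  open Classical in
  Matrix.of fun k j =>
    if flag π' k = flag π k then (if k = j then sg (s k) else 0)
    else sg (xor (b k) (s k)) / √(ell (flag π' k).1 (affInv π fun j => x j ^ 2)) *
      (tauMat (π'⁻¹ * π) k j : ℝ) * x j

theorem hasFDerivAt_transModel {π π' : Equiv.Perm (Fin 5)} {s b : Fin 4 → Bool} {x : Fin 4 → ℝ}
    (h : ∀ k, flag π' k ≠ flag π k → 0 < ell (flag π' k).1 (affInv π fun j => x j ^ 2)) :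
    HasFDerivAt (transModel π π' s b)
      (LinearMap.toContinuousLinearMap (Matrix.toLin' (jacMat π π' s b x))) x := by
  rw [hasFDerivAt_pi']
  intro k
  by_cases hk : flag π' k = flag π k
  · have h1 : (fun x => transModel π π' s b x k) = fun x => sg (s k) * x k := by
      funext x; simp [transModel, hk]
    rw [h1]
    have h2 : HasFDerivAt (fun x : Fin 4 → ℝ => sg (s k) * x k)
        (sg (s k) • (ContinuousLinearMap.proj k : (Fin 4 → ℝ) →L[ℝ] ℝ)) x :=
      (hasFDerivAt_apply k x).const_mul _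
    refine h2.congr_fderiv (ContinuousLinearMap.ext fun v => ?_)
    change sg (s k) * v k = (Matrix.toLin' (jacMat π π' s b x)) v k
    rw [Matrix.toLin'_apply, Matrix.mulVec, dotProduct]
    simp only [jacMat, Matrix.of_apply, hk, if_true, ite_mul, zero_mul]
    rw [Finset.sum_ite_eq]
    simp
  · have hpos := h k hk
    set L := ell (flag π' k).1 (affInv π fun j => x j ^ 2) with hL
    have h1 : (fun x => transModel π π' s b x k) = fun x =>
        sg (xor (b k) (s k)) * √(∑ j, (tauMat (π'⁻¹ * π) k j : ℝ) * x j ^ 2 +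
          ell (flag π' k).1 (affInv π 0)) := by
      funext z
      rw [← ell_affInv_eq]
      simp [transModel, hk]
    rw [h1]
    have hLx : ∑ j, (tauMat (π'⁻¹ * π) k j : ℝ) * x j ^ 2 +
          ell (flag π' k).1 (affInv π 0) = L := by
      rw [hL, ← ell_affInv_eq π π' k fun j => x j ^ 2]
    have h2 : HasFDerivAt (fun x : Fin 4 → ℝ => ∑ j, (tauMat (π'⁻¹ * π) k j : ℝ) * x j ^ 2 +
        ell (flag π' k).1 (affInv π 0))
        (∑ j, (tauMat (π'⁻¹ * π) k j : ℝ) • ((2 * x j) •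
          (ContinuousLinearMap.proj j : (Fin 4 → ℝ) →L[ℝ] ℝ))) x := by
      refine (HasFDerivAt.fun_sum fun j _ => ?_).add_const _
      refine HasFDerivAt.const_mul ?_ _
      have h3 := (hasFDerivAt_apply (𝕜 := ℝ) j x).pow 2
      simpa using h3
    have h4 := (h2.sqrt (by rw [hLx]; exact hpos.ne')).const_mul (sg (xor (b k) (s k)))
    rw [hLx] at h4
    refine h4.congr_fderiv (ContinuousLinearMap.ext fun v => ?_)
    have h5 : (∑ j, (tauMat (π'⁻¹ * π) k j : ℝ) • ((2 * x j) •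
          (ContinuousLinearMap.proj j : (Fin 4 → ℝ) →L[ℝ] ℝ))) v =
          ∑ j, (tauMat (π'⁻¹ * π) k j : ℝ) * ((2 * x j) * v j) := by
      rw [sum_apply]
      rfl
    change sg (xor (b k) (s k)) * ((1 / (2 * √L)) * (∑ j, (tauMat (π'⁻¹ * π) k j : ℝ) •
      ((2 * x j) • (ContinuousLinearMap.proj j : (Fin 4 → ℝ) →L[ℝ] ℝ))) v) =
      (Matrix.toLin' (jacMat π π' s b x)) v k
    rw [h5, Matrix.toLin'_apply, Matrix.mulVec, dotProduct]
    simp only [jacMat, Matrix.of_apply, hk, if_false]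
    rw [← hL, Finset.mul_sum, Finset.mul_sum]
    refine Finset.sum_congr rfl fun j _ => ?_
    have h6 : √L ≠ 0 := (Real.sqrt_pos.2 hpos).ne'
    field_simp

theorem det_jacMat {π π' : Equiv.Perm (Fin 5)} {s b : Fin 4 → Bool} {x : Fin 4 → ℝ}
    (h : ∀ k, flag π' k ≠ flag π k →
      0 < ell (flag π' k).1 (affInv π fun j => x j ^ 2) ∧ 0 < sg (b k) * x k)
    (hs : (∏ k, sg (s k)) * (Equiv.Perm.sign (π'⁻¹ * π) : ℤ) = 1) :
    0 < (jacMat π π' s b x).det := by
  classical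
  -- block decomposition along the facets which are not common
  set P : Fin 4 → Prop := fun k => flag π' k ≠ flag π k with hP
  have hrow : ∀ k, ¬ P k → ∀ j, tauMat (π'⁻¹ * π) k j = if k = j then 1 else 0 := by
    intro k hk j
    have hk' : flag π' k = flag π k := not_not.1 hk
    have h1 := ell_affInv_eq π π' k (Pi.single j 1)
    rw [hk', ell_flag_affInv, ell_flag_affInv] at h1
    simp only [Pi.zero_apply, add_zero] at h1
    rw [Finset.sum_eq_single j] at h1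
    · simp only [Pi.single_eq_same, mul_one] at h1
      have h2 : (Pi.single j (1:ℝ) : Fin 4 → ℝ) k = if k = j then 1 else 0 := by
        rw [Pi.single_apply]
      rw [h2] at h1
      have h3 : ((tauMat (π'⁻¹ * π) k j : ℤ) : ℝ) = ((if k = j then 1 else 0 : ℤ) : ℝ) := by
        rw [← h1]; split_ifs <;> simp
      exact_mod_cast h3
    · intro i _ hi
      rw [Pi.single_eq_of_ne hi, mul_zero]
    · intro h; exact absurd (Finset.mem_univ _) h
  have h1 := (tauMat (π'⁻¹ * π)).twoBlockTriangular_det P (by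
    intro i hi j hj
    rw [hrow i hi j, if_neg]
    rintro rfl
    exact hi hj)
  have h2 := (jacMat π π' s b x).twoBlockTriangular_det P (by
    intro i hi j hj
    have hi' : flag π' i = flag π i := not_not.1 hi
    simp only [jacMat, Matrix.of_apply, hi', if_true]
    rw [if_neg]
    rintro rfl
    exact hi hj)
  have h3 : ((tauMat (π'⁻¹ * π)).toSquareBlockProp fun i => ¬ P i) = 1 := by
    ext i j
    change tauMat (π'⁻¹ * π) i.1 j.1 = _
    rw [hrow i.1 i.2, Matrix.one_apply]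
    by_cases hij : i = j
    · subst hij; simp
    · rw [if_neg hij, if_neg fun h' => hij (Subtype.ext h')]
  rw [h3, Matrix.det_one, mul_one, det_tauMat] at h1
  have h4 : ((jacMat π π' s b x).toSquareBlockProp fun i => ¬ P i) =
      Matrix.diagonal fun i => sg (s i.1) := by
    ext i j
    have hi' : flag π' i.1 = flag π i.1 := not_not.1 i.2
    change jacMat π π' s b x i.1 j.1 = _
    simp only [jacMat, Matrix.of_apply, hi', if_true, Matrix.diagonal_apply]
    by_cases hij : i = j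
    · subst hij; simp
    · rw [if_neg hij, if_neg fun h' => hij (Subtype.ext h')]
  rw [h4, Matrix.det_diagonal] at h2
  set r : {i // P i} → ℝ := fun i =>
    sg (xor (b i.1) (s i.1)) / √(ell (flag π' i.1).1 (affInv π fun j => x j ^ 2)) with hr
  have h5 : ((jacMat π π' s b x).toSquareBlockProp P) =
      Matrix.diagonal r * (((tauMat (π'⁻¹ * π)).toSquareBlockProp P).map (Int.cast : ℤ → ℝ)) *
        Matrix.diagonal fun i => x i.1 := by
    ext i j
    have hi : ¬ flag π' i.1 = flag π i.1 := i.2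
    rw [Matrix.mul_diagonal, Matrix.diagonal_mul]
    change jacMat π π' s b x i.1 j.1 = r i * (tauMat (π'⁻¹ * π) i.1 j.1 : ℝ) * x j.1
    simp only [jacMat, Matrix.of_apply, hi, if_false, hr]
  have h6 : (((tauMat (π'⁻¹ * π)).toSquareBlockProp P).map (Int.cast : ℤ → ℝ)).det =
      ((Equiv.Perm.sign (π'⁻¹ * π) : ℤ) : ℝ) := by
    rw [h1]
    exact (Int.cast_det _).symm
  rw [h5, Matrix.det_mul, Matrix.det_mul, Matrix.det_diagonal, Matrix.det_diagonal, h6] at h2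
  rw [h2]
  have h7 : ∏ k, sg (s k) = (∏ i : {i // P i}, sg (s i.1)) * ∏ i : {i // ¬ P i}, sg (s i.1) :=
    (Fintype.prod_subtype_mul_prod_subtype P fun k => sg (s k)).symm
  have h8 : (∏ i, r i) * (∏ i : {i // P i}, x i.1) = (∏ i : {i // P i}, sg (s i.1)) *
      ∏ i : {i // P i}, (sg (b i.1) * x i.1 / √(ell (flag π' i.1).1 (affInv π fun j => x j ^ 2))) := by
    rw [← Finset.prod_mul_distrib, ← Finset.prod_mul_distrib]
    refine Finset.prod_congr rfl fun i _ => ?_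
    rw [hr]
    simp only
    rw [sg_xor]
    ring
  have h9 : 0 < ∏ i : {i // P i},
      (sg (b i.1) * x i.1 / √(ell (flag π' i.1).1 (affInv π fun j => x j ^ 2))) :=
    Finset.prod_pos fun i _ => div_pos (h i.1 i.2).2 (Real.sqrt_pos.2 (h i.1 i.2).1)
  have h10 : (∏ i, r i) * ((Equiv.Perm.sign (π'⁻¹ * π) : ℤ) : ℝ) * (∏ i : {i // P i}, x i.1) *
      ∏ i : {i // ¬ P i}, sg (s i.1) = (∏ i : {i // P i},
      (sg (b i.1) * x i.1 / √(ell (flag π' i.1).1 (affInv π fun j => x j ^ 2)))) *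
      ((∏ k, sg (s k)) * ((Equiv.Perm.sign (π'⁻¹ * π) : ℤ) : ℝ)) := by
    rw [h7]
    linear_combination (((Equiv.Perm.sign (π'⁻¹ * π) : ℤ) : ℝ) *
      ∏ i : {i // ¬ P i}, sg (s i.1)) * h8
  rw [h10, hs, mul_one]
  exact h9

namespace GlueData

variable {U : Type*} (D : GlueData U)

theorem eps_apb {ε : U → ℤ} (hε : ∀ w u, ε (D.Φ w u) = - ε u) (b : Bool) (w : Fct) (u : U) :
    (ε (apb b (D.Φ w) u) : ℝ) = sg b * ε u := by
  cases b <;> simp [apb, sg, hε]

theorem eps_act {ε : U → ℤ} (hε : ∀ w u, ε (D.Φ w u) = - ε u) (π : Equiv.Perm (Fin 5))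
    (b : Fin 4 → Bool) (u : U) : (ε (D.act π b u) : ℝ) = (∏ k, sg (b k)) * ε u := by
  unfold act
  rw [eps_apb D hε, eps_apb D hε, eps_apb D hε, eps_apb D hε, Fin.prod_univ_four]
  ring

/-- The charts with the right orientation. -/
def orientedAtlas (ε : U → ℤ) : Set (OpenPartialHomeomorph (Glued D.Φ) (Fin 4 → ℝ)) :=
  {e | ∃ (π : Equiv.Perm (Fin 5)) (u : U), ε u * (Equiv.Perm.sign π : ℤ) = 1 ∧ e = D.chart π u}

theorem exists_orientedChart {ε : U → ℤ} (hε : ∀ w u, ε (D.Φ w u) = - ε u)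
    (hε1 : ∀ u, ε u = 1 ∨ ε u = -1) (x : Glued D.Φ) :
    ∃ e ∈ D.orientedAtlas ε, x ∈ e.source := by
  revert x
  refine Glued.ind fun u p => ?_
  set π := Tuple.sort (p : Fin 5 → ℝ) with hπ
  have hp : p ∈ star π := mem_star_sort p
  have hsgn : ε u * (Equiv.Perm.sign π : ℤ) = 1 ∨ ε u * (Equiv.Perm.sign π : ℤ) = -1 := by
    rcases hε1 u with h | h <;> rcases Int.units_eq_one_or (Equiv.Perm.sign π) with h' | h' <;>
      simp [h, h']
  rcases hsgn with h | h
  · exact ⟨D.chart π u, ⟨π, u, h, rfl⟩, D.mk_mem_self hp⟩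
  · refine ⟨D.chart π (D.Φ (flag π 0) u), ⟨π, _, by rw [hε]; linarith, rfl⟩, ?_⟩
    refine D.mk_mem_chartSource.2 ⟨hp, ?_⟩
    have h1 : D.par (D.Φ (flag π 0) u) u = fun k => decide (k = 0) := by
      funext k
      have := D.par_Φ π u u 0 k
      simp only [par] at this ⊢
      rw [Bool.xor_comm, this]
      simp
    rw [h1, act_single]

open scoped Manifold in
theorem jacobian_pos {ε : U → ℤ} (hε : ∀ w u, ε (D.Φ w u) = - ε u)
    {π π' : Equiv.Perm (Fin 5)} {u₀ u₁ : U}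
    (h0 : ε u₀ * (Equiv.Perm.sign π : ℤ) = 1) (h1 : ε u₁ * (Equiv.Perm.sign π' : ℤ) = 1)
    {x : Fin 4 → ℝ} (hx : x ∈ ((D.chart π u₀).symm ≫ₕ D.chart π' u₁).source) :
    0 < (fderiv ℝ ((D.chart π u₀).symm ≫ₕ D.chart π' u₁) x).det := by
  have hder : HasFDerivAt ((D.chart π u₀).symm ≫ₕ D.chart π' u₁)
      (LinearMap.toContinuousLinearMap (Matrix.toLin' (jacMat π π' (D.par u₁ u₀) (neg x) x))) x :=
    (hasFDerivAt_transModel fun k hk => (D.ell_pos_of_ne hx hk).1).congr_of_eventuallyEq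
      (D.transition_eventuallyEq hx)
  rw [hder.fderiv]
  have hdet : (LinearMap.toContinuousLinearMap
      (Matrix.toLin' (jacMat π π' (D.par u₁ u₀) (neg x) x))).det =
      (jacMat π π' (D.par u₁ u₀) (neg x) x).det := by
    rw [ContinuousLinearMap.det]
    exact LinearMap.det_toLin' _
  rw [hdet]
  apply det_jacMat
  · intro k hk
    obtain ⟨h2, h3⟩ := D.ell_pos_of_ne hx hk
    refine ⟨h2, ?_⟩
    have h4 := sg_neg_mul_abs x k
    have h5 : sg (neg x k) * x k = |x k| := by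
      conv_lhs => rw [← h4, ← mul_assoc, sg_sq, one_mul]
    rw [h5]
    exact abs_pos.2 h3
  · rw [OpenPartialHomeomorph.trans_source] at hx
    obtain ⟨hx1, hx2⟩ := hx
    have hx2' : Glued.mk D.Φ (D.act π (neg x) u₀) (coordPt π x) ∈ D.chartSource π' u₁ := hx2
    obtain ⟨-, h2⟩ := D.mk_mem_chartSource.1 hx2'
    have h3 : (ε u₁ : ℝ) = (∏ k, sg (D.par u₁ (D.act π (neg x) u₀) k)) *
        ((∏ k, sg (neg x k)) * ε u₀) := by
      rw [← eps_act D hε π, ← eps_act D hε π', h2]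
    have h4 : (∏ k, sg (D.par u₁ (D.act π (neg x) u₀) k)) * (∏ k, sg (neg x k)) =
        ∏ k, sg (D.par u₁ u₀ k) := by
      rw [← Finset.prod_mul_distrib]
      refine Finset.prod_congr rfl fun k _ => ?_
      rw [par_act, sg_xor]
      linear_combination (sg (D.par u₁ u₀ k)) * sg_sq (neg x k)
    have h5 : (ε u₁ : ℝ) = (∏ k, sg (D.par u₁ u₀ k)) * ε u₀ := by
      rw [h3, ← h4]; ring
    have h6 : ((Equiv.Perm.sign (π'⁻¹ * π) : ℤ) : ℝ) =
        ((Equiv.Perm.sign π' : ℤ) : ℝ) * ((Equiv.Perm.sign π : ℤ) : ℝ) := by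
      rw [Equiv.Perm.sign_mul, Equiv.Perm.sign_inv]
      push_cast; rfl
    have h0' : (ε u₀ : ℝ) * ((Equiv.Perm.sign π : ℤ) : ℝ) = 1 := by exact_mod_cast h0
    have h1' : (ε u₁ : ℝ) * ((Equiv.Perm.sign π' : ℤ) : ℝ) = 1 := by exact_mod_cast h1
    have hsq : ((Equiv.Perm.sign π : ℤ) : ℝ) * ((Equiv.Perm.sign π : ℤ) : ℝ) = 1 := by
      rcases Int.units_eq_one_or (Equiv.Perm.sign π) with h' | h' <;> simp [h']
    have h7 : (ε u₀ : ℝ) = ((Equiv.Perm.sign π : ℤ) : ℝ) := by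
      linear_combination ((Equiv.Perm.sign π : ℤ) : ℝ) * h0' - (ε u₀ : ℝ) * hsq
    rw [h6]
    rw [h5, h7] at h1'
    linear_combination h1'

end GlueData

end FlatCircle
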