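import Pool.Agent.Helper70.Flat.Orient
import Pool.Agent.Helper70.Flat.Assembly
import Pool.Agent.Helper70.Flat.Notions

/-!
The glued spaces are oriented smooth four-manifolds.
-/

open Set Topology
open scoped Manifold ContDiff

noncomputable section

namespace FlatCircle

namespace GlueData

variable {U : Type*} (D : GlueData U)

theorem isOrientedSmoothManifold {ε : U → ℤ} (hε : ∀ w u, ε (D.Φ w u) = - ε u)
    (hε1 : ∀ u, ε u = 1 ∨ ε u = -1) : IsOrientedSmoothManifold (Fin 4 → ℝ) (Glued D.Φ) := by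
  choose c hc hx using D.exists_orientedChart hε hε1
  refine ⟨⟨D.orientedAtlas ε, c, hx, hc⟩, ?_, ?_⟩
  · letI : ChartedSpace (Fin 4 → ℝ) (Glued D.Φ) := ⟨D.orientedAtlas ε, c, hx, hc⟩
    apply isManifold_of_contDiffOn
    intro e e' he he'
    obtain ⟨π, u, -, rfl⟩ := he
    obtain ⟨π', u', -, rfl⟩ := he'
    have h := D.contDiffOn_transition π π' u u'
    simpa using h
  · intro e he e' he' x hx
    obtain ⟨π, u, h, rfl⟩ := he
    obtain ⟨π', u', h', rfl⟩ := he'
    exact D.jacobian_pos hε h h' hx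

end GlueData

theorem Cell.sgn_eq (c : Cell) : c.sgn = 1 ∨ c.sgn = -1 := by
  unfold Cell.sgn sgnCode
  split_ifs <;> simp

theorem isOrientedSmoothManifold_M4 : IsOrientedSmoothManifold (Fin 4 → ℝ) M4 :=
  GlueData.isOrientedSmoothManifold reachData.toGlueData (ε := fun u => u.1.1.sgn)
    reachVertexData.ε_Φ fun u => u.1.1.sgn_eq

end FlatCircle
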