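import Pool.Agent.Helper70.Flat.Holonomy

/-!
Pairing of the square of the Euler class with a singular cycle.
-/

open Set Topology

noncomputable section

namespace FlatCircle

section

variable {E X : Type*} [TopologicalSpace E] [TopologicalSpace X] [MulAction CircleDiff E]
  {p : E → X}

theorem sum_involution_zero {I : Type*} [Fintype I] {s : I → ℤ} {ι : I → I}
    (hι : ∀ i, ι (ι i) = i) (hs : ∀ i, s (ι i) = - s i) {B : I → ℝ} (hB : ∀ i, B (ι i) = B i) :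
    ∑ i, (s i : ℝ) * B i = 0 := by
  have h1 : ∑ i, (s i : ℝ) * B i = ∑ i, (s (ι i) : ℝ) * B (ι i) :=
    (Equiv.sum_comp (Function.Involutive.toPerm ι hι) fun i => (s i : ℝ) * B i).symm
  have h2 : ∑ i, (s (ι i) : ℝ) * B (ι i) = - ∑ i, (s i : ℝ) * B i := by
    rw [← Finset.sum_neg_distrib]
    refine Finset.sum_congr rfl fun i _ => ?_
    rw [hs, hB]; push_cast; ring
  linarith

/-- a singular cycle presented by simplices whose faces cancel in pairs -/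
structure PairedCycle (I : Type*) (X : Type*) [TopologicalSpace X] where
  s : I → ℤ
  τ : I → Sing 4 X
  ι : Fin 5 → I → I
  invol : ∀ m i, ι m (ι m i) = i
  sgn : ∀ m i, s (ι m i) = - s i
  face : ∀ m i, (τ (ι m i)).sub m.succAbove = (τ i).sub m.succAbove

theorem PairedCycle.sum_face {I : Type*} [Fintype I] (Z : PairedCycle I X) (B : Sing 3 X → ℝ)
    (m : Fin 5) : ∑ i, (Z.s i : ℝ) * B ((Z.τ i).sub m.succAbove) = 0 :=
  sum_involution_zero (Z.invol m) (Z.sgn m) fun i => by rw [Z.face]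

theorem PairedCycle.sum_coboundary {I : Type*} [Fintype I] (Z : PairedCycle I X)
    (b : Sing 3 X → ℤ) : ∑ i, (Z.s i : ℝ) * (coboundary b (Z.τ i) : ℝ) = 0 := by
  unfold coboundary
  push_cast
  simp only [Finset.mul_sum]
  rw [Finset.sum_comm]
  refine Finset.sum_eq_zero fun m _ => ?_
  have h := Z.sum_face (fun σ => (b σ : ℝ)) m
  calc ∑ i, (Z.s i : ℝ) * ((-1) ^ (m : ℕ) * (b ((Z.τ i).sub m.succAbove) : ℝ))
      = (-1) ^ (m : ℕ) * ∑ i, (Z.s i : ℝ) * (b ((Z.τ i).sub m.succAbove) : ℝ) := by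
        rw [Finset.mul_sum]
        refine Finset.sum_congr rfl fun i _ => ?_
        ring
    _ = 0 := by rw [h, mul_zero]

variable (hp : IsQuotientCoveringMap p CircleDiff) {x₀ : X} (e₀ : p ⁻¹' {x₀})

theorem pairing_eq {I : Type*} [Fintype I] (Z : PairedCycle I X) (τ' : I → Sing 4 E)
    (hτ : ∀ i, Z.τ i = (τ' i).push ⟨p, hp.continuous⟩)
    (V : E → Vtx) (hV : ∀ (g : CircleDiff) a, V (g • a) = g • V a)
    (hpos : ∀ a, 0 < (V a).1) {c : Sing 2 X → ℤ} (hc : IsEulerCocycle (holonomy hp e₀) c) :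
    ∑ i, (Z.s i : ℝ) * (cupSquare c (Z.τ i) : ℝ) =
      ∑ i, (Z.s i : ℝ) * (cav (V (τ' i (vert 0))) (V (τ' i (vert 1))) (V (τ' i (vert 2))) *
        cav (V (τ' i (vert 2))) (V (τ' i (vert 3))) (V (τ' i (vert 4)))) := by
  obtain ⟨γ, L, hL, hcL⟩ := hc
  set A : Sing 1 X → ℝ := compA hp e₀ V γ L with hA
  set W : Sing 2 X → ℝ := fun σ => c σ + (A (σ.sub ![0, 1]) + A (σ.sub ![1, 2]) -
    A (σ.sub ![0, 2])) with hW
  have hWcav : ∀ (i : I) (j k l : Fin 5), W ((Z.τ i).sub ![j, k, l]) =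
      cav (V (τ' i (vert j))) (V (τ' i (vert k))) (V (τ' i (vert l))) := by
    intro i j k l
    have h1 : (Z.τ i).sub ![j, k, l] = ((τ' i).sub ![j, k, l]).push ⟨p, hp.continuous⟩ := by
      rw [hτ]; rfl
    have h2 := euler_compare hp e₀ V hV hpos hL hcL ((τ' i).sub ![j, k, l])
    rw [← h1, ← hA] at h2
    simp only [Sing.sub_vert] at h2
    rw [hW]
    simp only
    rw [h2]
    have e0 : (![j, k, l] : Fin 3 → Fin 5) 0 = j := rfl
    have e1 : (![j, k, l] : Fin 3 → Fin 5) 1 = k := rfl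
    have e2 : (![j, k, l] : Fin 3 → Fin 5) 2 = l := rfl
    simp only [e0, e1, e2]
    ring
  have hcW : ∀ (i : I) (j k l : Fin 5), (c ((Z.τ i).sub ![j, k, l]) : ℝ) =
      cav (V (τ' i (vert j))) (V (τ' i (vert k))) (V (τ' i (vert l))) -
      (A ((Z.τ i).sub ![j, k]) + A ((Z.τ i).sub ![k, l]) - A ((Z.τ i).sub ![j, l])) := by
    intro i j k l
    rw [← hWcav i j k l, hW]
    simp only [Sing.sub_sub]
    have e1 : (![j, k, l] : Fin 3 → Fin 5) ∘ ![0, 1] = ![j, k] := by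
      funext x; fin_cases x <;> rfl
    have e2 : (![j, k, l] : Fin 3 → Fin 5) ∘ ![1, 2] = ![k, l] := by
      funext x; fin_cases x <;> rfl
    have e3 : (![j, k, l] : Fin 3 → Fin 5) ∘ ![0, 2] = ![j, l] := by
      funext x; fin_cases x <;> rfl
    rw [e1, e2, e3]
    ring
  -- products on the faces
  have hAc : ∀ m : Fin 5, ∑ i, (Z.s i : ℝ) *
      (A ((Z.τ i).sub (m.succAbove ∘ ![0, 1])) * c ((Z.τ i).sub (m.succAbove ∘ ![1, 2, 3]))) = 0 := by
    intro m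
    have := Z.sum_face (fun σ => A (σ.sub ![0, 1]) * c (σ.sub ![1, 2, 3])) m
    simpa only [Sing.sub_sub] using this
  have hWA : ∀ m : Fin 5, ∑ i, (Z.s i : ℝ) *
      (W ((Z.τ i).sub (m.succAbove ∘ ![0, 1, 2])) * A ((Z.τ i).sub (m.succAbove ∘ ![2, 3]))) = 0 := by
    intro m
    have := Z.sum_face (fun σ => W (σ.sub ![0, 1, 2]) * A (σ.sub ![2, 3])) m
    simpa only [Sing.sub_sub] using this
  have a0 := hAc 0
  have a1 := hAc 1
  have a2 := hAc 2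
  have a3 := hAc 3
  have a4 := hAc 4
  have w0 := hWA 0
  have w1 := hWA 1
  have w2 := hWA 2
  have w3 := hWA 3
  have w4 := hWA 4
  have r1 : (Fin.succAbove (0 : Fin 5) ∘ ![0, 1] : Fin 2 → Fin 5) = ![1, 2] := by decide
  have r2 : (Fin.succAbove (0 : Fin 5) ∘ ![1, 2, 3] : Fin 3 → Fin 5) = ![2, 3, 4] := by decide
  have r3 : (Fin.succAbove (1 : Fin 5) ∘ ![0, 1] : Fin 2 → Fin 5) = ![0, 2] := by decide
  have r4 : (Fin.succAbove (1 : Fin 5) ∘ ![1, 2, 3] : Fin 3 → Fin 5) = ![2, 3, 4] := by decide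
  have r5 : (Fin.succAbove (2 : Fin 5) ∘ ![0, 1] : Fin 2 → Fin 5) = ![0, 1] := by decide
  have r6 : (Fin.succAbove (2 : Fin 5) ∘ ![1, 2, 3] : Fin 3 → Fin 5) = ![1, 3, 4] := by decide
  have r7 : (Fin.succAbove (3 : Fin 5) ∘ ![0, 1] : Fin 2 → Fin 5) = ![0, 1] := by decide
  have r8 : (Fin.succAbove (3 : Fin 5) ∘ ![1, 2, 3] : Fin 3 → Fin 5) = ![1, 2, 4] := by decide
  have r9 : (Fin.succAbove (4 : Fin 5) ∘ ![0, 1] : Fin 2 → Fin 5) = ![0, 1] := by decide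
  have r10 : (Fin.succAbove (4 : Fin 5) ∘ ![1, 2, 3] : Fin 3 → Fin 5) = ![1, 2, 3] := by decide
  have q1 : (Fin.succAbove (0 : Fin 5) ∘ ![0, 1, 2] : Fin 3 → Fin 5) = ![1, 2, 3] := by decide
  have q2 : (Fin.succAbove (0 : Fin 5) ∘ ![2, 3] : Fin 2 → Fin 5) = ![3, 4] := by decide
  have q3 : (Fin.succAbove (1 : Fin 5) ∘ ![0, 1, 2] : Fin 3 → Fin 5) = ![0, 2, 3] := by decide
  have q4 : (Fin.succAbove (1 : Fin 5) ∘ ![2, 3] : Fin 2 → Fin 5) = ![3, 4] := by decide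
  have q5 : (Fin.succAbove (2 : Fin 5) ∘ ![0, 1, 2] : Fin 3 → Fin 5) = ![0, 1, 3] := by decide
  have q6 : (Fin.succAbove (2 : Fin 5) ∘ ![2, 3] : Fin 2 → Fin 5) = ![3, 4] := by decide
  have q7 : (Fin.succAbove (3 : Fin 5) ∘ ![0, 1, 2] : Fin 3 → Fin 5) = ![0, 1, 2] := by decide
  have q8 : (Fin.succAbove (3 : Fin 5) ∘ ![2, 3] : Fin 2 → Fin 5) = ![2, 4] := by decide
  have q9 : (Fin.succAbove (4 : Fin 5) ∘ ![0, 1, 2] : Fin 3 → Fin 5) = ![0, 1, 2] := by decide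
  have q10 : (Fin.succAbove (4 : Fin 5) ∘ ![2, 3] : Fin 2 → Fin 5) = ![2, 3] := by decide
  rw [r1, r2] at a0
  rw [r3, r4] at a1
  rw [r5, r6] at a2
  rw [r7, r8] at a3
  rw [r9, r10] at a4
  rw [q1, q2] at w0
  rw [q3, q4] at w1
  rw [q5, q6] at w2
  rw [q7, q8] at w3
  rw [q9, q10] at w4
  have pointwise : ∀ i, (Z.s i : ℝ) * (cupSquare c (Z.τ i) : ℝ) =
      (Z.s i : ℝ) * (cav (V (τ' i (vert 0))) (V (τ' i (vert 1))) (V (τ' i (vert 2))) *
        cav (V (τ' i (vert 2))) (V (τ' i (vert 3))) (V (τ' i (vert 4)))) -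
      (Z.s i : ℝ) * (A ((Z.τ i).sub ![1, 2]) * c ((Z.τ i).sub ![2, 3, 4])) +
      (Z.s i : ℝ) * (A ((Z.τ i).sub ![0, 2]) * c ((Z.τ i).sub ![2, 3, 4])) -
      (Z.s i : ℝ) * (A ((Z.τ i).sub ![0, 1]) * c ((Z.τ i).sub ![1, 3, 4])) +
      (Z.s i : ℝ) * (A ((Z.τ i).sub ![0, 1]) * c ((Z.τ i).sub ![1, 2, 4])) -
      (Z.s i : ℝ) * (A ((Z.τ i).sub ![0, 1]) * c ((Z.τ i).sub ![1, 2, 3])) -
      (Z.s i : ℝ) * (W ((Z.τ i).sub ![1, 2, 3]) * A ((Z.τ i).sub ![3, 4])) +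
      (Z.s i : ℝ) * (W ((Z.τ i).sub ![0, 2, 3]) * A ((Z.τ i).sub ![3, 4])) -
      (Z.s i : ℝ) * (W ((Z.τ i).sub ![0, 1, 3]) * A ((Z.τ i).sub ![3, 4])) +
      (Z.s i : ℝ) * (W ((Z.τ i).sub ![0, 1, 2]) * A ((Z.τ i).sub ![2, 4])) -
      (Z.s i : ℝ) * (W ((Z.τ i).sub ![0, 1, 2]) * A ((Z.τ i).sub ![2, 3])) := by
    intro i
    have hz1 := cav_cocycle (hpos (τ' i (vert 0))) (hpos (τ' i (vert 1)))
      (hpos (τ' i (vert 2))) (hpos (τ' i (vert 3)))
    have hz2 := cav_cocycle (hpos (τ' i (vert 1))) (hpos (τ' i (vert 2)))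
      (hpos (τ' i (vert 3))) (hpos (τ' i (vert 4)))
    unfold cupSquare
    push_cast
    simp only [hWcav, hcW]
    generalize A ((Z.τ i).sub ![0, 1]) = a01
    generalize A ((Z.τ i).sub ![0, 2]) = a02
    generalize A ((Z.τ i).sub ![1, 2]) = a12
    generalize A ((Z.τ i).sub ![1, 3]) = a13
    generalize A ((Z.τ i).sub ![1, 4]) = a14
    generalize A ((Z.τ i).sub ![2, 3]) = a23
    generalize A ((Z.τ i).sub ![2, 4]) = a24
    generalize A ((Z.τ i).sub ![3, 4]) = a34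
    generalize cav (V (τ' i (vert 0))) (V (τ' i (vert 1))) (V (τ' i (vert 2))) = W012 at *
    generalize cav (V (τ' i (vert 0))) (V (τ' i (vert 1))) (V (τ' i (vert 3))) = W013 at *
    generalize cav (V (τ' i (vert 0))) (V (τ' i (vert 2))) (V (τ' i (vert 3))) = W023 at *
    generalize cav (V (τ' i (vert 1))) (V (τ' i (vert 2))) (V (τ' i (vert 3))) = W123 at *
    generalize cav (V (τ' i (vert 1))) (V (τ' i (vert 2))) (V (τ' i (vert 4))) = W124 at *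
    generalize cav (V (τ' i (vert 1))) (V (τ' i (vert 3))) (V (τ' i (vert 4))) = W134 at *
    generalize cav (V (τ' i (vert 2))) (V (τ' i (vert 3))) (V (τ' i (vert 4))) = W234 at *
    linear_combination ((Z.s i : ℝ) * a34) * hz1 + (-(Z.s i : ℝ) * a01) * hz2
  rw [Finset.sum_congr rfl fun i _ => pointwise i]
  simp only [Finset.sum_add_distrib, Finset.sum_sub_distrib]
  rw [a0, a1, a2, a3, a4, w0, w1, w2, w3, w4]
  ring

end

end FlatCircle
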