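import Pool.Agent.Helper70.Flat.Example

/-!
The four-dimensional permutohedron.
-/

noncomputable section

namespace FlatCircle

/-- along a facet the coordinates split -/
theorem lt_of_ell_eq_zero {p : Fin 5 → ℝ} (hp : p ∈ Permuto) {ω : Finset (Fin 5)}
    (h : ell ω p = 0) {i j : Fin 5} (hi : i ∈ ω) (hj : j ∉ ω) : p i < p j := by
  have h1 := hp.2 (ω.erase i)
  have h2 := hp.2 (insert j ω)
  have hc : 0 < ω.card := Finset.card_pos.2 ⟨i, hi⟩
  simp only [ell] at h h1 h2
  rw [Finset.card_erase_of_mem hi] at h1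
  rw [Finset.card_insert_of_notMem hj, Finset.sum_insert hj] at h2
  have h3 := Finset.add_sum_erase ω p hi
  rw [Nat.cast_sub hc] at h1
  push_cast at h1 h2
  nlinarith

/-! ### Flags -/

/-- the initial segment of length `j+1` of the ordering `π 0, …, π 4` of the colours -/
def flagSet (π : Equiv.Perm (Fin 5)) (j : Fin 4) : Finset (Fin 5) :=
  Finset.univ.filter fun i => ((π.symm i : Fin 5) : ℕ) ≤ j

theorem mem_flagSet {π : Equiv.Perm (Fin 5)} {j : Fin 4} {i : Fin 5} :
    i ∈ flagSet π j ↔ ((π.symm i : Fin 5) : ℕ) ≤ j := by simp [flagSet]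

theorem card_filter_le (j : Fin 4) :
    (Finset.univ.filter fun i : Fin 5 => (i : ℕ) ≤ j).card = j + 1 := by
  fin_cases j <;> rfl

theorem flagSet_eq_map (π : Equiv.Perm (Fin 5)) (j : Fin 4) :
    flagSet π j = (Finset.univ.filter fun i : Fin 5 => (i : ℕ) ≤ j).map π.toEmbedding := by
  ext i
  simp only [mem_flagSet, Finset.mem_map, Finset.mem_filter, Finset.mem_univ, true_and,
    Equiv.coe_toEmbedding]
  constructor
  · intro h; exact ⟨π.symm i, h, by simp⟩
  · rintro ⟨a, ha, rfl⟩; simpa using ha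

theorem card_flagSet (π : Equiv.Perm (Fin 5)) (j : Fin 4) : (flagSet π j).card = j + 1 := by
  rw [flagSet_eq_map, Finset.card_map, card_filter_le]

/-- initial segments as proper nonempty sets -/
def flag (π : Equiv.Perm (Fin 5)) (j : Fin 4) : Fct :=
  ⟨flagSet π j, by
    rw [← Finset.card_pos, card_flagSet]; omega, by
    intro h
    have := card_flagSet π j
    rw [h] at this
    simp at this
    omega⟩

theorem card_flag (π : Equiv.Perm (Fin 5)) (j : Fin 4) : (flag π j).1.card = j + 1 :=
  card_flagSet π j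

theorem flag_ssubset {π : Equiv.Perm (Fin 5)} {j k : Fin 4} (h : j < k) :
    (flag π j).1 ⊂ (flag π k).1 := by
  rw [Finset.ssubset_iff_subset_ne]
  refine ⟨fun i hi => ?_, fun heq => ?_⟩
  · simp only [flag, mem_flagSet] at hi ⊢
    exact hi.trans (by exact_mod_cast h.le)
  · have h1 := card_flag π j
    rw [heq, card_flag] at h1
    have : (j : ℕ) < k := h
    omega

theorem flag_injective (π : Equiv.Perm (Fin 5)) : Function.Injective (flag π) := by
  intro j k h
  have h1 := card_flag π j
  rw [h, card_flag] at h1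
  exact Fin.ext (by omega)

theorem flag_eq_of_eq {π π' : Equiv.Perm (Fin 5)} {j k : Fin 4} (h : flag π j = flag π' k) :
    j = k := by
  have h1 := card_flag π j
  rw [h, card_flag] at h1
  exact Fin.ext (by omega)

theorem lowerSet_eq : ∀ S : Finset (Fin 5), (∀ a ∈ S, ∀ b, b ∉ S → a < b) →
    S = Finset.univ.filter fun i : Fin 5 => (i : ℕ) < S.card := by decide

/-- the open star of the vertex `π` of the permutohedron -/
def star (π : Equiv.Perm (Fin 5)) : Set Permuto :=
  {p | ∀ ω : Fct, ell ω.1 p = 0 → ∃ j, ω = flag π j}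

theorem mem_star_sort (p : Permuto) : p ∈ star (Tuple.sort (p : Fin 5 → ℝ)) := by
  intro ω hω
  set π := Tuple.sort (p : Fin 5 → ℝ) with hπ
  have hmono : Monotone ((p : Fin 5 → ℝ) ∘ π) := Tuple.monotone_sort _
  have hlow : ∀ a ∈ ω.1.map π.symm.toEmbedding, ∀ b, b ∉ ω.1.map π.symm.toEmbedding → a < b := by
    intro a ha b hb
    simp only [Finset.mem_map, Equiv.coe_toEmbedding] at ha hb
    obtain ⟨i, hi, rfl⟩ := ha
    have hb' : π b ∉ ω.1 := fun h => hb ⟨π b, h, by simp⟩
    have hlt := lt_of_ell_eq_zero p.2 hω hi hb'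
    by_contra hcon
    push Not at hcon
    have := hmono hcon
    simp only [Function.comp_apply, Equiv.apply_symm_apply] at this
    linarith
  have heq := lowerSet_eq _ hlow
  rw [Finset.card_map] at heq
  have hpos : 0 < ω.1.card := Finset.card_pos.2 ω.2.1
  have hlt : ω.1.card < 5 := by
    have := Finset.card_lt_card (Finset.ssubset_univ_iff.2 ω.2.2)
    simpa using this
  refine ⟨⟨ω.1.card - 1, by omega⟩, Subtype.ext ?_⟩
  ext i
  simp only [flag, mem_flagSet]
  have h1 : i ∈ ω.1 ↔ π.symm i ∈ ω.1.map π.symm.toEmbedding := by simp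
  rw [h1, heq]
  simp only [Finset.mem_filter, Finset.mem_univ, true_and]
  omega

theorem isOpen_star (π : Equiv.Perm (Fin 5)) : IsOpen (star π) := by
  have : star π = ⋂ ω : Fct, {p : Permuto | ell ω.1 p = 0 → ∃ j, ω = flag π j} := by
    ext p; simp [star]
  rw [this]
  refine isOpen_iInter_of_finite fun ω => ?_
  by_cases h : ∃ j, ω = flag π j
  · simp only [h, implies_true, Set.ofPred_true, isOpen_univ]
  · simp only [h, imp_false]
    have hc : Continuous fun p : Permuto => ell ω.1 p :=
      (continuous_ell _).comp continuous_subtype_val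
    exact isOpen_ne_fun hc continuous_const

/-! ### Affine charts at the vertices -/

/-- the inverse of the affine chart `p ↦ (ell (flag π j) p)ⱼ` at the vertex `π` -/
def affInv (π : Equiv.Perm (Fin 5)) (y : Fin 4 → ℝ) : Fin 5 → ℝ := fun i =>
  (![y 0, y 1 - y 0 + 1, y 2 - y 1 + 2, y 3 - y 2 + 3, 4 - y 3] : Fin 5 → ℝ) (π.symm i)

theorem continuous_affInv (π : Equiv.Perm (Fin 5)) : Continuous (affInv π) := by
  refine continuous_pi fun i => ?_
  unfold affInv
  generalize π.symm i = k
  fin_cases k <;> simp <;> fun_prop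

theorem ell_flag (π : Equiv.Perm (Fin 5)) (j : Fin 4) (p : Fin 5 → ℝ) :
    ell (flag π j).1 p = ∑ k : Fin 5, (if (k : ℕ) ≤ j then p (π k) else 0) - ((j : ℝ) + 1) * j / 2 := by
  unfold ell
  rw [card_flag]
  congr 1
  · rw [← Finset.sum_filter]
    change ∑ i ∈ flagSet π j, p i = _
    rw [flagSet_eq_map, Finset.sum_map]
    rfl
  · push_cast; ring

theorem ell_flag_affInv (π : Equiv.Perm (Fin 5)) (j : Fin 4) (y : Fin 4 → ℝ) :
    ell (flag π j).1 (affInv π y) = y j := by
  rw [ell_flag]
  simp only [affInv, Equiv.symm_apply_apply]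
  rw [Fin.sum_univ_five]
  fin_cases j <;> simp <;> ring

theorem sum_affInv (π : Equiv.Perm (Fin 5)) (y : Fin 4 → ℝ) : ∑ i, affInv π y i = 10 := by
  rw [← Equiv.sum_comp π]
  simp only [affInv, Equiv.symm_apply_apply]
  rw [Fin.sum_univ_five]
  simp; ring

theorem affInv_ell (π : Equiv.Perm (Fin 5)) {p : Fin 5 → ℝ} (hp : ∑ i, p i = 10) :
    affInv π (fun j => ell (flag π j).1 p) = p := by
  funext i
  obtain ⟨k, rfl⟩ := π.surjective i
  rw [← Equiv.sum_comp π, Fin.sum_univ_five] at hp
  simp only [affInv, Equiv.symm_apply_apply, ell_flag, Fin.sum_univ_five]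
  fin_cases k <;> simp <;> linarith

end FlatCircle
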