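import Pool.Agent.Helper70.Flat.Cover
import Pool.Agent.Helper70.Flat.Pairing

/-!
The barycentric subdivision of the permutohedron.
-/

open Set Topology

noncomputable section

namespace FlatCircle

/-! ### Colours -/

/-- the smallest index at which `f` is minimal -/
def col {α : Type*} [LinearOrder α] (f : Fin 5 → α) : Fin 5 :=
  (Finset.univ.filter fun i => ∀ j, f i ≤ f j).min' (by
    obtain ⟨i, hi⟩ := Finite.exists_min f
    exact ⟨i, by simpa using hi⟩)

theorem col_le {α : Type*} [LinearOrder α] (f : Fin 5 → α) (j : Fin 5) : f (col f) ≤ f j := by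
  have h := Finset.min'_mem (Finset.univ.filter fun i => ∀ j, f i ≤ f j) (by
    obtain ⟨i, hi⟩ := Finite.exists_min f
    exact ⟨i, by simpa using hi⟩)
  exact (Finset.mem_filter.1 h).2 j

theorem col_comp {α β : Type*} [LinearOrder α] [LinearOrder β] {g : α → β} (hg : StrictMono g)
    (f : Fin 5 → α) : col (fun i => g (f i)) = col f := by
  unfold col
  congr 1
  ext i
  simp [hg.le_iff_le]

theorem col_mem {p : Permuto} {ω : Finset (Fin 5)} (hω : ω.Nonempty) (h : ell ω p = 0) :
    col (p : Fin 5 → ℝ) ∈ ω := by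
  obtain ⟨i, hi⟩ := hω
  by_contra hcon
  have h1 := lt_of_ell_eq_zero p.2 h hi hcon
  exact absurd (col_le (p : Fin 5 → ℝ) i) (not_le.2 h1)

/-! ### Centres of the faces -/

/-- Twice the coordinates of the centre of the face which is the intersection of the facets
`{0, …, m}`, `m ∈ J`. -/
def faceN (J : Finset (Fin 4)) (a : Fin 5) : ℕ :=
  ∑ b : Fin 5, if b = a then 0 else
    if ∃ m ∈ J, (b : ℕ) ≤ m ∧ (m : ℕ) < a then 2 else
    if ∃ m ∈ J, (a : ℕ) ≤ m ∧ (m : ℕ) < b then 0 else 1

theorem faceN_ge : ∀ (J : Finset (Fin 4)) (σ : Finset (Fin 5)),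
    σ.card * (σ.card - 1) ≤ ∑ a ∈ σ, faceN J a := by decide +kernel

theorem faceN_sum : ∀ J : Finset (Fin 4), ∑ a, faceN J a = 20 := by decide +kernel

theorem faceN_flag : ∀ (J : Finset (Fin 4)) (m : Fin 4), m ∈ J →
    ∑ a : Fin 5, (if (a : ℕ) ≤ m then faceN J a else 0) = ((m : ℕ) + 1) * m := by decide +kernel

theorem faceN_swap : ∀ (J : Finset (Fin 4)) (m : Fin 4), m ∉ J →
    ∀ a, faceN J (Equiv.swap m.castSucc m.succ a) = faceN J a := by decide +kernel

/-- the vertices of the barycentric subdivision -/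
def facePt (π : Equiv.Perm (Fin 5)) (J : Finset (Fin 4)) : Permuto :=
  ⟨fun i => (faceN J (π.symm i) : ℝ) / 2, by
    constructor
    · rw [← Finset.sum_div]
      have h1 : ∑ i, (faceN J (π.symm i) : ℝ) = 20 := by
        rw [Equiv.sum_comp π.symm (fun a => (faceN J a : ℝ))]
        exact_mod_cast faceN_sum J
      rw [h1]; norm_num
    · intro ω
      unfold ell
      rw [← Finset.sum_div]
      have h1 : ∑ i ∈ ω, (faceN J (π.symm i) : ℝ) =
          ∑ a ∈ ω.map π.symm.toEmbedding, (faceN J a : ℝ) := by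
        rw [Finset.sum_map]; rfl
      have h2 := faceN_ge J (ω.map π.symm.toEmbedding)
      rw [Finset.card_map] at h2
      have h3 : (ω.card : ℝ) * (ω.card - 1) ≤ ∑ a ∈ ω.map π.symm.toEmbedding, (faceN J a : ℝ) := by
        have h4 : ((ω.card * (ω.card - 1) : ℕ) : ℝ) ≤
            ((∑ a ∈ ω.map π.symm.toEmbedding, faceN J a : ℕ) : ℝ) := by exact_mod_cast h2
        rcases Nat.eq_zero_or_pos ω.card with h0 | h0
        · rw [h0]; simp
          positivity
        · rw [Nat.cast_mul, Nat.cast_sub h0] at h4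
          push_cast at h4
          exact h4
      rw [h1]
      linarith⟩

theorem facePt_apply (π : Equiv.Perm (Fin 5)) (J : Finset (Fin 4)) (i : Fin 5) :
    (facePt π J : Fin 5 → ℝ) i = (faceN J (π.symm i) : ℝ) / 2 := rfl

theorem ell_facePt (π : Equiv.Perm (Fin 5)) {J : Finset (Fin 4)} {m : Fin 4} (hm : m ∈ J) :
    ell (flag π m).1 (facePt π J) = 0 := by
  rw [ell_flag]
  simp only [facePt_apply, Equiv.symm_apply_apply]
  have h := faceN_flag J m hm
  have h1 : ∑ k : Fin 5, (if (k : ℕ) ≤ m then (faceN J k : ℝ) / 2 else 0) =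
      ((∑ k : Fin 5, (if (k : ℕ) ≤ m then faceN J k else 0) : ℕ) : ℝ) / 2 := by
    push_cast
    rw [Finset.sum_div]
    refine Finset.sum_congr rfl fun k _ => ?_
    split_ifs <;> simp
  rw [h1, h]
  push_cast; ring

theorem facePt_swap (π : Equiv.Perm (Fin 5)) {J : Finset (Fin 4)} {m : Fin 4} (hm : m ∉ J) :
    facePt (π * Equiv.swap m.castSucc m.succ) J = facePt π J := by
  apply Subtype.ext
  funext i
  rw [facePt_apply, facePt_apply]
  have : (π * Equiv.swap m.castSucc m.succ).symm i =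
      Equiv.swap m.castSucc m.succ (π.symm i) := rfl
  rw [this, faceN_swap J m hm]

/-! ### Affine simplices -/

theorem ell_sum {n : ℕ} (ω : Finset (Fin 5)) (P : Fin (n + 1) → (Fin 5 → ℝ))
    (t : stdSimplex ℝ (Fin (n + 1))) :
    ell ω (∑ k, t k • P k) = ∑ k, t k * ell ω (P k) := by
  have hs : ∑ k, t k = 1 := stdSimplex.sum_eq_one t
  simp only [ell, mul_sub, Finset.sum_sub_distrib, ← Finset.sum_mul, hs, one_mul]
  congr 1
  simp only [Finset.sum_apply, Pi.smul_apply, smul_eq_mul, Finset.mul_sum]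
  rw [Finset.sum_comm]

theorem affine_mem {n : ℕ} (P : Fin (n + 1) → Permuto) (t : stdSimplex ℝ (Fin (n + 1))) :
    ∑ k, t k • (P k : Fin 5 → ℝ) ∈ Permuto :=
  convex_permuto.sum_mem (fun k _ => stdSimplex.zero_le t k) (stdSimplex.sum_eq_one t)
    fun k _ => (P k).2

/-- the affine simplex with the given vertices -/
def affineSimplex {n : ℕ} (P : Fin (n + 1) → Permuto) : Sing n Permuto :=
  ⟨fun t => ⟨∑ k, t k • (P k : Fin 5 → ℝ), affine_mem P t⟩, by
    refine Continuous.subtype_mk ?_ _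
    refine continuous_finsetSum _ fun k _ => ?_
    exact ((continuous_apply k).comp continuous_subtype_val).smul continuous_const⟩

theorem affineSimplex_apply {n : ℕ} (P : Fin (n + 1) → Permuto)
    (t : stdSimplex ℝ (Fin (n + 1))) :
    (affineSimplex P t : Fin 5 → ℝ) = ∑ k, t k • (P k : Fin 5 → ℝ) := rfl

theorem affineSimplex_sub {m n : ℕ} (P : Fin (n + 1) → Permuto)
    (f : Fin (m + 1) → Fin (n + 1)) : (affineSimplex P).sub f = affineSimplex (P ∘ f) := by
  ext t i
  change (∑ k, (stdSimplex.map f t) k • (P k : Fin 5 → ℝ)) i = (∑ k, t k • (P (f k) : Fin 5 → ℝ)) i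
  simp only [Finset.sum_apply, Pi.smul_apply, smul_eq_mul, stdSimplex.map_coe,
    FunOnFinite.linearMap_apply_apply]
  simp only [Finset.sum_mul]
  rw [Finset.sum_comm' (t' := Finset.univ) (s' := fun k => {f k})]
  · simp
  · intro x y; simp [eq_comm]

theorem affineSimplex_vert {n : ℕ} (P : Fin (n + 1) → Permuto) (k : Fin (n + 1)) :
    affineSimplex P (vert k) = P k := by
  apply Subtype.ext
  rw [affineSimplex_apply]
  simp [Pi.single_apply]

/-- the facets of a flag used by the first `k` steps of the ordering `κ` -/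
def stepSet (κ : Equiv.Perm (Fin 4)) (k : Fin 5) : Finset (Fin 4) :=
  (Finset.univ.filter fun m : Fin 4 => (m : ℕ) < k).map κ.toEmbedding

theorem stepSet_swap : ∀ (κ : Equiv.Perm (Fin 4)) (k : Fin 3) (l : Fin 5), (l : ℕ) ≠ k + 1 →
    stepSet (κ * Equiv.swap k.castSucc k.succ) l = stepSet κ l := by decide +kernel

theorem mem_stepSet_zero : ∀ (κ : Equiv.Perm (Fin 4)) (l : Fin 4), κ 0 ∈ stepSet κ l.succ := by
  decide +kernel

theorem not_mem_stepSet_last : ∀ (κ : Equiv.Perm (Fin 4)) (l : Fin 5), l ≠ 4 →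
    κ 3 ∉ stepSet κ l := by decide +kernel

/-! ### Evaluation of colours -/

/-- the first block of positions of a face -/
def blockEnd (J : Finset (Fin 4)) : ℕ := if h : J.Nonempty then (J.min' h : ℕ) else 4

theorem faceN_min : ∀ (J : Finset (Fin 4)) (a : Fin 5),
    (∀ b, faceN J a ≤ faceN J b) ↔ (a : ℕ) ≤ blockEnd J := by decide +kernel

/-- smallest among the first colours in the ordering `π` -/
def colPi (π : Equiv.Perm (Fin 5)) (m : ℕ) : Fin 5 :=
  (Finset.univ.filter fun i : Fin 5 => ((π.symm i : Fin 5) : ℕ) ≤ m).min' ⟨π 0, by simp⟩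

theorem col_facePt (π : Equiv.Perm (Fin 5)) (J : Finset (Fin 4)) :
    col (facePt π J : Fin 5 → ℝ) = colPi π (blockEnd J) := by
  have h1 : (facePt π J : Fin 5 → ℝ) = fun i => (fun n : ℕ => (n : ℝ) / 2) (faceN J (π.symm i)) :=
    rfl
  have hg : StrictMono fun n : ℕ => (n : ℝ) / 2 := by
    intro a b hab
    have : (a : ℝ) < b := by exact_mod_cast hab
    simp only
    linarith
  rw [h1, col_comp hg]
  unfold col colPi
  congr 1
  ext i
  simp only [Finset.mem_filter, Finset.mem_univ, true_and]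
  rw [← faceN_min]
  constructor
  · intro h b
    simpa using h (π b)
  · intro h j
    exact h _

/-- the reversal of the colours -/
def rev5 : Equiv.Perm (Fin 5) := Fin.revPerm

/-- the reversal of the facets of a flag -/
def rev4 : Equiv.Perm (Fin 4) := Fin.revPerm

theorem blockEnd_eq : ∀ κ : Equiv.Perm (Fin 4), κ ≠ rev4 →
    ∃ k : Fin 4, blockEnd (stepSet κ k.castSucc) = blockEnd (stepSet κ k.succ) := by
  decide +kernel

theorem blockEnd_rev : ∀ k : Fin 5, blockEnd (stepSet rev4 k) = 4 - (k : ℕ) := by decide +kernel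

theorem colPi_eq : ∀ π : Equiv.Perm (Fin 5), π ≠ rev5 →
    ∃ k : Fin 4, colPi π (4 - (k.castSucc : ℕ)) = colPi π (4 - (k.succ : ℕ)) := by
  decide +kernel

theorem colPi_rev : ∀ k : Fin 5, colPi rev5 (4 - (k : ℕ)) = k := by decide +kernel

theorem sign_rev5 : Equiv.Perm.sign rev5 = 1 := by decide +kernel

theorem sign_rev4 : Equiv.Perm.sign rev4 = 1 := by decide +kernel

end FlatCircle
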