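import Pool.Agent.Helper70.Flat.Facet

/-!
The finite set of states (a cell together with a system of gluing involutions and four parities)
and the mutations of states.
-/

noncomputable section

namespace FlatCircle

/-! ### Properties -/

/-- the properties of gluing maps which are preserved by mutations -/
structure Good (ω : Fct) (Λ : Ext) : Prop where
  equivar : ∀ c g h, Λ (c, h * g) = ((Λ (c, g)).1, h * (Λ (c, g)).2)
  invol : ∀ x, Λ (Λ x) = x
  sgn : ∀ x, (Λ x).1.sgn = - x.1.sgn
  vtx : ∀ q ∈ ω.1, ∀ x, vtx q (Λ x) = vtx q x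
  facet : ∀ j, ω.1 = {j}ᶜ → ∀ x, Λ x = facetMap j x

theorem good_facetMap {ω : Fct} {j : Fin 5} (hj : j ∉ ω.1) : Good ω (facetMap j) where
  equivar c g h := by simp only [facetMap, mul_assoc]
  invol x := facetMap_invol j x
  sgn x := partner_sgn j x.1
  vtx q hq x := vtx_facetMap (fun h : q = j => hj (h ▸ hq)) x
  facet i hi x := by
    have : j = i := by
      rw [hi] at hj
      simpa using hj
    rw [this]

/-- a state all of whose gluing maps are good -/
def GoodState (u : State) : Prop := ∀ ω, Good ω (u.2.1 ω)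

theorem goodState_start : GoodState startState := by
  intro ω
  apply good_facetMap
  have := Finset.min'_mem _ (compl_nonempty ω)
  simpa using this

theorem Good.conj {γ ω : Fct} (h : γ.1 ⊂ ω.1) {Λ M : Ext} (hΛ : Good γ Λ) (hM : Good ω M) :
    Good γ (M ∘ Λ ∘ M) where
  equivar c g h := by
    simp only [Function.comp_apply]
    rw [hM.equivar]
    have e1 : Λ ((M (c, g)).1, h * (M (c, g)).2) =
      ((Λ (M (c, g))).1, h * (Λ (M (c, g))).2) := hΛ.equivar _ _ _
    rw [e1]
    exact hM.equivar _ _ _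
  invol x := by
    simp only [Function.comp_apply]
    rw [hM.invol, hΛ.invol, hM.invol]
  sgn x := by
    simp only [Function.comp_apply]
    rw [hM.sgn, hΛ.sgn, hM.sgn]
    ring
  vtx q hq x := by
    simp only [Function.comp_apply]
    rw [hM.vtx q (h.1 hq), hΛ.vtx q hq, hM.vtx q (h.1 hq)]
  facet j hj x := by
    exfalso
    have h1 : γ.1.card < ω.1.card := Finset.card_lt_card h
    have h2 : ω.1.card < (Finset.univ : Finset (Fin 5)).card :=
      Finset.card_lt_card (Finset.ssubset_univ_iff.2 ω.2.2)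
    rw [hj, Finset.card_compl] at h1
    simp at h1 h2
    omega

theorem GoodState.mutate {u : State} (hu : GoodState u) (ω : Fct) :
    GoodState (FlatCircle.mutate ω u) := by
  intro γ
  simp only [FlatCircle.mutate]
  split_ifs with h
  · exact (hu γ).conj h (hu ω)
  · exact hu γ

theorem Reach.good (u : Reach) : GoodState u.1 := by
  obtain ⟨u, hu⟩ := u
  induction hu with
  | refl => exact goodState_start
  | tail _ h ih => obtain ⟨ω, rfl⟩ := h; exact ih.mutate ω

theorem mutate_self_snd (ω : Fct) (u : State) : (mutate ω u).2.1 ω = u.2.1 ω := by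
  simp [mutate]

theorem mutate_snd_of_ssubset {γ ω : Fct} (h : γ.1 ⊂ ω.1) (u : State) :
    (mutate ω u).2.1 γ = u.2.1 ω ∘ u.2.1 γ ∘ u.2.1 ω :=
  if_pos h

theorem mutate_snd_of_not {γ ω : Fct} (h : ¬ γ.1 ⊂ ω.1) (u : State) :
    (mutate ω u).2.1 γ = u.2.1 γ :=
  if_neg h

theorem Good.apply_fst {ω : Fct} {Λ : Ext} (h : Good ω Λ) (x : Cell × CircleDiff) :
    Λ x = ((Λ (x.1, 1)).1, x.2 * (Λ (x.1, 1)).2) := by
  have := h.equivar x.1 1 x.2
  rw [mul_one] at this
  exact this

theorem mutate_mutate {u : State} (hu : GoodState u) (ω : Fct) : mutate ω (mutate ω u) = u := by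
  refine Prod.ext ?_ (Prod.ext ?_ ?_)
  · change ((mutate ω u).2.1 ω ((mutate ω u).1, 1)).1 = u.1
    rw [mutate_self_snd]
    have h1 := (hu ω).invol (u.1, 1)
    rw [(hu ω).apply_fst (u.2.1 ω (u.1, 1))] at h1
    exact congrArg Prod.fst h1
  · funext γ
    by_cases h : γ.1 ⊂ ω.1
    · rw [mutate_snd_of_ssubset h, mutate_self_snd, mutate_snd_of_ssubset h]
      funext x
      simp only [Function.comp_apply]
      rw [(hu ω).invol, (hu ω).invol]
    · rw [mutate_snd_of_not h, mutate_snd_of_not h]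
  · funext j
    simp only [mutate]
    split_ifs <;> simp

theorem label_mul {u : State} (hu : GoodState u) (ω : Fct) :
    label ω u * label ω (mutate ω u) = 1 := by
  have h1 := (hu ω).invol (u.1, 1)
  rw [(hu ω).apply_fst (u.2.1 ω (u.1, 1))] at h1
  have h2 := congrArg Prod.snd h1
  simp only at h2
  change (u.2.1 ω (u.1, 1)).2 * ((mutate ω u).2.1 ω ((mutate ω u).1, 1)).2 = 1
  rw [mutate_self_snd]
  exact h2

theorem not_ssubset_of_ssubset {γ ω : Fct} (h : γ.1 ⊂ ω.1) : ¬ ω.1 ⊂ γ.1 :=
  fun h' => h.2 h'.1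

/-- the cell and the label after two commuting mutations, order 1 -/
theorem two_step_outer {u : State} (hu : GoodState u) {γ ω : Fct} (h : γ.1 ⊂ ω.1) :
    (((mutate γ (mutate ω u)).1, label ω u * label γ (mutate ω u)) : Cell × CircleDiff) =
      u.2.1 ω (u.2.1 γ (u.1, 1)) := by
  have h1 : ((mutate γ (mutate ω u)).1, label ω u * label γ (mutate ω u)) =
      (mutate ω u).2.1 γ ((mutate ω u).1, label ω u) := by
    rw [((hu.mutate ω) γ).apply_fst ((mutate ω u).1, label ω u)]
    rfl
  rw [h1, mutate_snd_of_ssubset h]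
  have h2 : ((mutate ω u).1, label ω u) = u.2.1 ω (u.1, 1) := rfl
  rw [h2]
  simp only [Function.comp_apply]
  rw [(hu ω).invol]

theorem two_step_inner {u : State} (hu : GoodState u) {γ ω : Fct} (h : γ.1 ⊂ ω.1) :
    (((mutate ω (mutate γ u)).1, label γ u * label ω (mutate γ u)) : Cell × CircleDiff) =
      u.2.1 ω (u.2.1 γ (u.1, 1)) := by
  have h1 : ((mutate ω (mutate γ u)).1, label γ u * label ω (mutate γ u)) =
      (mutate γ u).2.1 ω ((mutate γ u).1, label γ u) := by
    rw [((hu.mutate γ) ω).apply_fst ((mutate γ u).1, label γ u)]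
    rfl
  rw [h1, mutate_snd_of_not (not_ssubset_of_ssubset h)]
  rfl

theorem label_comm {u : State} (hu : GoodState u) {γ ω : Fct} (h : γ.1 ⊂ ω.1) :
    label ω u * label γ (mutate ω u) = label γ u * label ω (mutate γ u) :=
  congrArg Prod.snd ((two_step_outer hu h).trans (two_step_inner hu h).symm)

theorem mutate_comm {u : State} (hu : GoodState u) {γ ω : Fct} (h : γ.1 ⊂ ω.1) :
    mutate γ (mutate ω u) = mutate ω (mutate γ u) := by
  refine Prod.ext ?_ (Prod.ext ?_ ?_)
  · have h1 := (two_step_outer hu h).trans (two_step_inner hu h).symm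
    exact (Prod.mk.inj h1).1
  · funext δ
    by_cases h1 : δ.1 ⊂ γ.1
    · have h2 : δ.1 ⊂ ω.1 := h1.trans h
      rw [mutate_snd_of_ssubset h1, mutate_snd_of_ssubset h, mutate_snd_of_ssubset h2,
        mutate_snd_of_ssubset h2, mutate_snd_of_ssubset h1,
        mutate_snd_of_not (not_ssubset_of_ssubset h)]
      funext x
      simp only [Function.comp_apply]
      rw [(hu ω).invol, (hu ω).invol]
    · rw [mutate_snd_of_not h1]
      by_cases h2 : δ.1 ⊂ ω.1
      · rw [mutate_snd_of_ssubset h2, mutate_snd_of_ssubset h2, mutate_snd_of_not h1,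
          mutate_snd_of_not (not_ssubset_of_ssubset h)]
      · rw [mutate_snd_of_not h2, mutate_snd_of_not h2, mutate_snd_of_not h1]
  · funext j
    simp only [mutate]
    split_ifs <;> simp

/-! ### Finiteness -/

theorem vtx_fiber_finite (q : Fin 5) (v : Vtx) :
    {y : Cell × CircleDiff | vtx q y = v}.Finite := by
  rcases v with ⟨n, w⟩
  obtain ⟨a, rfl⟩ := QuotientGroup.mk_surjective w
  have h1 : {y : Cell × CircleDiff | vtx q y = ⟨n, (a : CircleDiff ⧸ RotGroup n)⟩} ⊆
      ⋃ c : Cell, (fun r => ((c, a * r * vtxDiff q c.1) : Cell × CircleDiff)) '' RotGroup n := by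
    rintro ⟨c, g⟩ hy
    simp only [Set.mem_ofPred_eq] at hy
    have hy' := (vtx_mk_eq_iff.1 hy.symm)
    rw [Set.mem_iUnion]
    refine ⟨c, a⁻¹ * (g * (vtxDiff q c.1)⁻¹), hy'.2, ?_⟩
    simp only [Prod.mk.injEq, true_and]
    group
  exact (Set.finite_iUnion fun c => (rotGroup_finite n).image _).subset h1

theorem good_finite (ω : Fct) : {Λ : Ext | Good ω Λ}.Finite := by
  obtain ⟨q, hq⟩ := ω.2.1
  let F : Ext → (Cell → Cell × CircleDiff) := fun Λ c => Λ (c, 1)
  have hinj : Set.InjOn F {Λ : Ext | Good ω Λ} := by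
    intro Λ hΛ M hM h
    funext x
    rw [hΛ.apply_fst x, hM.apply_fst x]
    have : Λ (x.1, 1) = M (x.1, 1) := congrFun h x.1
    rw [this]
  refine Set.Finite.of_finite_image (f := F) ?_ hinj
  refine (Set.Finite.pi (t := fun c : Cell => {y : Cell × CircleDiff | vtx q y = vtx q (c, 1)})
    fun c => vtx_fiber_finite q _).subset ?_
  rintro _ ⟨Λ, hΛ, rfl⟩ c _
  exact hΛ.vtx q hq (c, 1)

theorem goodState_finite : {u : State | GoodState u}.Finite := by
  have h2 : {f : Fct → Ext | ∀ ω, Good ω (f ω)}.Finite := by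
    refine (Set.Finite.pi (t := fun ω : Fct => {Λ : Ext | Good ω Λ})
      fun ω => good_finite ω).subset ?_
    intro f hf ω _
    exact hf ω
  have h3 : ((Set.univ : Set Cell) ×ˢ ({f : Fct → Ext | ∀ ω, Good ω (f ω)} ×ˢ
      (Set.univ : Set (Fin 4 → Bool)))).Finite :=
    Set.finite_univ.prod (h2.prod Set.finite_univ)
  refine h3.subset ?_
  intro u hu
  exact ⟨trivial, hu, trivial⟩

instance : Finite Reach := by
  have : Finite {u : State | GoodState u} := goodState_finite
  exact Finite.of_injective (β := {u : State | GoodState u})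
    (fun u : Reach => ⟨u.1, u.good⟩) fun u v h => Subtype.ext (congrArg (fun z => z.1) h)

end FlatCircle
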