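import Pool.Agent.Helper70.Flat.Cover
import Pool.Agent.Helper70.Flat.Simplices

/-!
The fundamental group of a glued space is generated by (indeed consists of) the classes of the
closed walks.
-/

open Set Topology CategoryTheory

noncomputable section

namespace FlatCircle

section classes

variable {X : Type*} [TopologicalSpace X]

/-- the class of a path in the fundamental groupoid -/
def cls {x y : X} (γ : Path x y) : FundamentalGroupoid.mk x ⟶ FundamentalGroupoid.mk y :=
  Path.Homotopic.Quotient.mk γ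

theorem cls_trans {x y z : X} (γ : Path x y) (δ : Path y z) : cls (γ.trans δ) = cls γ ≫ cls δ := rfl

theorem cls_symm {x y : X} (γ : Path x y) : cls γ.symm = Groupoid.inv (cls γ) := rfl

theorem cls_refl (x : X) : cls (Path.refl x) = 𝟙 _ := rfl

theorem cls_eq {x y : X} {γ δ : Path x y} (h : γ.Homotopic δ) : cls γ = cls δ :=
  Quotient.sound h

theorem cast_trans {x y z x' y' z' : X} (γ : Path x y) (δ : Path y z) (hx : x' = x) (hy : y' = y)
    (hz : z' = z) : (γ.trans δ).cast hx hz = (γ.cast hx hy).trans (δ.cast hy hz) := by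
  subst hx hy hz; rfl

end classes

variable {U : Type*}

instance : SimplyConnectedSpace Permuto := by
  have : ContractibleSpace Permuto := convex_permuto.contractibleSpace ⟨_, centre.2⟩
  infer_instance

theorem cellPath_homotopic (Φ : Fct → U → U) (u : U) {p q : Permuto} (P : Path p q) :
    cls (P.map (Glued.continuous_mk Φ u)) = cls (cellPath Φ u p q) := by
  apply cls_eq
  exact (SimplyConnectedSpace.paths_homotopic P (permPath p q)).map
    ⟨Glued.mk Φ u, Glued.continuous_mk Φ u⟩

theorem cellPath_trans (Φ : Fct → U → U) (u : U) (p q r : Permuto) :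
    cls (cellPath Φ u p q) ≫ cls (cellPath Φ u q r) = cls (cellPath Φ u p r) := by
  rw [← cls_trans]
  unfold cellPath
  rw [← Path.map_trans]
  exact cellPath_homotopic Φ u _

theorem cellPath_symm (Φ : Fct → U → U) (u : U) (p q : Permuto) :
    (cellPath Φ u p q).symm = cellPath Φ u q p := by
  ext t
  change Glued.mk Φ u _ = Glued.mk Φ u _
  congr 1
  apply Subtype.ext
  change AffineMap.lineMap (p : Fin 5 → ℝ) (q : Fin 5 → ℝ) (unitInterval.symm t : ℝ) =
    AffineMap.lineMap (q : Fin 5 → ℝ) (p : Fin 5 → ℝ) (t : ℝ)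
  rw [unitInterval.coe_symm_eq, AffineMap.lineMap_apply_one_sub]

/-- the class of the straight path from the centre of the copy `u` to a point of this copy -/
def spoke (Φ : Fct → U → U) (u : U) (p : Permuto) (x : Glued Φ) (h : Glued.mk Φ u p = x) :
    FundamentalGroupoid.mk (Glued.mk Φ u centre) ⟶ FundamentalGroupoid.mk x :=
  cls ((cellPath Φ u centre p).cast rfl h.symm)

theorem spoke_trans (Φ : Fct → U → U) (u : U) (p q : Permuto) (x y : Glued Φ)
    (h : Glued.mk Φ u p = x) (h' : Glued.mk Φ u q = y) :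
    spoke Φ u p x h ≫ cls ((cellPath Φ u p q).cast h.symm h'.symm) = spoke Φ u q y h' := by
  subst h h'
  exact cellPath_trans Φ u centre p q

/-- classes of walks -/
inductive IsWalk (Φ : Fct → U → U) : ∀ (u v : U),
    (FundamentalGroupoid.mk (Glued.mk Φ u centre) ⟶ FundamentalGroupoid.mk (Glued.mk Φ v centre)) →
    Prop
  | nil (u : U) : IsWalk Φ u u (𝟙 _)
  | cons (ω : Fct) (u v : U) (a : FundamentalGroupoid.mk (Glued.mk Φ (Φ ω u) centre) ⟶
      FundamentalGroupoid.mk (Glued.mk Φ v centre)) (h : IsWalk Φ (Φ ω u) v a) :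
      IsWalk Φ u v (cls (stepPath Φ ω u) ≫ a)

theorem IsWalk.trans {Φ : Fct → U → U} {u v w : U}
    {a : FundamentalGroupoid.mk (Glued.mk Φ u centre) ⟶ FundamentalGroupoid.mk (Glued.mk Φ v centre)}
    {b : FundamentalGroupoid.mk (Glued.mk Φ v centre) ⟶ FundamentalGroupoid.mk (Glued.mk Φ w centre)}
    (ha : IsWalk Φ u v a) (hb : IsWalk Φ v w b) : IsWalk Φ u w (a ≫ b) := by
  induction ha with
  | nil u => rwa [Category.id_comp]
  | cons ω u v a _ ih =>
    rw [Category.assoc]
    exact IsWalk.cons ω u w _ (ih hb)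

theorem IsWalk.toList {Φ : Fct → U → U} {u v : U}
    {a : FundamentalGroupoid.mk (Glued.mk Φ u centre) ⟶ FundamentalGroupoid.mk (Glued.mk Φ v centre)}
    (ha : IsWalk Φ u v a) : ∃ (ws : List Fct) (h : walkEnd Φ ws u = v),
      a = cls ((walkPath Φ ws u).cast rfl (congrArg (fun v => Glued.mk Φ v centre) h.symm)) := by
  induction ha with
  | nil u => exact ⟨[], rfl, rfl⟩
  | cons ω u v a _ ih =>
    obtain ⟨ws, h, rfl⟩ := ih
    subst h
    exact ⟨ω :: ws, rfl, rfl⟩

theorem isWalk_step (Φ : Fct → U → U) (ω : Fct) (u : U) (p : Permuto) (hp : ell ω.1 p = 0)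
    (x : Glued Φ) (h : Glued.mk Φ u p = x) (h' : Glued.mk Φ (Φ ω u) p = x) :
    spoke Φ u p x h ≫ Groupoid.inv (spoke Φ (Φ ω u) p x h') = cls (stepPath Φ ω u) := by
  subst h
  set f := facetCentrePt ω with hf
  set v := Φ ω u with hv
  have e : Glued.mk Φ u f = Glued.mk Φ v f := (Glued.sound (ell_facetCentre_self ω) u).symm
  have h1 : cls (cellPath Φ u centre f) = cls (cellPath Φ u centre p) ≫ cls (cellPath Φ u p f) :=
    (cellPath_trans Φ u centre p f).symm
  have h2 : cls ((cellPath Φ v f centre).cast e rfl) =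
      cls ((cellPath Φ v f p).cast e h'.symm) ≫ cls ((cellPath Φ v p centre).cast h'.symm rfl) := by
    rw [← cls_trans, ← cast_trans]
    apply cls_eq
    have h3 := cellPath_trans Φ v f p centre
    rw [← cls_trans] at h3
    exact ((Path.Homotopic.Quotient.eq.1 h3).symm).pathCast e rfl
  have h3 : (cellPath Φ v f p).cast e h'.symm = (cellPath Φ u p f).symm := by
    rw [cellPath_symm]
    ext t
    change Glued.mk Φ v (permPath f p t) = Glued.mk Φ u (permPath f p t)
    apply Glued.sound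
    change ell ω.1 (AffineMap.lineMap (f : Fin 5 → ℝ) (p : Fin 5 → ℝ) (t : ℝ)) = 0
    rw [AffineMap.lineMap_apply_module, ell_combo _ _ _ (by ring), hp]
    have : ell ω.1 (f : Fin 5 → ℝ) = 0 := ell_facetCentre_self ω
    rw [this]; ring
  have h4 : (cellPath Φ v p centre).cast h'.symm rfl =
      ((cellPath Φ v centre p).cast rfl h'.symm).symm := by
    have := cellPath_symm Φ v centre p
    rw [← this]
    ext t; rfl
  have h5 : cls (stepPath Φ ω u) =
      cls (cellPath Φ u centre f) ≫ cls ((cellPath Φ v f centre).cast e rfl) := rfl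
  rw [h5, h1, h2, h3, h4, cls_symm, cls_symm]
  simp only [Category.assoc]
  rw [← Category.assoc (cls (cellPath Φ u p f)), Groupoid.comp_inv, Category.id_comp]
  rfl

theorem isWalk_self (Φ : Fct → U → U) (u : U) (p : Permuto)
    (x : Glued Φ) (h h' : Glued.mk Φ u p = x) :
    IsWalk Φ u u (spoke Φ u p x h ≫ Groupoid.inv (spoke Φ u p x h')) := by
  rw [Groupoid.comp_inv]
  exact IsWalk.nil u

/-- composing spoke differences -/
theorem IsWalk.spoke_trans {Φ : Fct → U → U} {u v w : U} {p q r : Permuto} {x y z : Glued Φ}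
    {hu : Glued.mk Φ u p = x} {hv hv' : Glued.mk Φ v q = y} {hw : Glued.mk Φ w r = z}
    {β : FundamentalGroupoid.mk x ⟶ FundamentalGroupoid.mk y}
    {β' : FundamentalGroupoid.mk y ⟶ FundamentalGroupoid.mk z}
    (h1 : IsWalk Φ u v (spoke Φ u p x hu ≫ β ≫ Groupoid.inv (spoke Φ v q y hv)))
    (h2 : IsWalk Φ v w (spoke Φ v q y hv' ≫ β' ≫ Groupoid.inv (spoke Φ w r z hw))) :
    IsWalk Φ u w (spoke Φ u p x hu ≫ (β ≫ β') ≫ Groupoid.inv (spoke Φ w r z hw)) := by
  have h3 := h1.trans h2
  convert h3 using 1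
  simp only [Category.assoc]
  congr 2
  rw [← Category.assoc (Groupoid.inv (spoke Φ v q y hv)), Groupoid.inv_comp, Category.id_comp]

namespace GlueData

variable (D : GlueData U)

theorem isWalk_apb (π : Equiv.Perm (Fin 5)) (b : Bool) (j : Fin 4) (u : U) (p : Permuto)
    (hp : b = true → ell (flag π j).1 p = 0) (x : Glued D.Φ) (h : Glued.mk D.Φ u p = x)
    (h' : Glued.mk D.Φ (apb b (D.Φ (flag π j)) u) p = x) :
    IsWalk D.Φ u (apb b (D.Φ (flag π j)) u)
      (spoke D.Φ u p x h ≫ 𝟙 _ ≫ Groupoid.inv (spoke D.Φ (apb b (D.Φ (flag π j)) u) p x h')) := by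
  rw [Category.id_comp]
  cases b with
  | false => exact isWalk_self D.Φ u p x h h'
  | true =>
    have h1 := isWalk_step D.Φ (flag π j) u p (hp rfl) x h h'
    change IsWalk D.Φ u (D.Φ (flag π j) u)
      (spoke D.Φ u p x h ≫ Groupoid.inv (spoke D.Φ (D.Φ (flag π j) u) p x h'))
    rw [h1, ← Category.comp_id (cls (stepPath D.Φ (flag π j) u))]
    exact IsWalk.cons _ _ _ _ (IsWalk.nil _)

theorem isWalk_act (π : Equiv.Perm (Fin 5)) (b : Fin 4 → Bool) (u : U) (p : Permuto)
    (hp : ∀ j, b j = true → ell (flag π j).1 p = 0) (x : Glued D.Φ) (h : Glued.mk D.Φ u p = x)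
    (h' : Glued.mk D.Φ (D.act π b u) p = x) :
    IsWalk D.Φ u (D.act π b u)
      (spoke D.Φ u p x h ≫ 𝟙 _ ≫ Groupoid.inv (spoke D.Φ (D.act π b u) p x h')) := by
  have key : ∀ (j : Fin 4) (v : U), Glued.mk D.Φ v p = x →
      Glued.mk D.Φ (apb (b j) (D.Φ (flag π j)) v) p = x := by
    intro j v hv
    cases hb : b j
    · exact hv
    · exact (Glued.sound (hp j hb) v).trans hv
  have h3 := key 3 u h
  have h2 := key 2 _ h3
  have h1 := key 1 _ h2
  have w3 := D.isWalk_apb π (b 3) 3 u p (hp 3) x h h3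
  have w2 := D.isWalk_apb π (b 2) 2 _ p (hp 2) x h3 h2
  have w1 := D.isWalk_apb π (b 1) 1 _ p (hp 1) x h2 h1
  have w0 := D.isWalk_apb π (b 0) 0 _ p (hp 0) x h1 h'
  have := ((w3.spoke_trans w2).spoke_trans w1).spoke_trans w0
  simp only [Category.comp_id] at this
  exact this

end GlueData

/-! ### The charts are simply connected -/

/-- the vertex `π` of the permutohedron -/
def vertexPt (π : Equiv.Perm (Fin 5)) : Permuto := facePt π Finset.univ

theorem faceN_univ_eq : ∀ σ : Finset (Fin 5), σ.Nonempty → σ ≠ Finset.univ →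
    ∑ a ∈ σ, faceN Finset.univ a = σ.card * (σ.card - 1) →
    ∃ j : Fin 4, σ = Finset.univ.filter fun i : Fin 5 => (i : ℕ) ≤ j := by decide +kernel

theorem vertexPt_mem_star (π : Equiv.Perm (Fin 5)) : vertexPt π ∈ star π := by
  intro w hw
  have h1 : ∑ i ∈ w.1, (faceN Finset.univ (π.symm i) : ℝ) =
      ∑ a ∈ w.1.map π.symm.toEmbedding, (faceN Finset.univ a : ℝ) := by
    rw [Finset.sum_map]; rfl
  have h2 : (∑ a ∈ w.1.map π.symm.toEmbedding, (faceN Finset.univ a : ℝ)) =
      (w.1.card : ℝ) * (w.1.card - 1) := by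
    unfold ell vertexPt at hw
    simp only [facePt_apply] at hw
    rw [← Finset.sum_div, h1] at hw
    linarith
  have h3 : ∑ a ∈ w.1.map π.symm.toEmbedding, faceN Finset.univ a =
      (w.1.map π.symm.toEmbedding).card * ((w.1.map π.symm.toEmbedding).card - 1) := by
    rw [Finset.card_map]
    have hpos : 0 < w.1.card := Finset.card_pos.2 w.2.1
    have h4 : ((∑ a ∈ w.1.map π.symm.toEmbedding, faceN Finset.univ a : ℕ) : ℝ) =
        ((w.1.card * (w.1.card - 1) : ℕ) : ℝ) := by
      rw [Nat.cast_mul, Nat.cast_sub hpos]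
      push_cast
      exact h2
    exact_mod_cast h4
  obtain ⟨j, hj⟩ := faceN_univ_eq (w.1.map π.symm.toEmbedding) (by simpa using w.2.1) (by
    intro h
    apply w.2.2
    have hc := congrArg Finset.card h
    rw [Finset.card_map] at hc
    exact Finset.card_eq_iff_eq_univ _ |>.1 (by simpa using hc)) h3
  refine ⟨j, Subtype.ext ?_⟩
  ext i
  have h5 : i ∈ w.1 ↔ π.symm i ∈ w.1.map π.symm.toEmbedding := by simp
  rw [h5, hj]
  simp [flag, mem_flagSet]

theorem ell_vertexPt (π : Equiv.Perm (Fin 5)) (j : Fin 4) : ell (flag π j).1 (vertexPt π) = 0 :=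
  ell_facePt π (Finset.mem_univ j)

theorem star_segment {π : Equiv.Perm (Fin 5)} {p q : Permuto} (hp : p ∈ star π) (hq : q ∈ star π)
    (t : unitInterval) : permPath p q t ∈ star π := by
  intro w hw
  by_contra hcon
  have h1 : 0 < ell w.1 p := lt_of_le_of_ne (p.2.2 _) fun h => hcon (hp w h.symm)
  have h2 : 0 < ell w.1 q := lt_of_le_of_ne (q.2.2 _) fun h => hcon (hq w h.symm)
  change ell w.1 (AffineMap.lineMap (p : Fin 5 → ℝ) (q : Fin 5 → ℝ) (t : ℝ)) = 0 at hw
  rw [AffineMap.lineMap_apply_module, ell_combo _ _ _ (by ring)] at hw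
  have ht0 : (0:ℝ) ≤ t := t.2.1
  have ht1 : (0:ℝ) ≤ 1 - t := by linarith [t.2.2]
  rcases ht0.eq_or_lt with h | h
  · rw [← h] at hw; simp at hw; linarith
  · have : 0 < (t:ℝ) * ell w.1 q := mul_pos h h2
    have : 0 ≤ (1 - (t:ℝ)) * ell w.1 p := mul_nonneg ht1 h1.le
    linarith

theorem affInv_combo (π : Equiv.Perm (Fin 5)) (y z : Fin 4 → ℝ) {a b : ℝ} (hab : a + b = 1) :
    affInv π (fun j => a * y j + b * z j) = a • affInv π y + b • affInv π z := by
  funext i
  simp only [affInv, Pi.add_apply, Pi.smul_apply, smul_eq_mul]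
  generalize π.symm i = k
  fin_cases k
  · simp
  · simp; linear_combination -hab
  · simp; linear_combination -2 * hab
  · simp; linear_combination -3 * hab
  · simp; linear_combination -4 * hab

theorem zero_mem_coordRange (π : Equiv.Perm (Fin 5)) : (0 : Fin 4 → ℝ) ∈ coordRange π := by
  intro w hw
  have h1 : (affInv π fun j => (0 : Fin 4 → ℝ) j ^ 2) = vertexPt π := by
    have h2 := affInv_ell π (vertexPt π).2.1
    rw [← h2]
    congr 1
    funext j
    rw [ell_vertexPt]; simp
  rw [h1]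
  refine lt_of_le_of_ne ((vertexPt π).2.2 _) fun h => ?_
  obtain ⟨j, hj⟩ := vertexPt_mem_star π w h.symm
  exact hw j hj

theorem starConvex_coordRange (π : Equiv.Perm (Fin 5)) : StarConvex ℝ 0 (coordRange π) := by
  intro x hx a b ha hb hab w hw
  have hb1 : b ≤ 1 := by linarith
  have h1 : (affInv π fun j => (a • (0 : Fin 4 → ℝ) + b • x) j ^ 2) =
      (1 - b ^ 2) • affInv π (fun j => (0 : Fin 4 → ℝ) j ^ 2) + (b ^ 2) • affInv π fun j => x j ^ 2 := by
    rw [← affInv_combo π _ _ (by ring)]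
    congr 1
    funext j
    simp
    ring
  rw [h1, ell_combo _ _ _ (by ring)]
  have h2 := zero_mem_coordRange π w hw
  have h3 := hx w hw
  have hb2 : b ^ 2 ≤ 1 := by nlinarith
  rcases hb2.eq_or_lt with h | h
  · rw [h]; simpa using h3
  · have : 0 < (1 - b ^ 2) * ell w.1 (affInv π fun j => (0 : Fin 4 → ℝ) j ^ 2) :=
      mul_pos (by linarith) h2
    have : 0 ≤ b ^ 2 * ell w.1 (affInv π fun j => x j ^ 2) := mul_nonneg (by positivity) h3.le
    linarith

namespace GlueData

variable (D : GlueData U)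

theorem simplyConnected_chartSource (π : Equiv.Perm (Fin 5)) (u₀ : U) :
    SimplyConnectedSpace (D.chartSource π u₀) := by
  have h1 : ContractibleSpace (coordRange π) :=
    (starConvex_coordRange π).contractibleSpace ⟨0, zero_mem_coordRange π⟩
  have h2 : ContractibleSpace (D.chartSource π u₀) :=
    (D.chart π u₀).toHomeomorphSourceTarget.contractibleSpace_iff.2 h1
  infer_instance

theorem homotopic_of_mem_chartSource {π : Equiv.Perm (Fin 5)} {u₀ : U} {x y : Glued D.Φ}
    (β β' : Path x y) (h : ∀ t, β t ∈ D.chartSource π u₀) (h' : ∀ t, β' t ∈ D.chartSource π u₀) :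
    β.Homotopic β' := by
  have := D.simplyConnected_chartSource π u₀
  have hx : x ∈ D.chartSource π u₀ := by simpa using h 0
  have hy : y ∈ D.chartSource π u₀ := by simpa using h 1
  let γ : Path (⟨x, hx⟩ : D.chartSource π u₀) ⟨y, hy⟩ :=
    { toFun := fun t => ⟨β t, h t⟩
      continuous_toFun := β.continuous.subtype_mk _
      source' := Subtype.ext β.source
      target' := Subtype.ext β.target }
  let γ' : Path (⟨x, hx⟩ : D.chartSource π u₀) ⟨y, hy⟩ :=
    { toFun := fun t => ⟨β' t, h' t⟩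
      continuous_toFun := β'.continuous.subtype_mk _
      source' := Subtype.ext β'.source
      target' := Subtype.ext β'.target }
  have h1 := (SimplyConnectedSpace.paths_homotopic γ γ').map
    (⟨Subtype.val, continuous_subtype_val⟩ : C(D.chartSource π u₀, Glued D.Φ))
  exact h1

theorem isWalk_chart {π : Equiv.Perm (Fin 5)} {u₀ u v : U} {p q : Permuto} {x y : Glued D.Φ}
    (hx : Glued.mk D.Φ u p = x) (hy : Glued.mk D.Φ v q = y) (β : Path x y)
    (h : ∀ t, β t ∈ D.chartSource π u₀) :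
    IsWalk D.Φ u v (spoke D.Φ u p x hx ≫ cls β ≫ Groupoid.inv (spoke D.Φ v q y hy)) := by
  have hx' : x ∈ D.chartSource π u₀ := by simpa using h 0
  have hy' : y ∈ D.chartSource π u₀ := by simpa using h 1
  rw [← hx] at hx'
  rw [← hy] at hy'
  obtain ⟨hp, hu⟩ := D.mk_mem_chartSource.1 hx'
  obtain ⟨hq, hv⟩ := D.mk_mem_chartSource.1 hy'
  -- `v` is obtained from `u` by crossing facets of the flag
  obtain ⟨b, hb⟩ : ∃ b, v = D.act π b u := by
    refine ⟨fun j => xor (D.par u₀ v j) (D.par u₀ u j), ?_⟩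
    have e1 : D.act π (D.par u₀ v) (D.act π (D.par u₀ v) v) = v := by
      rw [act_act]
      have : (fun j => xor (D.par u₀ v j) (D.par u₀ v j)) = fun _ => false := by
        funext j; simp
      rw [this, act_zero]
    rw [← act_act, hu]
    rw [hv] at e1
    exact e1.symm
  have e : Glued.mk D.Φ u (vertexPt π) = Glued.mk D.Φ v (vertexPt π) := by
    rw [hb]
    exact (D.mk_act π b u _ fun j _ => ell_vertexPt π j).symm
  set z := Glued.mk D.Φ u (vertexPt π) with hz
  let A : Path x z := (cellPath D.Φ u p (vertexPt π)).cast hx.symm rfl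
  let B : Path z y := (cellPath D.Φ v (vertexPt π) q).cast e hy.symm
  have hβ : cls β = cls A ≫ cls B := by
    rw [← cls_trans]
    apply cls_eq
    apply D.homotopic_of_mem_chartSource (π := π) (u₀ := u₀) β (A.trans B) h
    intro t
    rw [Path.trans_apply]
    split_ifs
    · exact D.mk_mem_chartSource.2 ⟨star_segment hp (vertexPt_mem_star π) _, hu⟩
    · exact D.mk_mem_chartSource.2 ⟨star_segment (vertexPt_mem_star π) hq _, hv⟩
  have h1 : spoke D.Φ u p x hx ≫ cls A = spoke D.Φ u (vertexPt π) z rfl :=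
    spoke_trans D.Φ u p (vertexPt π) x z hx rfl
  have h2 : spoke D.Φ v (vertexPt π) z e.symm ≫ cls B = spoke D.Φ v q y hy :=
    spoke_trans D.Φ v (vertexPt π) q z y e.symm hy
  have h3 : cls B ≫ Groupoid.inv (spoke D.Φ v q y hy) =
      Groupoid.inv (spoke D.Φ v (vertexPt π) z e.symm) := by
    rw [← h2]
    simp
  rw [hβ]
  have h4 : spoke D.Φ u p x hx ≫ (cls A ≫ cls B) ≫ Groupoid.inv (spoke D.Φ v q y hy) =
      spoke D.Φ u (vertexPt π) z rfl ≫ 𝟙 _ ≫ Groupoid.inv (spoke D.Φ v (vertexPt π) z e.symm) := by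
    rw [Category.assoc, h3, ← Category.assoc, h1, Category.id_comp]
  rw [h4]
  subst hb
  exact D.isWalk_act π b u (vertexPt π) (fun j _ => ell_vertexPt π j) z rfl e.symm

theorem isWalk_path {u v : U} {p q : Permuto} {x y : Glued D.Φ} (γ : Path x y)
    (hx : Glued.mk D.Φ u p = x) (hy : Glued.mk D.Φ v q = y) :
    IsWalk D.Φ u v (spoke D.Φ u p x hx ≫ cls γ ≫ Groupoid.inv (spoke D.Φ v q y hy)) := by
  obtain ⟨t, ht0, htm, ⟨N, htN⟩, htc⟩ := exists_monotone_Icc_subset_open_cover_unitInterval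
    (c := fun i : Equiv.Perm (Fin 5) × U => γ ⁻¹' D.chartSource i.1 i.2)
    (fun i => (D.isOpen_chartSource i.1 i.2).preimage γ.continuous) (by
      intro s _
      rw [mem_iUnion]
      have : ∀ z : Glued D.Φ, ∃ i : Equiv.Perm (Fin 5) × U, z ∈ D.chartSource i.1 i.2 := by
        refine Glued.ind fun w r => ?_
        exact ⟨(Tuple.sort (r : Fin 5 → ℝ), w), D.mk_mem_self (mem_star_sort r)⟩
      exact this (γ s))
  have hx0 : Glued.mk D.Φ u p = γ 0 := by rw [hx, γ.source]
  have key : ∀ n : ℕ, ∀ (w : U) (r : Permuto) (h : Glued.mk D.Φ w r = γ (t n)),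
      IsWalk D.Φ u w (spoke D.Φ u p (γ 0) hx0 ≫ cls (γ.subpath 0 (t n)) ≫
        Groupoid.inv (spoke D.Φ w r (γ (t n)) h)) := by
    intro n
    induction n with
    | zero =>
      intro w r h
      obtain ⟨⟨π, u₀⟩, hi⟩ := htc 0
      apply D.isWalk_chart (π := π) (u₀ := u₀)
      intro s
      have hs : γ.subpath 0 (t 0) s = γ 0 := by
        rw [ht0, Path.subpath_self]; rfl
      rw [hs]
      have : (0 : unitInterval) ∈ Icc (t 0) (t (0 + 1)) := by
        rw [ht0]; exact ⟨le_refl _, unitInterval.nonneg'⟩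
      exact hi this
    | succ n ih =>
      intro w r h
      obtain ⟨w', r', h'⟩ : ∃ w' r', Glued.mk D.Φ w' r' = γ (t n) := by
        have : ∀ z : Glued D.Φ, ∃ w' r', Glued.mk D.Φ w' r' = z :=
          Glued.ind fun w r => ⟨w, r, rfl⟩
        exact this _
      have h1 := ih w' r' h'
      obtain ⟨⟨π, u₀⟩, hi⟩ := htc n
      have h2 : IsWalk D.Φ w' w (spoke D.Φ w' r' (γ (t n)) h' ≫
          cls (γ.subpath (t n) (t (n + 1))) ≫ Groupoid.inv (spoke D.Φ w r (γ (t (n + 1))) h)) := by
        apply D.isWalk_chart (π := π) (u₀ := u₀)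
        intro s
        have hs : γ.subpath (t n) (t (n + 1)) s ∈ range (γ.subpath (t n) (t (n + 1))) := ⟨s, rfl⟩
        rw [Path.range_subpath_of_le γ _ _ (htm (Nat.le_succ n))] at hs
        obtain ⟨s', hs', hs''⟩ := hs
        rw [← hs'']
        exact hi hs'
      have h3 := h1.spoke_trans h2
      have h4 : cls (γ.subpath 0 (t n)) ≫ cls (γ.subpath (t n) (t (n + 1))) =
          cls (γ.subpath 0 (t (n + 1))) := by
        rw [← cls_trans]
        exact cls_eq ⟨Path.Homotopy.subpathTransSubpath γ _ _ _⟩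
      rwa [h4] at h3
  have hN := htN N le_rfl
  have aux : ∀ s : unitInterval, s = 1 → (∀ (h : Glued.mk D.Φ v q = γ s),
      IsWalk D.Φ u v (spoke D.Φ u p (γ 0) hx0 ≫ cls (γ.subpath 0 s) ≫
        Groupoid.inv (spoke D.Φ v q (γ s) h))) →
      IsWalk D.Φ u v (spoke D.Φ u p x hx ≫ cls γ ≫ Groupoid.inv (spoke D.Φ v q y hy)) := by
    intro s hs hw
    subst hs
    have hw1 := hw (by rw [hy, γ.target])
    rw [Path.subpath_zero_one] at hw1
    have hcast : ∀ (x' y' : Glued D.Φ) (hx' : x' = x) (hy' : y' = y)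
        (h1 : Glued.mk D.Φ u p = x') (h2 : Glued.mk D.Φ v q = y'),
        IsWalk D.Φ u v (spoke D.Φ u p x' h1 ≫ cls (γ.cast hx' hy') ≫
          Groupoid.inv (spoke D.Φ v q y' h2)) →
        IsWalk D.Φ u v (spoke D.Φ u p x hx ≫ cls γ ≫ Groupoid.inv (spoke D.Φ v q y hy)) := by
      intro x' y' hx' hy' h1 h2 hw2
      subst hx' hy'
      exact hw2
    exact hcast _ _ γ.source γ.target _ _ hw1
  exact aux (t N) hN (key N v q)

/-- Every element of the fundamental group of a glued space is the class of a closed walk. -/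
theorem exists_walkClass (u : U) (a : FundamentalGroup (Glued D.Φ) (Glued.mk D.Φ u centre)) :
    ∃ (ws : List Fct) (h : walkEnd D.Φ ws u = u), a = walkClass D.Φ ws u h := by
  obtain ⟨γ, rfl⟩ := Path.Homotopic.Quotient.mk_surjective
    (a : Path.Homotopic.Quotient (Glued.mk D.Φ u centre) (Glued.mk D.Φ u centre))
  have h1 := D.isWalk_path (p := centre) (q := centre) γ rfl rfl
  have h2 : spoke D.Φ u centre (Glued.mk D.Φ u centre) rfl = 𝟙 _ := by
    have h3 := cellPath_homotopic D.Φ u (Path.refl centre)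
    change cls (cellPath D.Φ u centre centre) = _
    rw [← h3, ← cls_refl]
    congr 1
  have h4 : Groupoid.inv (spoke D.Φ u centre (Glued.mk D.Φ u centre) rfl) = 𝟙 _ := by
    rw [h2, ← cls_refl, ← cls_symm, Path.refl_symm]
  rw [h4, h2, Category.id_comp, Category.comp_id] at h1
  obtain ⟨ws, h, hws⟩ := h1.toList
  exact ⟨ws, h, hws⟩

end GlueData

end FlatCircle
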