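import Pool.Agent.Helper70.Flat.Cover
import Pool.Agent.Helper70.Flat.Holonomy

/-!
The holonomy of a closed walk is the inverse of the product of the labels.
-/

open Set Topology

noncomputable section

namespace FlatCircle

variable {U G : Type*} [Group G]

theorem coverProj_cellPath (Φ : Fct → U → U) (θ : Fct → U → G) (x : U × G) (p q : Permuto)
    (t : unitInterval) :
    coverProj Φ θ (cellPath (coverΦ Φ θ) x p q t) = cellPath Φ x.1 p q t := rfl

theorem coverProj_stepPath (Φ : Fct → U → U) (θ : Fct → U → G) (ω : Fct) (x : U × G)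
    (t : unitInterval) :
    coverProj Φ θ (stepPath (coverΦ Φ θ) ω x t) = stepPath Φ ω x.1 t := by
  unfold stepPath
  rw [Path.trans_apply, Path.trans_apply]
  split_ifs <;> rfl

theorem exists_walkLift (Φ : Fct → U → U) (θ : Fct → U → G) (ws : List Fct) (u : U) (g : G) :
    ∃ Γ : Path (Glued.mk (coverΦ Φ θ) (u, g) centre)
      (Glued.mk (coverΦ Φ θ) (walkEnd Φ ws u, g * walkLabel Φ θ ws u) centre),
      ∀ t, coverProj Φ θ (Γ t) = walkPath Φ ws u t := by
  induction ws generalizing u g with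
  | nil =>
    refine ⟨(Path.refl _).cast rfl (by simp [walkEnd, walkLabel]), fun t => ?_⟩
    rfl
  | cons ω ws ih =>
    obtain ⟨Γ, hΓ⟩ := ih (Φ ω u) (g * θ ω u)
    let A : Path (Glued.mk (coverΦ Φ θ) (u, g) centre)
      (Glued.mk (coverΦ Φ θ) (Φ ω u, g * θ ω u) centre) := stepPath (coverΦ Φ θ) ω (u, g)
    refine ⟨(A.trans Γ).cast rfl (by simp [walkEnd, walkLabel, mul_assoc]), fun t => ?_⟩
    change coverProj Φ θ ((A.trans Γ) t) = ((stepPath Φ ω u).trans (walkPath Φ ws (Φ ω u))) t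
    rw [Path.trans_apply, Path.trans_apply]
    split_ifs
    · exact coverProj_stepPath Φ θ ω (u, g) _
    · exact hΓ _

theorem holonomy_walkClass (Φ : Fct → U → U) (θ : Fct → U → CircleDiff)
    (hp : IsQuotientCoveringMap (coverProj Φ θ) CircleDiff) (ws : List Fct) (u : U)
    (h : walkEnd Φ ws u = u) :
    holonomy hp (x₀ := Glued.mk Φ u centre) ⟨Glued.mk (coverΦ Φ θ) (u, 1) centre, rfl⟩
      (walkClass Φ ws u h) = (walkLabel Φ θ ws u)⁻¹ := by
  rw [holonomy_apply]
  congr 1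
  set e₀ : coverProj Φ θ ⁻¹' {Glued.mk Φ u centre} :=
    ⟨Glued.mk (coverΦ Φ θ) (u, 1) centre, rfl⟩ with he₀
  obtain ⟨Γ, hΓ⟩ := exists_walkLift Φ θ ws u 1
  have h1 : (Glued.mk (coverΦ Φ θ) (walkEnd Φ ws u, 1 * walkLabel Φ θ ws u) centre) =
      (Glued.mk (coverΦ Φ θ) (u, walkLabel Φ θ ws u) centre) := by rw [h, one_mul]
  have key : hp.isCoveringMap.monodromy (walkClass Φ ws u h) e₀ =
      ⟨Glued.mk (coverΦ Φ θ) (u, walkLabel Φ θ ws u) centre, rfl⟩ := by
    refine IsCoveringMap.monodromy_eq_of_map_eq hp.isCoveringMap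
      (ex := e₀) (ey := ⟨Glued.mk (coverΦ Φ θ) (u, walkLabel Φ θ ws u) centre, rfl⟩)
      (Path.Homotopic.Quotient.mk (Γ.cast rfl h1.symm)) ?_
    rw [← Path.Homotopic.Quotient.mk_map]
    change Path.Homotopic.Quotient.mk _ = Path.Homotopic.Quotient.mk (Path.cast _ _ _)
    congr 1
    ext t
    exact hΓ t
  have h2 := hp.unop_fundamentalGroupToMulOpposite_smul (e := e₀) (γ := walkClass Φ ws u h)
  rw [key] at h2
  have h3 : (Glued.mk (coverΦ Φ θ) (u, walkLabel Φ θ ws u) centre : Cover Φ θ) =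
      walkLabel Φ θ ws u • (e₀ : Cover Φ θ) := by
    rw [he₀]
    change _ = walkLabel Φ θ ws u • (Glued.mk (coverΦ Φ θ) (u, 1) centre : Cover Φ θ)
    rw [smul_mk, mul_one]
  exact hp.isCancelSMul.right_cancel _ _ _ (h2.trans h3)

end FlatCircle
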